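import Pool.Agent.Helper23.Overshear.Orbit

/-!
# Flows of algebraic overshear fields as holomorphic automorphisms
-/

set_option autoImplicit false

noncomputable section

open Filter Topology Set

namespace Pool.Agent.Overshear

universe u

variable {R : Type u} [CommRing R] [Algebra ℂ R] {N : ℕ} {x : Fin N → R}

theorem exp_mul_Efun_neg (u : ℂ) : Complex.exp u * Efun (-u) = Efun u := by
  by_cases hu : u = 0
  · subst hu; simp
  · have h1 := Efun_mul u
    have h2 := Efun_mul (-u)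
    have h3 : u * (Complex.exp u * Efun (-u)) = u * Efun u := by
      rw [h1]
      have h4 : u * (Complex.exp u * Efun (-u)) = -(Complex.exp u * (-u * Efun (-u))) := by ring
      rw [h4, h2, mul_sub, ← Complex.exp_add, add_neg_cancel, Complex.exp_zero]
      ring
    exact mul_left_cancel₀ hu h3

/-- the flow of the algebraic overshear field `f Θ` -/
def osFun (Θ : LND R) (f : R) (t : ℂ) (p : Pt R) : Pt R :=
  Θ.flow (t * p f * Efun (t * p (Θ.D f))) p

theorem flow_f {Θ : LND R} {f : R} (hf : Θ.D (Θ.D f) = 0) (s : ℂ) (p : Pt R) :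
    Θ.flow s p f = p f + s * p (Θ.D f) := by
  have h2 : (Θ.D^[2]) f = 0 := hf
  rw [Θ.flow_apply s p h2, Finset.sum_range_succ, Finset.sum_range_succ, Finset.sum_range_zero]
  simp [LND.dp]

theorem flow_Df {Θ : LND R} {f : R} (hf : Θ.D (Θ.D f) = 0) (s : ℂ) (p : Pt R) :
    Θ.flow s p (Θ.D f) = p (Θ.D f) := by
  have h2 : (Θ.D^[1]) (Θ.D f) = 0 := hf
  rw [Θ.flow_apply s p h2, Finset.sum_range_succ, Finset.sum_range_zero]
  simp [LND.dp]

theorem osFun_neg {Θ : LND R} {f : R} (hf : Θ.D (Θ.D f) = 0) (t : ℂ) (p : Pt R) :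
    osFun Θ f (-t) (osFun Θ f t p) = p := by
  unfold osFun
  rw [flow_f hf, flow_Df hf, LND.flow_add]
  have h1 := Efun_mul (t * p (Θ.D f))
  have h2 := exp_mul_Efun_neg (t * p (Θ.D f))
  have h3 : -t * (p f + t * p f * Efun (t * p (Θ.D f)) * p (Θ.D f)) * Efun (-t * p (Θ.D f)) +
      t * p f * Efun (t * p (Θ.D f)) = 0 := by
    have e1 : -t * p (Θ.D f) = -(t * p (Θ.D f)) := by ring
    have e2 : -t * (p f + t * p f * Efun (t * p (Θ.D f)) * p (Θ.D f)) * Efun (-t * p (Θ.D f))
        = -(t * p f) * ((1 + t * p (Θ.D f) * Efun (t * p (Θ.D f))) * Efun (-(t * p (Θ.D f)))) := by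
      rw [e1]; ring
    rw [e2, h1, add_sub_cancel, h2]
    ring
  rw [h3, Θ.flow_zero]

theorem osFun_zero (Θ : LND R) (f : R) (p : Pt R) : osFun Θ f 0 p = p := by
  simp [osFun, LND.flow_zero]

theorem continuous_osFun (Θ : LND R) (f : R) :
    Continuous (fun q : ℂ × Pt R => osFun Θ f q.1 q.2) := by
  rw [continuous_iff_eval]
  intro a
  have h1 : (fun q : ℂ × Pt R => osFun Θ f q.1 q.2 a) = fun q : ℂ × Pt R =>
      ∑ n ∈ Finset.range (Θ.ord a),
        (q.1 * q.2 f * Efun (q.1 * q.2 (Θ.D f))) ^ n * q.2 (Θ.dp n a) := by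
    ext q
    exact Θ.flow_apply _ _ (Θ.ord_spec a)
  rw [h1]
  have hE : Continuous Efun := by
    rw [continuous_iff_continuousAt]
    exact fun z => (Efun_analytic z (mem_univ z)).continuousAt
  have hev : ∀ b : R, Continuous (fun q : ℂ × Pt R => q.2 b) := fun b =>
    (continuous_eval b).comp continuous_snd
  refine continuous_finsetSum _ fun n _ => ?_
  exact (((continuous_fst.mul (hev f)).mul (hE.comp (continuous_fst.mul (hev _)))).pow n).mul
    (hev _)

theorem isHolo_osFun (hx : Algebra.adjoin ℂ (Set.range x) = ⊤) (Θ : LND R) (f : R) (t : ℂ)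
    (a : R) : IsHolo (fun p => osFun Θ f t p a) := by
  have h1 : (fun p : Pt R => osFun Θ f t p a) = fun p : Pt R =>
      ∑ n ∈ Finset.range (Θ.ord a),
        (t * p f * Efun (t * p (Θ.D f))) ^ n * p (Θ.dp n a) := by
    ext q
    exact Θ.flow_apply _ _ (Θ.ord_spec a)
  rw [h1]
  refine IsHolo.sum hx _ fun n _ => ?_
  refine IsHolo.mul hx (IsHolo.pow hx ?_ n) (isHolo_eval _)
  exact IsHolo.mul hx (IsHolo.mul hx (isHolo_const t) (isHolo_eval f))
    (IsHolo.comp1 (IsHolo.mul hx (isHolo_const t) (isHolo_eval _)) Efun_analytic)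

/-- the flow of an algebraic overshear field as a holomorphic automorphism -/
def osAut (hx : Algebra.adjoin ℂ (Set.range x) = ⊤) (Θ : LND R) (f : R)
    (hf : Θ.D (Θ.D f) = 0) (t : ℂ) : HolAut R :=
  ⟨{ toFun := osFun Θ f t
     invFun := osFun Θ f (-t)
     left_inv := osFun_neg hf t
     right_inv := fun p => by
       have := osFun_neg hf (-t) p
       rwa [neg_neg] at this
     continuous_toFun := continuous_iff_eval.2 fun a => (isHolo_osFun hx Θ f t a).continuous
     continuous_invFun := continuous_iff_eval.2 fun a => (isHolo_osFun hx Θ f (-t) a).continuous },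
    ⟨isHolo_osFun hx Θ f t, isHolo_osFun hx Θ f (-t)⟩⟩

theorem osAut_apply (hx : Algebra.adjoin ℂ (Set.range x) = ⊤) (Θ : LND R) (f : R)
    (hf : Θ.D (Θ.D f) = 0) (t : ℂ) (p : Pt R) :
    (osAut hx Θ f hf t : Pt R ≃ₜ Pt R) p = osFun Θ f t p := rfl

theorem osAut_zero (hx : Algebra.adjoin ℂ (Set.range x) = ⊤) (Θ : LND R) (f : R)
    (hf : Θ.D (Θ.D f) = 0) : osAut hx Θ f hf 0 = 1 := by
  apply Subtype.ext
  apply Homeomorph.ext
  intro p
  exact osFun_zero Θ f p

/-- `t ↦ Φ_t ∘ F` is continuous in the compact-open topology -/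
theorem continuous_osAut_mul (hx : Algebra.adjoin ℂ (Set.range x) = ⊤) (Θ : LND R) (f : R)
    (hf : Θ.D (Θ.D f) = 0) (F : HolAut R) :
    Continuous (fun t : ℂ => osAut hx Θ f hf t * F) := by
  have h : Continuous (fun q : ℂ × Pt R => osFun Θ f q.1 ((F : Pt R ≃ₜ Pt R) q.2)) :=
    Continuous.comp (g := fun q : ℂ × Pt R => osFun Θ f q.1 q.2)
      (f := fun q : ℂ × Pt R => (q.1, (F : Pt R ≃ₜ Pt R) q.2)) (continuous_osFun Θ f)
      (continuous_fst.prodMk ((F : Pt R ≃ₜ Pt R).continuous.comp continuous_snd))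
  have key : Continuous (fun t : ℂ => HolAut.toCM (osAut hx Θ f hf t * F)) := by
    apply ContinuousMap.continuous_of_continuous_uncurry
    have h2 : (Function.uncurry fun (t : ℂ) (p : Pt R) => HolAut.toCM (osAut hx Θ f hf t * F) p)
        = fun q : ℂ × Pt R => osFun Θ f q.1 ((F : Pt R ≃ₜ Pt R) q.2) := by
      ext1 q; rfl
    rw [h2]
    exact h
  exact continuous_induced_rng.2 key

/-! ### continuity of jets -/

theorem continuous_toCM : Continuous (HolAut.toCM : HolAut R → C(Pt R, Pt R)) :=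
  continuous_induced_dom

theorem continuous_evalPt (p : Pt R) (a : R) :
    Continuous (fun F : HolAut R => (F : Pt R ≃ₜ Pt R) p a) := by
  have h1 : Continuous (fun g : C(Pt R, Pt R) => g p) := continuous_eval_const p
  exact (continuous_eval a).comp (h1.comp continuous_toCM)

variable {d : ℕ}

/-- partial derivatives of `a ∘ F ∘ ψ` at `z₀` depend continuously on `F`. -/
theorem continuous_jet (ψ : R →ₐ[ℂ] Ent d) (z₀ : Fin d → ℂ) (M : Multiset (Fin d)) (a : R) :
    Continuous (fun F : HolAut R => ((Ent.P d).pd M (push F ψ a) : (Fin d → ℂ) → ℂ) z₀) := by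
  rw [continuous_iff_continuousAt]
  intro F₀
  -- the map `F ↦ a ∘ F ∘ ψ` to `C(ℂ^d, ℂ)`
  let evC : C(Pt R, ℂ) := ⟨fun p => p a, continuous_eval a⟩
  let ψC : C(Fin d → ℂ, Pt R) := ⟨ptOf ψ, continuous_ptOf ψ⟩
  let Φ : HolAut R → C(Fin d → ℂ, ℂ) := fun F => evC.comp ((HolAut.toCM F).comp ψC)
  have hΦ : Continuous Φ :=
    (ContinuousMap.continuous_postcomp evC).comp
      ((ContinuousMap.continuous_precomp ψC).comp continuous_toCM)
  have hΦF : Tendsto Φ (𝓝 F₀) (𝓝 (Φ F₀)) := hΦ.continuousAt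
  rw [ContinuousMap.tendsto_iff_forall_isCompact_tendstoUniformlyOn] at hΦF
  have h1 := hΦF (Metric.closedBall z₀ (M.card : ℝ)) (isCompact_closedBall _ _)
  rw [Metric.tendstoUniformlyOn_iff] at h1
  rw [ContinuousAt, Metric.tendsto_nhds]
  intro ε hε
  filter_upwards [h1 (ε / 2) (half_pos hε)] with F hF
  rw [dist_eq_norm]
  have h2 : ((Ent.P d).pd M (push F ψ a) : (Fin d → ℂ) → ℂ) z₀
      - ((Ent.P d).pd M (push F₀ ψ a) : (Fin d → ℂ) → ℂ) z₀
      = ((Ent.P d).pd M (push F ψ a - push F₀ ψ a) : (Fin d → ℂ) → ℂ) z₀ := by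
    rw [CommDer.pd_sub]; rfl
  rw [h2]
  refine lt_of_le_of_lt (Ent.norm_pd_le M (C := ε / 2) fun w hw => ?_) (half_lt_self hε)
  have h3 := hF w (by rw [Metric.mem_closedBall, dist_eq_norm]; exact hw)
  rw [dist_comm, dist_eq_norm] at h3
  exact h3.le

end Pool.Agent.Overshear
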