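import Mathlib

/-!
# Definitions for the overshear group of an affine variety

`R` is the coordinate ring `ℂ[X]` of an affine variety `X`; the points of `X` are the `ℂ`-algebra
homomorphisms `R → ℂ`.
-/

set_option autoImplicit false

open Filter Topology

noncomputable section

namespace Pool.Agent.Overshear

universe u

section Points

variable (R : Type u) [CommRing R] [Algebra ℂ R]

/-- The points of the affine variety `X` with coordinate ring `R = ℂ[X]`: a point `p` is identified
with the `ℂ`-algebra homomorphism `R → ℂ`, `a ↦ a(p)` (Nullstellensatz). -/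
def Pt : Type u := R →ₐ[ℂ] ℂ

instance : FunLike (Pt R) R ℂ := inferInstanceAs (FunLike (R →ₐ[ℂ] ℂ) R ℂ)

instance : AlgHomClass (Pt R) ℂ R ℂ := inferInstanceAs (AlgHomClass (R →ₐ[ℂ] ℂ) ℂ R ℂ)

/-- The Euclidean topology on `X`: the coarsest topology for which all regular functions
`p ↦ a(p)`, `a ∈ R`, are continuous.  (For a closed embedding `X ⊆ ℂ^N` this is the subspace
topology.) -/
instance : TopologicalSpace (Pt R) :=
  TopologicalSpace.induced (fun (p : Pt R) (a : R) => p a) Pi.topologicalSpace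

variable {R}

/-- A function `f : X → ℂ` is holomorphic if near every point it is an analytic function of
finitely many regular functions. -/
def IsHolo (f : Pt R → ℂ) : Prop :=
  ∀ p : Pt R, ∃ (m : ℕ) (a : Fin m → R) (φ : (Fin m → ℂ) → ℂ),
    AnalyticAt ℂ φ (fun i => p (a i)) ∧ ∀ᶠ q in 𝓝 p, f q = φ (fun i => q (a i))

end Points

section basic

variable {R : Type u} [CommRing R] [Algebra ℂ R]

theorem continuous_eval (a : R) : Continuous (fun p : Pt R => p a) :=
  (continuous_apply a).comp continuous_induced_dom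

theorem continuous_iff_eval {Y : Type*} [TopologicalSpace Y] {f : Y → Pt R} :
    Continuous f ↔ ∀ a : R, Continuous (fun y => f y a) := by
  rw [continuous_induced_rng, continuous_pi_iff]
  rfl

theorem Pt.ext {p q : Pt R} (h : ∀ a : R, p a = q a) : p = q := DFunLike.ext _ _ h

/-- Version of the definition of a holomorphic function with an arbitrary finite index type. -/
theorem exists_fin_of_fintype {ι : Type*} [Fintype ι] {f : Pt R → ℂ} {p : Pt R} (a : ι → R)
    (φ : (ι → ℂ) → ℂ) (hφ : AnalyticAt ℂ φ (fun i => p (a i)))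
    (hf : ∀ᶠ q in 𝓝 p, f q = φ (fun i => q (a i))) :
    ∃ (m : ℕ) (a : Fin m → R) (φ : (Fin m → ℂ) → ℂ),
      AnalyticAt ℂ φ (fun i => p (a i)) ∧ ∀ᶠ q in 𝓝 p, f q = φ (fun i => q (a i)) := by
  let e := Fintype.equivFin ι
  let L : (Fin (Fintype.card ι) → ℂ) →L[ℂ] (ι → ℂ) :=
    ContinuousLinearMap.pi (fun i => ContinuousLinearMap.proj (e i))
  refine ⟨Fintype.card ι, fun k => a (e.symm k), fun w => φ (L w), ?_, ?_⟩
  · have h1 : L (fun k => p (a (e.symm k))) = fun i => p (a i) := by
      ext i; simp [L]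
    exact AnalyticAt.fun_comp (by rw [h1]; exact hφ) (L.analyticAt _)
  · filter_upwards [hf] with q hq
    rw [hq]
    congr 1
    ext i; simp [L]

theorem isHolo_eval (a : R) : IsHolo (fun p : Pt R => p a) := fun _ =>
  ⟨1, fun _ => a, fun w => w 0,
    (ContinuousLinearMap.proj (R := ℂ) (φ := fun _ : Fin 1 => ℂ) 0).analyticAt _,
    Eventually.of_forall fun _ => rfl⟩

theorem IsHolo.continuous {f : Pt R → ℂ} (hf : IsHolo f) : Continuous f := by
  rw [continuous_iff_continuousAt]
  intro p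
  obtain ⟨m, a, φ, hφ, h⟩ := hf p
  have h1 : Continuous (fun q : Pt R => fun i => q (a i)) :=
    continuous_pi fun i => continuous_eval (a i)
  have h2 : ContinuousAt (fun q : Pt R => φ (fun i => q (a i))) p :=
    ContinuousAt.comp (g := φ) (f := fun q : Pt R => fun i => q (a i)) hφ.continuousAt
      h1.continuousAt
  exact h2.congr (h.mono fun q hq => hq.symm)

/-- Composition of a holomorphic function with a map all of whose coordinates are holomorphic. -/
theorem IsHolo.comp {f : Pt R → ℂ} (hf : IsHolo f) {F : Pt R → Pt R}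
    (hF : ∀ a : R, IsHolo (fun p => F p a)) : IsHolo (fun p => f (F p)) := by
  intro p
  have hFc : Continuous F := continuous_iff_eval.2 fun a => (hF a).continuous
  obtain ⟨m, a, φ, hφ, h⟩ := hf (F p)
  choose n b ψ hψ hb using fun i => hF (a i) p
  let L : ∀ i, ((Σ i, Fin (n i)) → ℂ) →L[ℂ] (Fin (n i) → ℂ) := fun i =>
    ContinuousLinearMap.pi (fun k => ContinuousLinearMap.proj (⟨i, k⟩ : Σ i, Fin (n i)))
  refine exists_fin_of_fintype (ι := Σ i, Fin (n i)) (fun k => b k.1 k.2)
    (fun w => φ (fun i => ψ i (L i w))) ?_ ?_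
  · have h1 : (fun i => ψ i (L i (fun k => p (b k.1 k.2)))) = fun i => F p (a i) := by
      ext i
      exact (hb i).self_of_nhds.symm
    refine AnalyticAt.fun_comp (g := φ) (f := fun w i => ψ i (L i w)) (by rw [h1]; exact hφ) ?_
    rw [analyticAt_pi_iff]
    intro i
    exact AnalyticAt.fun_comp (g := ψ i) (f := fun w => L i w) (hψ i) ((L i).analyticAt _)
  · have h2 : ∀ᶠ q in 𝓝 p, f (F q) = φ (fun i => F q (a i)) := hFc.continuousAt.eventually h
    have h3 : ∀ᶠ q in 𝓝 p, ∀ i, F q (a i) = ψ i (fun k => q (b i k)) := eventually_all.2 hb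
    filter_upwards [h2, h3] with q h4 h5
    rw [h4]
    congr 1
    ext i
    rw [h5 i]
    rfl

end basic

section Aut

variable (R : Type u) [CommRing R] [Algebra ℂ R]

/-- The group `Aut_hol(X)` of holomorphic automorphisms of `X`: homeomorphisms `F` of `X` such that
`F` and `F⁻¹` are holomorphic maps, i.e. have holomorphic coordinates `a ∘ F`, `a ∘ F⁻¹`, `a ∈ R`.
The group law is composition. -/
def HolAut : Subgroup (Pt R ≃ₜ Pt R) where
  carrier := {F | (∀ a : R, IsHolo (fun p => F p a)) ∧ (∀ a : R, IsHolo (fun p => F.symm p a))}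
  mul_mem' := by
    rintro F G ⟨hF, hF'⟩ ⟨hG, hG'⟩
    exact ⟨fun a => (hF a).comp hG, fun a => (hG' a).comp hF'⟩
  one_mem' := ⟨fun a => isHolo_eval a, fun a => isHolo_eval a⟩
  inv_mem' := by
    rintro F ⟨hF, hF'⟩
    exact ⟨hF', hF⟩

variable {R} in
/-- A holomorphic automorphism of `X` as an element of the space `C(X, X)` of continuous maps. -/
def HolAut.toCM (F : HolAut R) : C(Pt R, Pt R) :=
  ⟨fun p => (F : Pt R ≃ₜ Pt R) p, (F : Pt R ≃ₜ Pt R).continuous⟩

/-- The compact-open topology on `Aut_hol(X)`. -/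
instance : TopologicalSpace (HolAut R) :=
  TopologicalSpace.induced HolAut.toCM ContinuousMap.compactOpen

/-- `Aut_1(X)`: the connected component of the identity in `Aut_hol(X)`. -/
def Aut1 : Set (HolAut R) := connectedComponent 1

end Aut

section LND

variable (R : Type u) [CommRing R] [Algebra ℂ R]

/-- Locally nilpotent derivations of the coordinate ring `R = ℂ[X]`. -/
structure LND where
  /-- the underlying derivation -/
  D : Derivation ℂ R R
  /-- local nilpotency -/
  nilp : ∀ a : R, ∃ n : ℕ, (D^[n]) a = 0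

variable {R}

namespace LND

/-- The divided powers `Θⁿ/n!`. -/
def dp (Θ : LND R) (n : ℕ) (a : R) : R := ((n.factorial : ℂ)⁻¹) • (Θ.D^[n]) a

theorem iterate_add (D : Derivation ℂ R R) (n : ℕ) (a b : R) :
    (D^[n]) (a + b) = (D^[n]) a + (D^[n]) b := by
  induction n generalizing a b with
  | zero => rfl
  | succ n ih => simp only [Function.iterate_succ_apply, map_add, ih]

theorem iterate_smul (D : Derivation ℂ R R) (n : ℕ) (c : ℂ) (a : R) :
    (D^[n]) (c • a) = c • (D^[n]) a := by
  induction n generalizing a with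
  | zero => rfl
  | succ n ih => rw [Function.iterate_succ_apply, Derivation.map_smul, ih,
      Function.iterate_succ_apply]

theorem iterate_zero' (D : Derivation ℂ R R) (n : ℕ) : (D^[n]) (0 : R) = 0 := by
  induction n with
  | zero => rfl
  | succ n ih => rw [Function.iterate_succ_apply, map_zero, ih]

theorem iterate_eq_zero_of_le (D : Derivation ℂ R R) {n m : ℕ} (h : n ≤ m) {a : R}
    (ha : (D^[n]) a = 0) : (D^[m]) a = 0 := by
  obtain ⟨k, rfl⟩ := Nat.exists_eq_add_of_le h
  rw [add_comm, Function.iterate_add_apply, ha, iterate_zero']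

/-- the Leibniz rule for iterates of a derivation -/
theorem iterate_leibniz (D : Derivation ℂ R R) (n : ℕ) (a b : R) :
    (D^[n]) (a * b) = ∑ ij ∈ Finset.HasAntidiagonal.antidiagonal n,
      (n.choose ij.1 : R) * ((D^[ij.1]) a * (D^[ij.2]) b) := by
  induction n with
  | zero => simp
  | succ n ih =>
    rw [Finset.sum_antidiagonal_choose_succ_mul (fun i j => (D^[i]) a * (D^[j]) b) n]
    rw [Function.iterate_succ_apply', ih, map_sum, ← Finset.sum_add_distrib]
    refine Finset.sum_congr rfl fun ij hij => ?_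
    have h1 : D ((n.choose ij.1 : R)) = 0 := D.map_natCast _
    have h2 : n.choose ij.1 = n.choose ij.2 :=
      Nat.choose_symm_of_eq_add (Finset.HasAntidiagonal.mem_antidiagonal.1 hij).symm
    rw [Derivation.leibniz, Derivation.leibniz, h1, ← h2]
    simp only [Function.iterate_succ_apply', smul_eq_mul, mul_zero, add_zero]
    ring

theorem dp_mul (Θ : LND R) (n : ℕ) (a b : R) :
    Θ.dp n (a * b) = ∑ ij ∈ Finset.HasAntidiagonal.antidiagonal n, Θ.dp ij.1 a * Θ.dp ij.2 b := by
  unfold dp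
  rw [iterate_leibniz, Finset.smul_sum]
  refine Finset.sum_congr rfl fun ij hij => ?_
  have h0 : ij.1 + ij.2 = n := Finset.HasAntidiagonal.mem_antidiagonal.1 hij
  have h1 : ((n.factorial : ℂ)⁻¹) * (n.choose ij.1 : ℂ)
      = ((ij.1.factorial : ℂ)⁻¹) * ((ij.2.factorial : ℂ)⁻¹) := by
    have h2 : n.choose ij.1 * ij.1.factorial * ij.2.factorial = n.factorial := by
      rw [← h0, Nat.choose_symm_add]; exact Nat.add_choose_mul_factorial_mul_factorial _ _
    have h3 : (n.choose ij.1 : ℂ) * ij.1.factorial * ij.2.factorial = n.factorial := by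
      exact_mod_cast h2
    have h4 : (n.factorial : ℂ) ≠ 0 := Nat.cast_ne_zero.2 (Nat.factorial_ne_zero _)
    have h5 : (ij.1.factorial : ℂ) ≠ 0 := Nat.cast_ne_zero.2 (Nat.factorial_ne_zero _)
    have h6 : (ij.2.factorial : ℂ) ≠ 0 := Nat.cast_ne_zero.2 (Nat.factorial_ne_zero _)
    field_simp
    linear_combination h3
  rw [smul_mul_smul_comm, ← h1, ← nsmul_eq_mul, mul_smul, Nat.cast_smul_eq_nsmul]

theorem dp_zero_left (Θ : LND R) (a : R) : Θ.dp 0 a = a := by simp [dp]

theorem dp_add (Θ : LND R) (n : ℕ) (a b : R) : Θ.dp n (a + b) = Θ.dp n a + Θ.dp n b := by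
  simp [dp, smul_add]

theorem dp_smul (Θ : LND R) (n : ℕ) (c : ℂ) (a : R) : Θ.dp n (c • a) = c • Θ.dp n a := by
  simp only [dp, iterate_smul, smul_comm c]

theorem dp_one (Θ : LND R) {n : ℕ} (hn : n ≠ 0) : Θ.dp n 1 = 0 := by
  obtain ⟨k, rfl⟩ := Nat.exists_eq_succ_of_ne_zero hn
  rw [dp, Function.iterate_succ_apply, Derivation.map_one_eq_zero, iterate_zero', smul_zero]

theorem dp_eq_zero_of_le (Θ : LND R) {n m : ℕ} (h : n ≤ m) {a : R}
    (ha : (Θ.D^[n]) a = 0) : Θ.dp m a = 0 := by
  rw [dp, iterate_eq_zero_of_le Θ.D h ha, smul_zero]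

/-- a bound for the nilpotency order of `a` -/
def ord (Θ : LND R) (a : R) : ℕ := (Θ.nilp a).choose

theorem ord_spec (Θ : LND R) (a : R) : (Θ.D^[Θ.ord a]) a = 0 := (Θ.nilp a).choose_spec

section expHom

variable {B : Type*} [CommRing B] [Algebra ℂ B]

/-- The underlying function of `expHom`. -/
def expFun (Θ : LND R) (g : R →ₐ[ℂ] B) (b : B) (a : R) : B :=
  ∑ᶠ n : ℕ, b ^ n * g (Θ.dp n a)

theorem expFun_eq (Θ : LND R) (g : R →ₐ[ℂ] B) (b : B) {a : R} {m : ℕ} (hm : (Θ.D^[m]) a = 0) :
    Θ.expFun g b a = ∑ n ∈ Finset.range m, b ^ n * g (Θ.dp n a) := by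
  apply finsum_eq_sum_of_support_subset
  intro n hn
  rw [Finset.coe_range, Set.mem_Iio]
  by_contra h
  apply hn
  simp only
  rw [Θ.dp_eq_zero_of_le (not_lt.1 h) hm, map_zero, mul_zero]

theorem expFun_mul (Θ : LND R) (g : R →ₐ[ℂ] B) (b : B) (x y : R) :
    Θ.expFun g b (x * y) = Θ.expFun g b x * Θ.expFun g b y := by
  set m := Θ.ord x with hm
  set k := Θ.ord y with hk
  have hx : (Θ.D^[m]) x = 0 := Θ.ord_spec x
  have hy : (Θ.D^[k]) y = 0 := Θ.ord_spec y
  have h1 : ∀ n, m + k ≤ n → Θ.dp n (x * y) = 0 := by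
    intro n hn
    rw [dp_mul]
    refine Finset.sum_eq_zero fun ij hij => ?_
    have h0 : ij.1 + ij.2 = n := Finset.HasAntidiagonal.mem_antidiagonal.1 hij
    by_cases h : m ≤ ij.1
    · rw [Θ.dp_eq_zero_of_le h hx, zero_mul]
    · rw [Θ.dp_eq_zero_of_le (show k ≤ ij.2 by omega) hy, mul_zero]
  let P : Polynomial B := ∑ n ∈ Finset.range m, Polynomial.monomial n (g (Θ.dp n x))
  let Q : Polynomial B := ∑ n ∈ Finset.range k, Polynomial.monomial n (g (Θ.dp n y))
  let S : Polynomial B := ∑ n ∈ Finset.range (m + k), Polynomial.monomial n (g (Θ.dp n (x * y)))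
  have hP : ∀ n, P.coeff n = g (Θ.dp n x) := by
    intro n
    simp only [P, Polynomial.finsetSum_coeff, Polynomial.coeff_monomial]
    rw [Finset.sum_ite_eq']
    split_ifs with h
    · rfl
    · rw [Θ.dp_eq_zero_of_le (by simpa using h) hx, map_zero]
  have hQ : ∀ n, Q.coeff n = g (Θ.dp n y) := by
    intro n
    simp only [Q, Polynomial.finsetSum_coeff, Polynomial.coeff_monomial]
    rw [Finset.sum_ite_eq']
    split_ifs with h
    · rfl
    · rw [Θ.dp_eq_zero_of_le (by simpa using h) hy, map_zero]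
  have hS : ∀ n, S.coeff n = g (Θ.dp n (x * y)) := by
    intro n
    simp only [S, Polynomial.finsetSum_coeff, Polynomial.coeff_monomial]
    rw [Finset.sum_ite_eq']
    split_ifs with h
    · rfl
    · rw [h1 n (by simpa using h), map_zero]
  have hPQ : S = P * Q := by
    ext n
    rw [hS, Polynomial.coeff_mul, dp_mul, map_sum]
    exact Finset.sum_congr rfl fun ij _ => by rw [map_mul, hP, hQ]
  have e1 : Θ.expFun g b x = P.eval b := by
    rw [Θ.expFun_eq g b hx]
    simp only [P, Polynomial.eval_finsetSum, Polynomial.eval_monomial, mul_comm]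
  have e2 : Θ.expFun g b y = Q.eval b := by
    rw [Θ.expFun_eq g b hy]
    simp only [Q, Polynomial.eval_finsetSum, Polynomial.eval_monomial, mul_comm]
  have e3 : Θ.expFun g b (x * y) = S.eval b := by
    have h2 : Θ.expFun g b (x * y) = ∑ n ∈ Finset.range (m + k), b ^ n * g (Θ.dp n (x * y)) := by
      apply finsum_eq_sum_of_support_subset
      intro n hn
      rw [Finset.coe_range, Set.mem_Iio]
      by_contra h
      apply hn
      simp only
      rw [h1 n (not_lt.1 h), map_zero, mul_zero]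
    rw [h2]
    simp only [S, Polynomial.eval_finsetSum, Polynomial.eval_monomial, mul_comm]
  rw [e1, e2, e3, hPQ, Polynomial.eval_mul]

/-- `expHom Θ g b : R → B` is the algebra homomorphism `a ↦ ∑ₙ bⁿ · g(Θⁿ(a)/n!)`,
`g ∘ exp(bΘ)`; the sum is finite because `Θ` is locally nilpotent. -/
def expHom (Θ : LND R) (g : R →ₐ[ℂ] B) (b : B) : R →ₐ[ℂ] B where
  toFun a := ∑ᶠ n : ℕ, b ^ n * g (Θ.dp n a)
  map_one' := by
    have h : (Θ.D^[1]) (1 : R) = 0 := by simp
    have := Θ.expFun_eq g b h
    rw [expFun] at this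
    rw [this]
    simp [dp_zero_left]
  map_mul' x y := Θ.expFun_mul g b x y
  map_zero' := by
    have := Θ.expFun_eq g b (m := 0) (a := 0) rfl
    rw [expFun] at this
    rw [this]
    simp
  map_add' x y := by
    have hx := iterate_eq_zero_of_le Θ.D (le_max_left (Θ.ord x) (Θ.ord y)) (Θ.ord_spec x)
    have hy := iterate_eq_zero_of_le Θ.D (le_max_right (Θ.ord x) (Θ.ord y)) (Θ.ord_spec y)
    have hxy : (Θ.D^[max (Θ.ord x) (Θ.ord y)]) (x + y) = 0 := by rw [iterate_add, hx, hy, add_zero]
    have e1 := Θ.expFun_eq g b hx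
    have e2 := Θ.expFun_eq g b hy
    have e3 := Θ.expFun_eq g b hxy
    rw [expFun] at e1 e2 e3
    rw [e1, e2, e3, ← Finset.sum_add_distrib]
    exact Finset.sum_congr rfl fun n _ => by rw [dp_add, map_add, mul_add]
  commutes' c := by
    have h : (Θ.D^[1]) (algebraMap ℂ R c) = 0 := by simp
    have := Θ.expFun_eq g b h
    rw [expFun] at this
    rw [this]
    simp [dp_zero_left]

theorem expHom_apply (Θ : LND R) (g : R →ₐ[ℂ] B) (b : B) {a : R} {m : ℕ}
    (hm : (Θ.D^[m]) a = 0) :
    Θ.expHom g b a = ∑ n ∈ Finset.range m, b ^ n * g (Θ.dp n a) :=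
  Θ.expFun_eq g b hm

end expHom

/-- The flow `(s, p) ↦ exp(sΘ)(p)` of the algebraic vector field given by a locally nilpotent
derivation `Θ`: the point `exp(sΘ)(p)` is given by `a ↦ ∑ₙ sⁿ/n! · (Θⁿ a)(p)` (finite sum). -/
def flow (Θ : LND R) (s : ℂ) (p : Pt R) : Pt R := Θ.expHom (B := ℂ) p s

/-- The action `f ↦ Θ(f)` of `Θ` on holomorphic functions: the derivative of `f` along the flow of
`Θ`, `Θ(f)(p) = d/ds f(exp(sΘ)(p))` at `s = 0`. -/
def act (Θ : LND R) (f : Pt R → ℂ) (p : Pt R) : ℂ := deriv (fun s : ℂ => f (Θ.flow s p)) 0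

/-- `F : X → X` is the time-`t` map of the vector field `f·Θ`: for every point `p` there is an
integral curve `γ : ℂ → X` of `f·Θ` (that is, `d/ds a(γ(s)) = f(γ(s)) · (Θ a)(γ(s))` for all regular
functions `a`) with `γ(0) = p` and `γ(t) = F(p)`. -/
def IsTimeMap (Θ : LND R) (f : Pt R → ℂ) (t : ℂ) (F : Pt R → Pt R) : Prop :=
  ∀ p : Pt R, ∃ γ : ℂ → Pt R, γ 0 = p ∧ γ t = F p ∧
    ∀ (a : R) (s : ℂ), HasDerivAt (fun s : ℂ => γ s a) (f (γ s) * γ s (Θ.D a)) s

end LND

variable (R)

/-- The group `G_os(X) ⊆ Aut_hol(X)` generated by the time-`t` maps (`t ∈ ℂ`) of all holomorphic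
overshear vector fields `f·Θ`, where `Θ` is a locally nilpotent derivation and `f` is a holomorphic
function on `X` with `Θ(Θ(f)) = 0`. -/
def Gos : Subgroup (HolAut R) :=
  Subgroup.closure {F | ∃ (Θ : LND R) (f : Pt R → ℂ) (t : ℂ),
    IsHolo f ∧ (∀ p, Θ.act (Θ.act f) p = 0) ∧ Θ.IsTimeMap f t (F : Pt R ≃ₜ Pt R)}

/-- The algebraic overshear density property: the algebraic overshear vector fields `f·Θ`
(`Θ` a locally nilpotent derivation, `f ∈ R`, `Θ(Θ(f)) = 0`) generate the Lie algebra of all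
algebraic vector fields (derivations of `R`). -/
def AOSDP : Prop :=
  LieSubalgebra.lieSpan ℂ (Derivation ℂ R R)
    {V | ∃ (Θ : LND R) (f : R), Θ.D (Θ.D f) = 0 ∧ V = f • Θ.D} = ⊤

end LND

end Pool.Agent.Overshear
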