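import Mathlib

/-!
# Affine algebras without derivations

If `A` is a reduced finitely generated `ℂ`-algebra and every `ℂ`-derivation of `A` vanishes, then
every minimal prime of `A` is maximal.
-/

set_option autoImplicit false

noncomputable section

open scoped KaehlerDifferential

namespace Pool.Agent.Overshear

universe u

theorem exists_annihilator {A : Type u} [CommRing A] [IsReduced A] [IsNoetherianRing A]
    {P : Ideal A} (hP : P ∈ minimalPrimes A) : ∃ s ∉ P, ∀ a ∈ P, s * a = 0 := by
  classical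
  have hprime : P.IsPrime := hP.1.1
  have hfin := minimalPrimes.finite_of_isNoetherianRing A
  set F : Finset (Ideal A) := hfin.toFinset.erase P with hF
  have h1 : ¬ (F.prod id ≤ P) := by
    intro h
    obtain ⟨Q, hQ, hQP⟩ := hprime.prod_le.1 h
    rw [hF, Finset.mem_erase, Set.Finite.mem_toFinset] at hQ
    exact hQ.1 (le_antisymm hQP (hP.2 hQ.2.1 hQP))
  obtain ⟨s, hs, hsP⟩ := Set.not_subset.1 h1
  refine ⟨s, hsP, fun a ha => ?_⟩
  have h2 : s * a ∈ sInf (minimalPrimes A) := by
    rw [Submodule.mem_sInf]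
    intro Q hQ
    by_cases h : Q = P
    · rw [h]; exact P.mul_mem_left _ ha
    · have hQF : Q ∈ F := by
        rw [hF, Finset.mem_erase, Set.Finite.mem_toFinset]; exact ⟨h, hQ⟩
      have h3 : s ∈ F.inf id := Ideal.prod_le_inf hs
      rw [Submodule.mem_finsetInf] at h3
      exact Ideal.mul_mem_right _ Q (h3 Q hQF)
  have h3 : sInf (minimalPrimes A) = (⊥ : Ideal A).radical := Ideal.sInf_minimalPrimes
  rw [h3] at h2
  obtain ⟨n, hn⟩ := h2
  exact pow_eq_zero_iff_of_pos' hn
where
  pow_eq_zero_iff_of_pos' {A : Type u} [CommRing A] [IsReduced A] {x : A} {n : ℕ}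
      (h : x ^ n ∈ (⊥ : Ideal A)) : x = 0 := by
    have h' : x ^ n = 0 := h
    exact IsReduced.eq_zero x ⟨n, h'⟩

/-- If `A` has no nonzero derivation, then there is no nonzero derivation of `A` into the fraction
field of `A/P`, `P` a minimal prime. -/
theorem derivation_eq_zero {A : Type u} [CommRing A] [Algebra ℂ A] [IsReduced A]
    [Algebra.FiniteType ℂ A] (h : ∀ D : Derivation ℂ A A, D = 0)
    {P : Ideal A} (hP : P ∈ minimalPrimes A)
    (K : Type u) [Field K] [Algebra A K] [Algebra ℂ K] [IsScalarTower ℂ A K]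
    (hker : ∀ a : A, algebraMap A K a = 0 ↔ a ∈ P)
    (hfrac : ∀ x : K, ∃ a b : A, algebraMap A K b ≠ 0 ∧ x = algebraMap A K a / algebraMap A K b)
    (δ : Derivation ℂ A K) : δ = 0 := by
  classical
  have : IsNoetherianRing A := Algebra.FiniteType.isNoetherianRing ℂ A
  obtain ⟨s, hsP, hs⟩ := exists_annihilator hP
  -- the linear map on differentials
  set φ : Ω[A⁄ℂ] →ₗ[A] K := δ.liftKaehlerDifferential with hφ
  have hfg : Module.Finite A Ω[A⁄ℂ] := inferInstance
  obtain ⟨T, hT⟩ := hfg.fg_top
  -- common denominator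
  have hden : ∃ b : A, algebraMap A K b ≠ 0 ∧ ∀ ω ∈ T, ∃ a : A, algebraMap A K b * φ ω
      = algebraMap A K a := by
    clear hT
    induction T using Finset.induction_on with
    | empty => exact ⟨1, by rw [map_one]; exact one_ne_zero, fun ω hω => absurd hω (by simp)⟩
    | insert ω T hω ih =>
      obtain ⟨b, hb, hbT⟩ := ih
      obtain ⟨a', b', hb', hx⟩ := hfrac (φ ω)
      refine ⟨b * b', by rw [map_mul]; exact mul_ne_zero hb hb', ?_⟩
      intro ω' hω'
      rcases Finset.mem_insert.1 hω' with h1 | h1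
      · subst h1
        refine ⟨b * a', ?_⟩
        rw [hx, map_mul, map_mul]
        field_simp
      · obtain ⟨a, ha⟩ := hbT ω' h1
        refine ⟨b' * a, ?_⟩
        rw [map_mul, map_mul, ← ha]
        ring
  obtain ⟨b, hb, hbT⟩ := hden
  set f : A →ₗ[A] K := Algebra.linearMap A K with hf
  have hrange : ∀ ω, (b • φ) ω ∈ LinearMap.range f := by
    intro ω
    have hω : ω ∈ Submodule.span A (T : Set Ω[A⁄ℂ]) := by rw [hT]; trivial
    induction hω using Submodule.span_induction with
    | mem ω hω =>
      obtain ⟨a, ha⟩ := hbT ω hω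
      refine ⟨a, ?_⟩
      rw [LinearMap.smul_apply, Algebra.smul_def, ha]
      rfl
    | zero => rw [map_zero]; exact zero_mem _
    | add x y _ _ hx hy => rw [map_add]; exact add_mem hx hy
    | smul a x _ hx => rw [map_smul]; exact Submodule.smul_mem _ _ hx
  have hkerf : LinearMap.ker f ≤ LinearMap.ker (LinearMap.mulLeft A s : A →ₗ[A] A) := by
    intro a ha
    rw [LinearMap.mem_ker] at ha ⊢
    exact hs a ((hker a).1 ha)
  set g : LinearMap.range f →ₗ[A] A :=
    ((LinearMap.ker f).liftQ (LinearMap.mulLeft A s : A →ₗ[A] A) hkerf).comp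
      (f.quotKerEquivRange.symm : LinearMap.range f →ₗ[A] A ⧸ LinearMap.ker f) with hg
  have hginj : Function.Injective g := by
    have hinj : Function.Injective
        ((LinearMap.ker f).liftQ (LinearMap.mulLeft A s : A →ₗ[A] A) hkerf) := by
      rw [← LinearMap.ker_eq_bot, LinearMap.ker_eq_bot']
      intro x
      obtain ⟨a, rfl⟩ := Submodule.Quotient.mk_surjective _ x
      intro h1
      have h2 : s * a = 0 := h1
      rw [Submodule.Quotient.mk_eq_zero, LinearMap.mem_ker]
      refine (hker a).2 ?_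
      have h3 : s * a ∈ P := by rw [h2]; exact zero_mem _
      exact (hP.1.1.mem_or_mem h3).resolve_left hsP
    intro x y hxy
    exact f.quotKerEquivRange.symm.injective (hinj hxy)
  have hψ : g.comp (LinearMap.codRestrict (LinearMap.range f) (b • φ) hrange) = 0 := by
    apply Derivation.liftKaehlerDifferential_unique
    rw [h (LinearMap.compDer _ _), h (LinearMap.compDer _ _)]
  have hbφ : ∀ ω, (b • φ) ω = 0 := by
    intro ω
    have h1 : g (LinearMap.codRestrict (LinearMap.range f) (b • φ) hrange ω) = g 0 := by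
      rw [map_zero]; exact LinearMap.congr_fun hψ ω
    have h2 := congrArg Subtype.val (hginj h1)
    exact h2
  apply Derivation.ext
  intro a
  have h1 := hbφ (KaehlerDifferential.D ℂ A a)
  rw [LinearMap.smul_apply, Algebra.smul_def] at h1
  have h2 := (mul_eq_zero.1 h1).resolve_left hb
  rw [hφ, Derivation.liftKaehlerDifferential_comp_D] at h2
  exact h2

/-- If `A` has no nonzero derivation, all its minimal primes are maximal. -/
theorem isMaximal_of_minimalPrimes {A : Type u} [CommRing A] [Algebra ℂ A] [IsReduced A]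
    [Algebra.FiniteType ℂ A] (h : ∀ D : Derivation ℂ A A, D = 0)
    {P : Ideal A} (hP : P ∈ minimalPrimes A) : P.IsMaximal := by
  have hprime : P.IsPrime := hP.1.1
  let K := FractionRing (A ⧸ P)
  have hinjBK : Function.Injective (algebraMap (A ⧸ P) K) := IsFractionRing.injective _ _
  have hker : ∀ a : A, algebraMap A K a = 0 ↔ a ∈ P := by
    intro a
    rw [IsScalarTower.algebraMap_apply A (A ⧸ P) K, ← map_zero (algebraMap (A ⧸ P) K),
      hinjBK.eq_iff]
    exact Ideal.Quotient.eq_zero_iff_mem
  have hfrac : ∀ x : K, ∃ a b : A, algebraMap A K b ≠ 0 ∧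
      x = algebraMap A K a / algebraMap A K b := by
    intro x
    obtain ⟨a, b, hb, hx⟩ := IsFractionRing.div_surjective (A := A ⧸ P) x
    obtain ⟨a, rfl⟩ := Ideal.Quotient.mk_surjective a
    obtain ⟨b, rfl⟩ := Ideal.Quotient.mk_surjective b
    refine ⟨a, b, ?_, hx.symm⟩
    rw [Ne, hker]
    intro hbP
    exact (mem_nonZeroDivisors_iff_ne_zero.1 hb) (Ideal.Quotient.eq_zero_iff_mem.2 hbP)
  have hder : ∀ δ : Derivation ℂ K K, δ = 0 := by
    intro δ
    have h1 := derivation_eq_zero h hP K hker hfrac (δ.compAlgebraMap A)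
    have h2 : ∀ a : A, δ (algebraMap A K a) = 0 := fun a => Derivation.congr_fun h1 a
    apply Derivation.ext
    intro x
    obtain ⟨a, b, _, rfl⟩ := hfrac x
    rw [Derivation.leibniz_div, h2, h2]
    simp
  have hsub : Subsingleton Ω[K⁄ℂ] := by
    refine ⟨fun x y => ?_⟩
    rw [← sub_eq_zero, ← Module.forall_dual_apply_eq_zero_iff K]
    intro f
    have h1 : f = 0 := by
      apply Derivation.liftKaehlerDifferential_unique
      rw [hder (LinearMap.compDer _ _), hder (LinearMap.compDer _ _)]
    rw [h1]; rfl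
  have hunr : Algebra.FormallyUnramified ℂ K := ⟨hsub⟩
  have hess1 : Algebra.EssFiniteType (A ⧸ P) K :=
    Algebra.EssFiniteType.of_isLocalization _ (nonZeroDivisors (A ⧸ P))
  have hess : Algebra.EssFiniteType ℂ K := Algebra.EssFiniteType.comp ℂ (A ⧸ P) K
  have hsep : Algebra.IsSeparable ℂ K := Algebra.FormallyUnramified.isSeparable ℂ K
  have hbij : Function.Bijective (algebraMap ℂ K) :=
    IsAlgClosed.algebraMap_bijective_of_isIntegral
  have hbij2 : Function.Bijective (algebraMap ℂ (A ⧸ P)) := by
    refine ⟨(algebraMap ℂ (A ⧸ P)).injective, fun b => ?_⟩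
    obtain ⟨c, hc⟩ := hbij.2 (algebraMap (A ⧸ P) K b)
    refine ⟨c, hinjBK ?_⟩
    rw [← hc, ← IsScalarTower.algebraMap_apply]
  exact Ideal.Quotient.maximal_of_isField P
    ((RingEquiv.ofBijective _ hbij2).symm.toMulEquiv.isField (Field.toIsField ℂ))

/-- If `A` has no nonzero derivation, then `A` has only finitely many maximal ideals. -/
theorem finite_isMaximal {A : Type u} [CommRing A] [Algebra ℂ A] [IsReduced A]
    [Algebra.FiniteType ℂ A] (h : ∀ D : Derivation ℂ A A, D = 0) :
    {M : Ideal A | M.IsPrime}.Finite := by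
  have : IsNoetherianRing A := Algebra.FiniteType.isNoetherianRing ℂ A
  refine (minimalPrimes.finite_of_isNoetherianRing A).subset ?_
  intro M hM
  have hM' : M.IsPrime := hM
  obtain ⟨P, hP, hPM⟩ := Ideal.exists_minimalPrimes_le (I := (⊥ : Ideal A)) (J := M) bot_le
  have hmax := isMaximal_of_minimalPrimes h hP
  have : P = M := hmax.eq_of_le hM'.ne_top hPM
  rw [← this]
  exact hP

end Pool.Agent.Overshear
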