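import Mathlib

/-!
# Statement-level definitions: the overshear group of an affine variety

An affine variety `X` is given by its coordinate ring `A = ℂ[X]`, a reduced finitely generated
`ℂ`-algebra. The points of `X` are the `ℂ`-algebra homomorphisms `A → ℂ`, the value of a regular
function `a ∈ A` at the point `p` is `p(a) ∈ ℂ`, and `X` carries the classical topology, the
coarsest topology for which all regular functions are continuous (for generators `x_1, …, x_N` of
`A` it is the subspace topology of the closed embedding `(x_1, …, x_N) : X → ℂ^N`).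
-/

set_option autoImplicit false

open Filter Topology

noncomputable section

namespace Pool.Agent.OvershearGroup

universe u

/-- The variety `X` with coordinate ring `A`: the set of `ℂ`-algebra homomorphisms `A → ℂ`. -/
def Pt (A : Type u) [CommRing A] [Algebra ℂ A] : Type u := A →ₐ[ℂ] ℂ

variable {A : Type u} [CommRing A] [Algebra ℂ A]

/-- The value of the regular function `a` at the point `p`. -/
def ev (a : A) (p : Pt A) : ℂ := (show A →ₐ[ℂ] ℂ from p) a

/-- The classical topology of `X`: the coarsest topology for which all `a ∈ A` are continuous. -/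
instance : TopologicalSpace (Pt A) := ⨅ a : A, TopologicalSpace.induced (ev a) inferInstance

/-- Locally nilpotent derivations. -/
def IsLND (D : Derivation ℂ A A) : Prop := ∀ a : A, ∃ n : ℕ, (D^[n]) a = 0

/-- `f : X → ℂ` is holomorphic: near every point, `f` is an analytic function of finitely many
regular functions `a_1, …, a_n ∈ A`. -/
def IsHolo (f : Pt A → ℂ) : Prop :=
  ∀ p : Pt A, ∃ (n : ℕ) (a : Fin n → A) (φ : (Fin n → ℂ) → ℂ),
    AnalyticAt ℂ φ (fun i => ev (a i) p) ∧ ∀ᶠ q in 𝓝 p, f q = φ (fun i => ev (a i) q)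

/-- `f` is holomorphic and `D(f) = g`, for an algebraic vector field `D` on `X`: near every point
`p`, `f = φ(a_1, …, a_n)` with `φ` analytic, and
`g(p) = ∑ᵢ (∂φ/∂wᵢ)(a_1(p), …, a_n(p)) · (D aᵢ)(p)`. -/
def IsLieDeriv (D : Derivation ℂ A A) (f g : Pt A → ℂ) : Prop :=
  ∀ p : Pt A, ∃ (n : ℕ) (a : Fin n → A) (φ : (Fin n → ℂ) → ℂ),
    AnalyticAt ℂ φ (fun i => ev (a i) p) ∧ (∀ᶠ q in 𝓝 p, f q = φ (fun i => ev (a i) q)) ∧
      g p = fderiv ℂ φ (fun i => ev (a i) p) (fun i => ev (D (a i)) p)

/-- `F` is the time-`t` map of the vector field `f·D`: for every `p ∈ X` there is an integral curve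
`γ : ℂ → X` of `f·D` (that is, `d/ds a(γ(s)) = f(γ(s)) · (D a)(γ(s))` for all `a ∈ A`) with
`γ(0) = p` and `γ(t) = F(p)`. -/
def IsTimeMap (D : Derivation ℂ A A) (f : Pt A → ℂ) (t : ℂ) (F : Pt A → Pt A) : Prop :=
  ∀ p : Pt A, ∃ γ : ℂ → Pt A, γ 0 = p ∧ γ t = F p ∧
    ∀ (a : A) (s : ℂ), HasDerivAt (fun s => ev a (γ s)) (f (γ s) * ev (D a) (γ s)) s

/-- The homeomorphism `G` of `X` is a holomorphic automorphism: all coordinates `a ∘ G` and
`a ∘ G⁻¹`, `a ∈ A`, are holomorphic functions. -/
def IsHolAut (G : Pt A ≃ₜ Pt A) : Prop :=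
  ∀ a : A, IsHolo (fun p => ev a (G p)) ∧ IsHolo (fun p => ev a (G.symm p))

variable (A)

/-- `Aut_hol(X)` as a subset of the space `C(X, X)` (with its compact-open topology). -/
def HolAut : Set C(Pt A, Pt A) := {F | ∃ G : Pt A ≃ₜ Pt A, IsHolAut G ∧ ∀ p, F p = G p}

/-- `Aut_1(X)`: the connected component of the identity in `Aut_hol(X)`. -/
def Aut1 : Set C(Pt A, Pt A) := connectedComponentIn (HolAut A) (ContinuousMap.id (Pt A))

/-- `G_os(X)`: the group generated by the time-`t` maps, `t ∈ ℂ`, of all holomorphic overshear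
vector fields `f·D`, `D` a locally nilpotent derivation, `f` holomorphic with `D(D(f)) = 0`. -/
def Gos : Subgroup (Pt A ≃ₜ Pt A) :=
  Subgroup.closure {F | ∃ (D : Derivation ℂ A A) (f g : Pt A → ℂ) (t : ℂ),
    IsLND D ∧ IsLieDeriv D f g ∧ IsLieDeriv D g (fun _ => 0) ∧ IsTimeMap D f t F}

/-- `G_os(X)` as a subset of `Aut_1(X)`. -/
def GosInAut1 : Set (Aut1 A) := {F | ∃ G ∈ Gos A, ∀ p, F.1 p = G p}

/-- The algebraic overshear density property: the fields `f·D`, `D` a locally nilpotent derivation,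
`f ∈ A` with `D(D(f)) = 0`, generate the Lie algebra of all derivations of `A`. -/
def AOSDP : Prop :=
  LieSubalgebra.lieSpan ℂ (Derivation ℂ A A)
    {V | ∃ (D : Derivation ℂ A A) (f : A), IsLND D ∧ D (D f) = 0 ∧ V = f • D} = ⊤

end Pool.Agent.OvershearGroup
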