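import Pool.Agent.Helper23.Overshear.Final
import Pool.Agent.Helper23.Overshear.Stmt

/-!
# Transport to the statement-level definitions
-/

set_option autoImplicit false

noncomputable section

open Filter Topology Set

namespace Pool.Agent.Overshear

open Pool.Agent.OvershearGroup (ev IsLieDeriv)

universe u

variable {A : Type u} [CommRing A] [Algebra ℂ A] {N : ℕ} {x : Fin N → A}

theorem exists_generators (A : Type u) [CommRing A] [Algebra ℂ A] [Algebra.FiniteType ℂ A] :
    ∃ (N : ℕ) (x : Fin N → A), Algebra.adjoin ℂ (Set.range x) = ⊤ := by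
  obtain ⟨s, hs⟩ := (inferInstance : Algebra.FiniteType ℂ A).out
  refine ⟨s.card, fun i => (s.equivFin.symm i : A), ?_⟩
  rw [← hs]
  congr 1
  ext a
  constructor
  · rintro ⟨i, rfl⟩
    exact (s.equivFin.symm i).2
  · intro ha
    exact ⟨s.equivFin ⟨a, ha⟩, by simp⟩

/-- the set of points, statement-level version -/
abbrev Pts (A : Type u) [CommRing A] [Algebra ℂ A] : Type u := OvershearGroup.Pt A

theorem continuous_ev (a : A) : Continuous (ev a : Pts A → ℂ) :=
  continuous_iInf_dom (i := a) continuous_induced_dom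

/-- the identification of `X` with the set of points of its coordinate ring -/
def ptEquiv (A : Type u) [CommRing A] [Algebra ℂ A] : Pts A ≃ₜ Pt A where
  toFun p := (p : A →ₐ[ℂ] ℂ)
  invFun g := (g : A →ₐ[ℂ] ℂ)
  left_inv _ := rfl
  right_inv _ := rfl
  continuous_toFun := continuous_iff_eval.2 fun a => continuous_ev a
  continuous_invFun := continuous_iInf_rng.2 fun a => continuous_induced_rng.2 (continuous_eval a)

theorem ptEquiv_apply (p : Pts A) (a : A) : ptEquiv A p a = ev a p := rfl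

theorem ptEquiv_symm_val (g : Pt A) (a : A) : ev a ((ptEquiv A).symm g) = g a := rfl

/-- holomorphic functions correspond -/
theorem isHolo_comp_symm {f : Pts A → ℂ} (hf : OvershearGroup.IsHolo f) :
    IsHolo (fun g : Pt A => f ((ptEquiv A).symm g)) := by
  intro g
  obtain ⟨n, a, φ, hφ, h⟩ := hf ((ptEquiv A).symm g)
  refine ⟨n, a, φ, hφ, ?_⟩
  exact (ptEquiv A).symm.continuous.continuousAt.eventually h

theorem isHolo_comp {f : Pt A → ℂ} (hf : IsHolo f) :
    OvershearGroup.IsHolo (fun p : Pts A => f (ptEquiv A p)) := by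
  intro p
  obtain ⟨n, a, φ, hφ, h⟩ := hf (ptEquiv A p)
  refine ⟨n, a, φ, hφ, ?_⟩
  exact (ptEquiv A).continuous.continuousAt.eventually h

/-- the locally nilpotent derivation as an element of `LND` -/
def toLND {D : Derivation ℂ A A} (hD : OvershearGroup.IsLND D) : LND A := ⟨D, hD⟩

/-- the derivative along the flow, computed with a local representation -/
theorem LND.act_eq_of_rep (hx : Algebra.adjoin ℂ (Set.range x) = ⊤) (Θ : LND A) {f : Pt A → ℂ}
    {p : Pt A} {n : ℕ} {a : Fin n → A}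
    {φ : (Fin n → ℂ) → ℂ} (hφ : AnalyticAt ℂ φ (fun l => p (a l)))
    (h : ∀ᶠ q in 𝓝 p, f q = φ (fun l => q (a l))) :
    Θ.act f p = fderiv ℂ φ (fun l => p (a l)) (fun l => p (Θ.D (a l))) := by
  have hv : ∀ b : A, HasDerivAt (fun s => Θ.flow s p b) (p (Θ.D b)) 0 := fun b => by
    have := Θ.hasDerivAt_flow p b 0
    rwa [Θ.flow_zero] at this
  have e1 : HasDerivAt (fun s => fun l => Θ.flow s p (a l)) (fun l => p (Θ.D (a l))) 0 :=
    hasDerivAt_pi.2 fun l => hv (a l)
  have e2 : HasFDerivAt φ (fderiv ℂ φ (fun l => p (a l))) (fun l => Θ.flow 0 p (a l)) := by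
    rw [Θ.flow_zero]; exact hφ.differentiableAt.hasFDerivAt
  have e3 := e2.comp_hasDerivAt (0 : ℂ) e1
  have hc := continuousAt_path hx (fun l => hv (x l))
  rw [ContinuousAt, Θ.flow_zero] at hc
  have h5 : HasDerivAt (fun s : ℂ => f (Θ.flow s p))
      (fderiv ℂ φ (fun l => p (a l)) (fun l => p (Θ.D (a l)))) 0 :=
    e3.congr_of_eventuallyEq (hc.eventually h)
  exact h5.deriv

theorem isHolo_of_isLieDeriv {D : Derivation ℂ A A} {f g : Pts A → ℂ}
    (h : IsLieDeriv D f g) : OvershearGroup.IsHolo f := fun p => by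
  obtain ⟨n, a, φ, h1, h2, _⟩ := h p
  exact ⟨n, a, φ, h1, h2⟩

theorem act_of_isLieDeriv (hx : Algebra.adjoin ℂ (Set.range x) = ⊤) {D : Derivation ℂ A A}
    (hD : OvershearGroup.IsLND D) {f g : Pts A → ℂ} (h : IsLieDeriv D f g) (q : Pt A) :
    (toLND hD).act (fun q => f ((ptEquiv A).symm q)) q = g ((ptEquiv A).symm q) := by
  obtain ⟨n, a, φ, h1, h2, h3⟩ := h ((ptEquiv A).symm q)
  rw [h3]
  exact LND.act_eq_of_rep hx (toLND hD) (f := fun q => f ((ptEquiv A).symm q))
    (p := q) (φ := φ) h1 ((ptEquiv A).symm.continuous.continuousAt.eventually h2)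

theorem isTimeMap_conj {D : Derivation ℂ A A}
    (hD : OvershearGroup.IsLND D) {f : Pts A → ℂ} {t : ℂ} {F : Pts A → Pts A}
    (h : OvershearGroup.IsTimeMap D f t F) :
    (toLND hD).IsTimeMap (fun q => f ((ptEquiv A).symm q)) t
      (fun q => ptEquiv A (F ((ptEquiv A).symm q))) := by
  intro q
  obtain ⟨γ, h0, ht, hγ⟩ := h ((ptEquiv A).symm q)
  refine ⟨fun s => ptEquiv A (γ s), ?_, ?_, ?_⟩
  · simp only [h0, Homeomorph.apply_symm_apply]
  · simp only [ht]
  · intro a s
    exact hγ a s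

/-- conjugation with the identification -/
def conj (G : Pts A ≃ₜ Pts A) : Pt A ≃ₜ Pt A :=
  ((ptEquiv A).symm.trans G).trans (ptEquiv A)

theorem conj_apply (G : Pts A ≃ₜ Pts A) (q : Pt A) :
    conj G q = ptEquiv A (G ((ptEquiv A).symm q)) := rfl

theorem conj_mul (G H : Pts A ≃ₜ Pts A) : conj (G * H) = conj G * conj H := by
  ext q : 1
  rw [Homeomorph.mul_apply, conj_apply, conj_apply, conj_apply, Homeomorph.symm_apply_apply]
  rfl

theorem conj_one : conj (1 : Pts A ≃ₜ Pts A) = 1 := by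
  ext q : 1
  exact (ptEquiv A).apply_symm_apply q

theorem conj_inv (G : Pts A ≃ₜ Pts A) : conj G⁻¹ = (conj G)⁻¹ := by
  rw [eq_inv_iff_mul_eq_one, ← conj_mul, inv_mul_cancel, conj_one]

theorem conj_mem_holAut {G : Pts A ≃ₜ Pts A} (hG : OvershearGroup.IsHolAut G) :
    conj G ∈ HolAut A := by
  refine ⟨fun a => ?_, fun a => ?_⟩
  · exact isHolo_comp_symm (hG a).1
  · exact isHolo_comp_symm (hG a).2

/-- time maps of overshear fields are holomorphic -/
theorem LND.IsTimeMap.isHolo
    (hx : Algebra.adjoin ℂ (Set.range x) = ⊤) {Θ : LND A} {f : Pt A → ℂ} (hf : IsHolo f)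
    (hf2 : ∀ p, Θ.act (Θ.act f) p = 0) {t : ℂ} {F : Pt A → Pt A} (hF : Θ.IsTimeMap f t F)
    (a : A) : IsHolo fun p => F p a := by
  have h1 : (fun p : Pt A => F p a) = fun p : Pt A =>
      ∑ n ∈ Finset.range (Θ.ord a), (t * f p * Efun (t * Θ.act f p)) ^ n * p (Θ.dp n a) := by
    ext q
    rw [hF.eq_flow hx hf hf2 q]
    exact Θ.flow_apply _ _ (Θ.ord_spec a)
  rw [h1]
  refine IsHolo.sum hx _ fun n _ => ?_
  exact IsHolo.mul hx (IsHolo.pow hx (LND.act_tau hx hf hf2 t).1 n) (isHolo_eval _)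

/-- elements of the overshear group of `X` give elements of the overshear group of the set of
points of the coordinate ring. -/
theorem conj_mem_gos (hx : Algebra.adjoin ℂ (Set.range x) = ⊤) {G : Pts A ≃ₜ Pts A}
    (hG : G ∈ OvershearGroup.Gos A) :
    ∃ H : HolAut A, H ∈ Gos A ∧ (H : Pt A ≃ₜ Pt A) = conj G := by
  unfold OvershearGroup.Gos at hG
  induction hG using Subgroup.closure_induction with
  | mem G hG =>
    obtain ⟨D, f, g, t, hD, hfg, hg0, hT⟩ := hG
    have hf := isHolo_comp_symm (isHolo_of_isLieDeriv hfg)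
    have hact : ∀ q, (toLND hD).act ((toLND hD).act (fun q => f ((ptEquiv A).symm q))) q = 0 := by
      intro q
      have h1 : (toLND hD).act (fun q => f ((ptEquiv A).symm q))
          = fun q => g ((ptEquiv A).symm q) := funext fun q => act_of_isLieDeriv hx hD hfg q
      rw [h1, act_of_isLieDeriv hx hD hg0 q]
    have hT1 := isTimeMap_conj hD hT
    have hT2 : (toLND hD).IsTimeMap (fun q => f ((ptEquiv A).symm q)) t (conj G) := hT1
    have hmem : conj G ∈ HolAut A :=
      ⟨fun a => LND.IsTimeMap.isHolo hx hf hact hT2 a,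
        fun a => LND.IsTimeMap.isHolo hx hf hact hT2.symm a⟩
    exact ⟨⟨conj G, hmem⟩, Subgroup.subset_closure ⟨toLND hD, _, t, hf, hact, hT2⟩, rfl⟩
  | one => exact ⟨1, one_mem _, by rw [conj_one]; rfl⟩
  | mul G H _ _ ihG ihH =>
    obtain ⟨G', hG', hG2⟩ := ihG
    obtain ⟨H', hH', hH2⟩ := ihH
    exact ⟨G' * H', mul_mem hG' hH', by rw [conj_mul, ← hG2, ← hH2]; rfl⟩
  | inv G _ ih =>
    obtain ⟨G', hG', hG2⟩ := ih
    exact ⟨G'⁻¹, inv_mem hG', by rw [conj_inv, ← hG2]; rfl⟩

/-- elements of `Aut_hol(X)` as elements of `HolAut` -/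
theorem exists_holAut (F : C(Pts A, Pts A)) (hF : F ∈ OvershearGroup.HolAut A) :
    ∃ H : HolAut A, ∀ q, (H : Pt A ≃ₜ Pt A) q = ptEquiv A (F ((ptEquiv A).symm q)) := by
  obtain ⟨G, h1, h2⟩ := hF
  exact ⟨⟨conj G, conj_mem_holAut h1⟩, fun q => by rw [h2]; rfl⟩

/-- the map `Aut_1(X) → HolAut` -/
def kappa (F : OvershearGroup.Aut1 A) : HolAut A :=
  (exists_holAut (F : C(Pts A, Pts A)) (connectedComponentIn_subset _ _ F.2)).choose

theorem kappa_apply (F : OvershearGroup.Aut1 A) (q : Pt A) :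
    (kappa F : Pt A ≃ₜ Pt A) q = ptEquiv A ((F : C(Pts A, Pts A)) ((ptEquiv A).symm q)) :=
  (exists_holAut (F : C(Pts A, Pts A)) (connectedComponentIn_subset _ _ F.2)).choose_spec q

theorem continuous_kappa : Continuous (kappa (A := A)) := by
  have h1 : Continuous fun F : OvershearGroup.Aut1 A =>
      (((ptEquiv A : C(Pts A, Pt A)).comp (F : C(Pts A, Pts A))).comp
        ((ptEquiv A).symm : C(Pt A, Pts A))) :=
    (ContinuousMap.continuous_precomp _).comp
      ((ContinuousMap.continuous_postcomp _).comp continuous_subtype_val)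
  have h2 : (fun F : OvershearGroup.Aut1 A => HolAut.toCM (kappa F))
      = fun F : OvershearGroup.Aut1 A =>
      (((ptEquiv A : C(Pts A, Pt A)).comp (F : C(Pts A, Pts A))).comp
        ((ptEquiv A).symm : C(Pt A, Pts A))) := by
    ext1 F
    ext1 q
    exact kappa_apply F q
  have h3 : Continuous (HolAut.toCM ∘ kappa (A := A)) := by
    rw [show (HolAut.toCM ∘ kappa (A := A)) = _ from h2]
    exact h1
  exact continuous_induced_rng.2 h3

theorem pathStable_kappa (hx : Algebra.adjoin ℂ (Set.range x) = ⊤) :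
    PathStable hx (kappa (A := A)) := by
  intro F Θ f hf
  -- the path in `C(X, X)`
  let e := ptEquiv A
  let Ht : ℂ → HolAut A := fun t => osAut hx Θ f hf t * kappa F
  let G : ℂ → C(Pts A, Pts A) := fun t =>
    (((e.symm : C(Pt A, Pts A)).comp (HolAut.toCM (Ht t))).comp (e : C(Pts A, Pt A)))
  have hG : Continuous G :=
    (ContinuousMap.continuous_precomp _).comp
      ((ContinuousMap.continuous_postcomp _).comp
        (continuous_toCM.comp (continuous_osAut_mul hx Θ f hf (kappa F))))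
  have hG0 : G 0 = F := by
    ext1 p
    have h1 : G 0 p = e.symm ((Ht 0 : Pt A ≃ₜ Pt A) (e p)) := rfl
    have h2 : Ht 0 = kappa F := by
      change osAut hx Θ f hf 0 * kappa F = kappa F
      rw [osAut_zero, one_mul]
    rw [h1, h2, kappa_apply]
    simp [e]
  have hGmem : ∀ t, G t ∈ OvershearGroup.HolAut A := by
    intro t
    have hh := (Ht t).2
    refine ⟨(e.trans (Ht t : Pt A ≃ₜ Pt A)).trans e.symm, fun a => ⟨?_, ?_⟩, fun p => rfl⟩
    · exact isHolo_comp (hh.1 a)
    · exact isHolo_comp (hh.2 a)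
  have hmem1 : ∀ t, G t ∈ OvershearGroup.Aut1 A := by
    intro t
    have hpre : IsPreconnected (range G) := isPreconnected_range hG
    have hF : (F : C(Pts A, Pts A)) ∈ range G := ⟨0, hG0⟩
    have hsub : range G ⊆ OvershearGroup.HolAut A := by
      rintro _ ⟨s, rfl⟩; exact hGmem s
    have h1 := hpre.subset_connectedComponentIn hF hsub
    have h2 : connectedComponentIn (OvershearGroup.HolAut A) (F : C(Pts A, Pts A))
        = OvershearGroup.Aut1 A := (connectedComponentIn_eq F.2).symm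
    rw [h2] at h1
    exact h1 ⟨t, rfl⟩
  refine ⟨fun t => ⟨G t, hmem1 t⟩, hG.subtype_mk _, Subtype.ext hG0, fun t => ?_⟩
  apply Subtype.ext
  ext1 q
  rw [kappa_apply]
  have h1 : G t (e.symm q) = e.symm ((Ht t : Pt A ≃ₜ Pt A) (e (e.symm q))) := rfl
  change e (G t (e.symm q)) = (Ht t : Pt A ≃ₜ Pt A) q
  rw [h1, Homeomorph.apply_symm_apply, Homeomorph.apply_symm_apply]

/-- The overshear group of an affine variety with the algebraic overshear density property and a
non-zero algebraic vector field is meagre. -/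
theorem overshear_meagre [Algebra.FiniteType ℂ A] [IsReduced A]
    (hdim : ∃ D : Derivation ℂ A A, D ≠ 0)
    (hos : OvershearGroup.AOSDP A) : IsMeagre (OvershearGroup.GosInAut1 A) := by
  obtain ⟨N, x, hx⟩ := exists_generators A
  have hos' : AOSDP A := by
    unfold OvershearGroup.AOSDP at hos
    unfold AOSDP
    rw [← hos]
    congr 1
    ext V
    constructor
    · rintro ⟨Θ, f, hf, rfl⟩; exact ⟨Θ.D, f, Θ.nilp, hf, rfl⟩
    · rintro ⟨D, f, hD, hf, rfl⟩; exact ⟨⟨D, hD⟩, f, hf, rfl⟩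
  have hΘ : ∃ (Θ : LND A) (a : A), Θ.D a ≠ 0 := by
    by_contra hcon
    push Not at hcon
    have h1 : LieSubalgebra.lieSpan ℂ (Derivation ℂ A A)
        {V | ∃ (Θ : LND A) (f : A), Θ.D (Θ.D f) = 0 ∧ V = f • Θ.D} ≤ ⊥ := by
      rw [LieSubalgebra.lieSpan_le]
      rintro _ ⟨Θ, f, _, rfl⟩
      have : Θ.D = 0 := Derivation.ext (hcon Θ)
      rw [this, smul_zero]
      exact zero_mem _
    unfold AOSDP at hos'
    rw [hos', le_bot_iff] at h1
    obtain ⟨D, hD⟩ := hdim
    apply hD
    have : D ∈ (⊤ : LieSubalgebra ℂ (Derivation ℂ A A)) := trivial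
    rw [h1] at this
    exact (LieSubalgebra.mem_bot D).1 this
  obtain ⟨Θ, a, ha⟩ := hΘ
  obtain ⟨p, hp⟩ := exists_pt_ne_zero ha
  have hmain := main hx hos' (p := p) ⟨Θ, a, hp⟩ continuous_kappa (pathStable_kappa hx)
  refine hmain.mono ?_
  rintro F ⟨G, hG, hGF⟩
  obtain ⟨H, hH, hHG⟩ := conj_mem_gos hx hG
  have : kappa F = H := by
    apply Subtype.ext
    ext1 q
    rw [kappa_apply, hHG, conj_apply, ← hGF]
  change kappa F ∈ Gos A
  rw [this]
  exact hH

end Pool.Agent.Overshear
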