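import Pool.Agent.Helper23.Overshear.Tame

/-!
# The ring of entire functions on `ℂ^d`
-/

set_option autoImplicit false

noncomputable section

open Filter Topology Set

namespace Pool.Agent.Overshear

/-- the ring of entire functions on `ℂ^d` -/
def Ent (d : ℕ) : Subalgebra ℂ ((Fin d → ℂ) → ℂ) where
  carrier := {f | AnalyticOnNhd ℂ f univ}
  mul_mem' hf hg := hf.mul hg
  add_mem' hf hg := hf.add hg
  algebraMap_mem' _ := analyticOnNhd_const

namespace Ent

variable {d : ℕ}

instance instCommRingEnt : CommRing (Ent d) := inferInstance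

instance instAlgebraRatEnt : Algebra ℚ (Ent d) := inferInstance

instance instSMulEnt : SMul ℂ (Ent d) := inferInstance

theorem analyticAt (f : Ent d) (z : Fin d → ℂ) : AnalyticAt ℂ (f : (Fin d → ℂ) → ℂ) z :=
  f.2 z (mem_univ z)

theorem differentiable (f : Ent d) : Differentiable ℂ (f : (Fin d → ℂ) → ℂ) :=
  fun z => (Ent.analyticAt f z).differentiableAt

theorem continuous (f : Ent d) : Continuous (f : (Fin d → ℂ) → ℂ) := (Ent.differentiable f).continuous

theorem ext {f g : Ent d} (h : ∀ z, (f : (Fin d → ℂ) → ℂ) z = (g : (Fin d → ℂ) → ℂ) z) : f = g :=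
  Subtype.ext (funext h)

theorem eq_zero_of_mul_eq_zero {f g : Ent d} (h : f * g = 0) : f = 0 ∨ g = 0 := by
  by_cases hf : f = 0
  · exact Or.inl hf
  · right
    have : ∃ z, (f : (Fin d → ℂ) → ℂ) z ≠ 0 := by
      by_contra hcon
      push Not at hcon
      exact hf (Ent.ext hcon)
    obtain ⟨z, hz⟩ := this
    have h1 : ∀ᶠ w in 𝓝 z, (f : (Fin d → ℂ) → ℂ) w ≠ 0 :=
      ((Ent.continuous f).continuousAt).eventually_ne hz
    have h2 : (g : (Fin d → ℂ) → ℂ) =ᶠ[𝓝 z] 0 := by
      filter_upwards [h1] with w hw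
      have h3 : (f : (Fin d → ℂ) → ℂ) w * (g : (Fin d → ℂ) → ℂ) w = 0 := by
        have := congrArg (fun k : Ent d => (k : (Fin d → ℂ) → ℂ) w) h
        simpa using this
      exact (mul_eq_zero.1 h3).resolve_left hw
    have h4 := g.2.eqOn_zero_of_preconnected_of_eventuallyEq_zero isPreconnected_univ (mem_univ z) h2
    exact Ent.ext fun w => h4 (mem_univ w)

instance : NoZeroDivisors (Ent d) := ⟨fun {_ _} h => eq_zero_of_mul_eq_zero h⟩

instance : Nontrivial (Ent d) := ⟨⟨0, 1, fun h => by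
  have := congrArg (fun k : Ent d => (k : (Fin d → ℂ) → ℂ) 0) h
  simp at this⟩⟩

instance : IsDomain (Ent d) := NoZeroDivisors.to_isDomain _

/-- evaluation at a point -/
def evalAt (z : Fin d → ℂ) : Ent d →ₐ[ℂ] ℂ where
  toFun f := (f : (Fin d → ℂ) → ℂ) z
  map_one' := rfl
  map_mul' _ _ := rfl
  map_zero' := rfl
  map_add' _ _ := rfl
  commutes' _ := rfl

theorem evalAt_apply (z : Fin d → ℂ) (f : Ent d) : evalAt z f = (f : (Fin d → ℂ) → ℂ) z := rfl

/-- partial derivative -/
def der (j : Fin d) : Derivation ℂ (Ent d) (Ent d) :=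
  Derivation.mk'
    { toFun := fun f => ⟨fun z => fderiv ℂ (f : (Fin d → ℂ) → ℂ) z (Pi.single j 1), fun z _ =>
        ((ContinuousLinearMap.apply ℂ ℂ (Pi.single j 1 : Fin d → ℂ)).analyticAt _).fun_comp
          (AnalyticAt.fderiv (Ent.analyticAt f z))⟩
      map_add' := fun f g => Ent.ext fun z => by
        have h := fderiv_fun_add (Ent.differentiable f z) (Ent.differentiable g z)
        change fderiv ℂ (fun w => (f : (Fin d → ℂ) → ℂ) w + (g : (Fin d → ℂ) → ℂ) w) z _ = _
        rw [h]; rfl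
      map_smul' := fun c f => Ent.ext fun z => by
        have h := fderiv_fun_const_smul (Ent.differentiable f z) c
        change fderiv ℂ (fun w => c • (f : (Fin d → ℂ) → ℂ) w) z _ = _
        rw [h]; rfl }
    (fun f g => Ent.ext fun z => by
        have h := fderiv_fun_mul (Ent.differentiable f z) (Ent.differentiable g z)
        change fderiv ℂ (fun w => (f : (Fin d → ℂ) → ℂ) w * (g : (Fin d → ℂ) → ℂ) w) z _ = _
        rw [h]
        rfl)

theorem der_apply (j : Fin d) (f : Ent d) (z : Fin d → ℂ) :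
    (der j f : (Fin d → ℂ) → ℂ) z = fderiv ℂ (f : (Fin d → ℂ) → ℂ) z (Pi.single j 1) := rfl

theorem der_comm (i j : Fin d) (f : Ent d) : der i (der j f) = der j (der i f) := by
  refine Ent.ext fun z => ?_
  have h : ∀ v : Fin d → ℂ, fderiv ℂ (fun w => fderiv ℂ (f : (Fin d → ℂ) → ℂ) w v) z
      = (fderiv ℂ (fderiv ℂ (f : (Fin d → ℂ) → ℂ)) z).flip v := by
    intro v
    have h1 : DifferentiableAt ℂ (fderiv ℂ (f : (Fin d → ℂ) → ℂ)) z :=
      (Ent.analyticAt f z).fderiv.differentiableAt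
    ext w
    rw [fderiv_clm_apply h1 (differentiableAt_const v)]
    simp
  have hs : IsSymmSndFDerivAt ℂ (f : (Fin d → ℂ) → ℂ) z :=
    ContDiffAt.isSymmSndFDerivAt (n := 2) (Ent.analyticAt f z).contDiffAt (by simp)
  rw [der_apply, der_apply]
  change fderiv ℂ (fun w => fderiv ℂ (f : (Fin d → ℂ) → ℂ) w (Pi.single j 1)) z (Pi.single i 1)
    = fderiv ℂ (fun w => fderiv ℂ (f : (Fin d → ℂ) → ℂ) w (Pi.single i 1)) z (Pi.single j 1)
  rw [h, h]
  exact hs _ _

/-- the family of partial derivatives -/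
def P (d : ℕ) : CommDer (Fin d) (Ent d) where
  D j := (der j).restrictScalars ℚ
  comm i j f := der_comm i j f

theorem P_D (j : Fin d) (f : Ent d) : (P d).D j f = der j f := rfl

theorem pd_smul (M : Multiset (Fin d)) (c : ℂ) (f : Ent d) :
    (P d).pd M (c • f) = c • (P d).pd M f := by
  induction M using Multiset.induction_on with
  | empty => rfl
  | cons i M ih => rw [CommDer.pd_cons, CommDer.pd_cons, ih, P_D, P_D, Derivation.map_smul]

theorem hasFDerivAt (f : Ent d) (z : Fin d → ℂ) :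
    HasFDerivAt (f : (Fin d → ℂ) → ℂ) (fderiv ℂ (f : (Fin d → ℂ) → ℂ) z) z :=
  (Ent.differentiable f z).hasFDerivAt

theorem fderiv_apply (f : Ent d) (z v : Fin d → ℂ) :
    fderiv ℂ (f : (Fin d → ℂ) → ℂ) z v = ∑ j, v j * (der j f : (Fin d → ℂ) → ℂ) z := by
  conv_lhs => rw [pi_eq_sum_univ v]
  rw [map_sum]
  refine Finset.sum_congr rfl fun j _ => ?_
  rw [map_smul, smul_eq_mul, der_apply]
  congr 2
  ext i
  simp [Pi.single_apply, eq_comm]

/-- derivative along a line -/
theorem hasDerivAt_line (f : Ent d) (z v : Fin d → ℂ) (s : ℂ) :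
    HasDerivAt (fun s : ℂ => (f : (Fin d → ℂ) → ℂ) (z + s • v))
      (∑ j, v j * (der j f : (Fin d → ℂ) → ℂ) (z + s • v)) s := by
  rw [← fderiv_apply]
  have h1 : HasDerivAt (fun s : ℂ => z + s • v) v s := by
    simpa using ((hasDerivAt_id s).smul_const v).const_add z
  exact (hasFDerivAt f (z + s • v)).comp_hasDerivAt s h1

/-- derivative along a coordinate line -/
theorem hasDerivAt_coord (f : Ent d) (z : Fin d → ℂ) (j : Fin d) (s : ℂ) :
    HasDerivAt (fun s : ℂ => (f : (Fin d → ℂ) → ℂ) (z + s • Pi.single j 1))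
      ((der j f : (Fin d → ℂ) → ℂ) (z + s • Pi.single j 1)) s := by
  have := hasDerivAt_line f z (Pi.single j 1) s
  convert! this using 1
  rw [Finset.sum_eq_single j]
  · simp
  · intro i _ hi
    simp [Pi.single_eq_of_ne hi]
  · intro h; exact absurd (Finset.mem_univ _) h

/-- a function whose `j`-th partial derivative vanishes does not depend on the `j`-th coordinate -/
theorem eq_of_der_eq_zero {f : Ent d} {j : Fin d} (h : der j f = 0) (z : Fin d → ℂ) (s : ℂ) :
    (f : (Fin d → ℂ) → ℂ) (z + s • Pi.single j 1) = (f : (Fin d → ℂ) → ℂ) z := by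
  have h1 : ∀ s : ℂ, HasDerivAt (fun s : ℂ => (f : (Fin d → ℂ) → ℂ) (z + s • Pi.single j 1)) 0 s := by
    intro s
    have := hasDerivAt_coord f z j s
    rw [h] at this
    exact this
  have h2 := is_const_of_deriv_eq_zero (fun s => (h1 s).differentiableAt) (fun s => (h1 s).deriv) s 0
  simpa using h2

/-- if two functions agree on the hyperplane `z_i = t`, so do their `j`-th derivatives, `j ≠ i`. -/
theorem der_eq_on_slice {f g : Ent d} {i : Fin d} {t : ℂ}
    (h : ∀ z : Fin d → ℂ, z i = t → (f : (Fin d → ℂ) → ℂ) z = (g : (Fin d → ℂ) → ℂ) z)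
    {j : Fin d} (hij : j ≠ i) :
    ∀ z : Fin d → ℂ, z i = t →
      (der j f : (Fin d → ℂ) → ℂ) z = (der j g : (Fin d → ℂ) → ℂ) z := by
  intro z hz
  have h1 := hasDerivAt_coord f z j 0
  have h2 := hasDerivAt_coord g z j 0
  have h3 : (fun s : ℂ => (f : (Fin d → ℂ) → ℂ) (z + s • Pi.single j 1))
      = fun s : ℂ => (g : (Fin d → ℂ) → ℂ) (z + s • Pi.single j 1) := by
    ext s
    apply h
    simp [hz, Pi.single_eq_of_ne (Ne.symm hij)]
  rw [h3] at h1
  have := h1.unique h2
  simpa using this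

theorem pd_eq_on_slice {f g : Ent d} {i : Fin d} {t : ℂ}
    (h : ∀ z : Fin d → ℂ, z i = t → (f : (Fin d → ℂ) → ℂ) z = (g : (Fin d → ℂ) → ℂ) z)
    {M : Multiset (Fin d)} (hM : i ∉ M) :
    ∀ z : Fin d → ℂ, z i = t →
      ((P d).pd M f : (Fin d → ℂ) → ℂ) z = ((P d).pd M g : (Fin d → ℂ) → ℂ) z := by
  induction M using Multiset.induction_on with
  | empty => exact h
  | cons j M ih =>
    rw [Multiset.mem_cons, not_or] at hM
    rw [CommDer.pd_cons, CommDer.pd_cons]
    exact der_eq_on_slice (ih hM.2) (Ne.symm hM.1)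

/-- Cauchy estimate for one derivative -/
theorem norm_der_le {f : Ent d} {j : Fin d} {z : Fin d → ℂ} {C : ℝ}
    (h : ∀ w : Fin d → ℂ, ‖w - z‖ ≤ 1 → ‖(f : (Fin d → ℂ) → ℂ) w‖ ≤ C) :
    ‖(der j f : (Fin d → ℂ) → ℂ) z‖ ≤ C := by
  have h1 : HasDerivAt (fun s : ℂ => (f : (Fin d → ℂ) → ℂ) (z + s • Pi.single j 1))
      ((der j f : (Fin d → ℂ) → ℂ) z) 0 := by
    have := hasDerivAt_coord f z j 0
    simpa using this
  have h2 : Differentiable ℂ (fun s : ℂ => (f : (Fin d → ℂ) → ℂ) (z + s • Pi.single j 1)) :=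
    fun s => (hasDerivAt_coord f z j s).differentiableAt
  have h3 := Complex.norm_deriv_le_of_forall_mem_sphere_norm_le (c := (0 : ℂ)) (R := 1) (C := C)
    one_pos h2.diffContOnCl (fun s hs => by
      apply h
      have hs' : ‖s‖ = 1 := by simpa using hs
      rw [add_sub_cancel_left, norm_smul, hs', one_mul, Pi.norm_single, norm_one])
  rw [h1.deriv] at h3
  simpa using h3

/-- Cauchy estimate -/
theorem norm_pd_le (M : Multiset (Fin d)) : ∀ {f : Ent d} {z : Fin d → ℂ} {C : ℝ},
    (∀ w : Fin d → ℂ, ‖w - z‖ ≤ M.card → ‖(f : (Fin d → ℂ) → ℂ) w‖ ≤ C) →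
    ‖((P d).pd M f : (Fin d → ℂ) → ℂ) z‖ ≤ C := by
  induction M using Multiset.induction_on with
  | empty => intro f z C h; exact h z (by simp)
  | cons j M ih =>
    intro f z C h
    rw [CommDer.pd_cons, P_D]
    apply norm_der_le
    intro w hw
    apply ih
    intro w' hw'
    apply h
    rw [Multiset.card_cons, Nat.cast_add, Nat.cast_one]
    calc ‖w' - z‖ = ‖(w' - w) + (w - z)‖ := by rw [sub_add_sub_cancel]
      _ ≤ ‖w' - w‖ + ‖w - z‖ := norm_add_le _ _
      _ ≤ M.card + 1 := add_le_add hw' hw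

/-- coordinate function -/
def coord (j : Fin d) : Ent d :=
  ⟨fun z => z j, fun z _ => (ContinuousLinearMap.proj (R := ℂ) (φ := fun _ : Fin d => ℂ) j).analyticAt z⟩

theorem coord_apply (j : Fin d) (z : Fin d → ℂ) : (coord j : (Fin d → ℂ) → ℂ) z = z j := rfl

theorem der_coord (i j : Fin d) : der i (coord j) = if i = j then 1 else 0 := by
  refine Ent.ext fun z => ?_
  rw [der_apply]
  have : fderiv ℂ (coord j : (Fin d → ℂ) → ℂ) z
      = ContinuousLinearMap.proj (R := ℂ) (φ := fun _ : Fin d => ℂ) j :=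
    (ContinuousLinearMap.proj (R := ℂ) (φ := fun _ : Fin d => ℂ) j).fderiv
  rw [this]
  simp only [ContinuousLinearMap.proj_apply]
  split_ifs with h
  · subst h; simp
  · simp [Pi.single_eq_of_ne (Ne.symm h)]

/-- composition with an entire function of one variable -/
def comp1 (E : ℂ → ℂ) (hE : AnalyticOnNhd ℂ E univ) (f : Ent d) : Ent d :=
  ⟨fun z => E ((f : (Fin d → ℂ) → ℂ) z), fun z _ =>
    AnalyticAt.fun_comp (hE _ (mem_univ _)) (Ent.analyticAt f z)⟩

theorem comp1_apply (E : ℂ → ℂ) (hE : AnalyticOnNhd ℂ E univ) (f : Ent d) (z : Fin d → ℂ) :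
    (comp1 E hE f : (Fin d → ℂ) → ℂ) z = E ((f : (Fin d → ℂ) → ℂ) z) := rfl

/-- exponentials -/
def expl (l : Fin d → ℂ) : Ent d :=
  comp1 Complex.exp analyticOnNhd_cexp (∑ j, l j • coord j)

theorem expl_apply (l z : Fin d → ℂ) :
    (expl l : (Fin d → ℂ) → ℂ) z = Complex.exp (∑ j, l j * z j) := by
  rw [expl, comp1_apply]
  congr 1
  have : ((∑ j, l j • coord j : Ent d) : (Fin d → ℂ) → ℂ) z = evalAt z (∑ j, l j • coord j) := rfl
  rw [this, map_sum]
  rfl

theorem der_expl (l : Fin d → ℂ) (j : Fin d) : der j (expl l) = l j • expl l := by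
  refine Ent.ext fun z => ?_
  have h1 := hasDerivAt_coord (expl l) z j 0
  have h2 : HasDerivAt (fun s : ℂ => (expl l : (Fin d → ℂ) → ℂ) (z + s • Pi.single j 1))
      (l j * Complex.exp (∑ i, l i * z i)) 0 := by
    have h3 : (fun s : ℂ => (expl l : (Fin d → ℂ) → ℂ) (z + s • Pi.single j 1))
        = fun s : ℂ => Complex.exp ((∑ i, l i * z i) + l j * s) := by
      ext s
      rw [expl_apply]
      congr 1
      simp only [Pi.add_apply, Pi.smul_apply, smul_eq_mul, mul_add, Finset.sum_add_distrib]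
      congr 1
      rw [Finset.sum_eq_single j]
      · simp
      · intro i _ hi
        simp [Pi.single_eq_of_ne hi]
      · intro h; exact absurd (Finset.mem_univ _) h
    rw [h3]
    have h4 : HasDerivAt (fun s : ℂ => (∑ i, l i * z i) + l j * s) (l j) 0 := by
      simpa using ((hasDerivAt_id (0 : ℂ)).const_mul (l j)).const_add (∑ i, l i * z i)
    have h5 := h4.cexp
    simpa [mul_comm] using h5
  have h6 := h1.unique h2
  have h7 : (z + (0 : ℂ) • Pi.single j 1 : Fin d → ℂ) = z := by simp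
  rw [h7] at h6
  rw [h6]
  change _ = l j * (expl l : (Fin d → ℂ) → ℂ) z
  rw [expl_apply]

theorem pd_expl (l : Fin d → ℂ) (M : Multiset (Fin d)) :
    (P d).pd M (expl l) = (M.map l).prod • expl l := by
  induction M using Multiset.induction_on with
  | empty => simp
  | cons j M ih =>
    rw [CommDer.pd_cons, ih, P_D, Derivation.map_smul, der_expl, Multiset.map_cons,
      Multiset.prod_cons, smul_smul, mul_comm]

end Ent

end Pool.Agent.Overshear
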