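import Pool.Agent.Helper23.Overshear.Surj

/-!
# The overshear group is meagre
-/

set_option autoImplicit false

noncomputable section

open Filter Topology Set

namespace Pool.Agent.Overshear

universe u

variable {R : Type u} [CommRing R] [Algebra ℂ R] {N : ℕ} {x : Fin N → R} {d : ℕ}

theorem hat_rename (J : Finset (Fin d)) (V : Derivation ℂ R R) (b : R)
    (Q : MvPolynomial (Multiset J) ℂ) :
    hat J V (MvPolynomial.rename (fun M : Multiset J => (M, b)) Q)
      = ∑ M ∈ Q.vars, MvPolynomial.rename (fun M : Multiset J => (M, b))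
          (MvPolynomial.pderiv M Q) * MvPolynomial.X (M, V b) := by
  classical
  set ι : Multiset J → Multiset J × R := fun M => (M, b) with hι
  have hinj : Function.Injective ι := fun M M' h => congrArg Prod.fst h
  let D₂ : Derivation ℂ (MvPolynomial (Multiset J × R) ℂ) (MvPolynomial (Multiset J × R) ℂ) :=
    ∑ M ∈ Q.vars, (MvPolynomial.X (M, V b) : MvPolynomial (Multiset J × R) ℂ) •
      MvPolynomial.pderiv (ι M)
  have hD₂ : ∀ P, D₂ P = ∑ M ∈ Q.vars, MvPolynomial.X (M, V b) * MvPolynomial.pderiv (ι M) P := by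
    intro P
    have e1 : (Derivation.coeFnAddMonoidHom D₂ : _ → _) P = ∑ M ∈ Q.vars,
        (Derivation.coeFnAddMonoidHom ((MvPolynomial.X (M, V b) :
          MvPolynomial (Multiset J × R) ℂ) • MvPolynomial.pderiv (R := ℂ) (ι M)) : _ → _) P := by
      simp only [D₂]
      rw [map_sum, Finset.sum_apply]
    exact e1
  have h1 : hat J V (MvPolynomial.rename ι Q) = D₂ (MvPolynomial.rename ι Q) := by
    apply MvPolynomial.derivation_eq_of_forall_mem_vars
    intro q hq
    have hq' := MvPolynomial.vars_rename ι Q hq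
    obtain ⟨M, hM, rfl⟩ := Finset.mem_image.1 hq'
    rw [hat_X, hD₂, Finset.sum_eq_single M]
    · rw [MvPolynomial.pderiv_X_self, mul_one]
    · intro M' _ hM'
      rw [MvPolynomial.pderiv_X_of_ne, mul_zero]
      intro h; exact hM' (hinj h).symm
    · intro h; exact absurd hM h
  rw [h1, hD₂]
  refine Finset.sum_congr rfl fun M _ => ?_
  rw [MvPolynomial.pderiv_rename hinj, mul_comm]

/-- a polynomial relation between the jets of `x_l ∘ F ∘ ψ` cannot hold on an open set -/
theorem poly_zero (hx : Algebra.adjoin ℂ (Set.range x) = ⊤) (hX : AOSDP R)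
    {ψ : R →ₐ[ℂ] Ent d} {J : Finset (Fin d)} {z₀ : Fin d → ℂ} (hdep : DependsOn ψ J)
    {i : Fin d} (hi : i ∉ J) (himm : ImmAt x ψ J z₀) {𝒜 : Type*} [TopologicalSpace 𝒜]
    {κ : 𝒜 → HolAut R} (hκ : PathStable hx κ) {U : Set 𝒜} (hU : IsOpen U)
    (hUne : U.Nonempty) (V₀ : Derivation ℂ R R) (l : Fin N)
    (hV₀ : ∀ F ∈ U, (κ F : Pt R ≃ₜ Pt R) (ptOf ψ z₀) (V₀ (x l)) ≠ 0) (n : ℕ) :
    ∀ Q : MvPolynomial (Multiset J) ℂ, Q.totalDegree ≤ n →
      (∀ F ∈ U, MvPolynomial.aeval (fun M => jet ψ J z₀ (κ F) M (x l)) Q = 0) →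
      Q = 0 := by
  classical
  induction n with
  | zero =>
    intro Q hQ h
    have h1 := MvPolynomial.totalDegree_eq_zero_iff_eq_C.1 (Nat.le_zero.1 hQ)
    obtain ⟨F, hF⟩ := hUne
    have h2 := h F hF
    rw [h1, MvPolynomial.aeval_C] at h2
    have h3 : MvPolynomial.coeff 0 Q = 0 := h2
    rw [h1, h3, MvPolynomial.C_0]
  | succ n ih =>
    intro Q hQ h
    have hpd : ∀ M, MvPolynomial.pderiv M Q = 0 := by
      intro M
      apply ih
      · -- degree drops
        rw [MvPolynomial.totalDegree]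
        refine Finset.sup_le fun m hm => ?_
        have h1 : MvPolynomial.coeff m (MvPolynomial.pderiv M Q) ≠ 0 :=
          MvPolynomial.mem_support_iff.1 hm
        rw [MvPolynomial.coeff_pderiv] at h1
        have h2 : m + Finsupp.single M 1 ∈ Q.support :=
          MvPolynomial.mem_support_iff.2 (left_ne_zero_of_mul h1)
        have h3 := (MvPolynomial.le_totalDegree h2).trans hQ
        rw [Finsupp.sum_add_index' (fun _ => rfl) (fun _ _ _ => rfl),
          Finsupp.sum_single_index rfl] at h3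
        omega
      · intro F hF
        by_cases hM : M ∈ Q.vars
        · set χ := push (κ F) ψ with hχ
          let c : Multiset J → ℂ := fun M =>
            MvPolynomial.aeval (fun M => jet ψ J z₀ (κ F) M (x l))
              (MvPolynomial.pderiv M Q)
          have hgz : (χ (V₀ (x l)) : (Fin d → ℂ) → ℂ) z₀ ≠ 0 := hV₀ F hF
          refine coeff_eq_zero (ImmAt.push hx himm (κ F)) hgz Q.vars c ?_ M hM
          intro a
          have h1 : ∀ G ∈ U, evJ ψ J z₀ (κ G)
              (MvPolynomial.rename (fun M : Multiset J => (M, x l)) Q) = 0 := by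
            intro G hG
            rw [evJ, MvPolynomial.aeval_rename]
            exact h G hG
          have h2 := hat_mem hx hX hdep hi hκ hU h1 (a • V₀) F hF
          rw [hat_rename, map_sum] at h2
          rw [← h2]
          refine Finset.sum_congr rfl fun M' _ => ?_
          rw [map_mul, evJ_X]
          congr 1
          · rw [evJ, MvPolynomial.aeval_rename]
            rfl
          · unfold jet
            rw [Derivation.smul_apply, smul_eq_mul, map_mul]
        · rw [MvPolynomial.pderiv_eq_zero_of_notMem_vars hM, map_zero]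
    have hC : Q = MvPolynomial.C (MvPolynomial.coeff 0 Q) := by
      ext m
      rw [MvPolynomial.coeff_C]
      split_ifs with hm
      · rw [hm]
      · obtain ⟨M, hM⟩ : ∃ M, m M ≠ 0 := by
          by_contra hcon
          push Not at hcon
          exact hm (Finsupp.ext fun M => (hcon M).symm)
        obtain ⟨m', rfl⟩ : ∃ m', m = m' + Finsupp.single M 1 :=
          ⟨m - Finsupp.single M 1, by
            ext M'
            by_cases hMM : M = M'
            · subst hMM
              simp only [Finsupp.add_apply, Finsupp.tsub_apply, Finsupp.single_eq_same]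
              omega
            · simp [Finsupp.single_eq_of_ne (Ne.symm hMM)]⟩
        have h1 := congrArg (MvPolynomial.coeff m') (hpd M)
        rw [MvPolynomial.coeff_pderiv, MvPolynomial.coeff_zero] at h1
        have h2 : ((m' M : ℂ) + 1) ≠ 0 := by exact_mod_cast Nat.succ_ne_zero (m' M)
        exact (mul_eq_zero.1 h1).resolve_right h2
    obtain ⟨F, hF⟩ := hUne
    have h2 := h F hF
    rw [hC, MvPolynomial.aeval_C] at h2
    have h3 : MvPolynomial.coeff 0 Q = 0 := h2
    rw [hC, h3, MvPolynomial.C_0]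

theorem continuous_aeval_jet (ψ : R →ₐ[ℂ] Ent d) (J : Finset (Fin d)) (z₀ : Fin d → ℂ) (b : R)
    (Q : MvPolynomial (Multiset J) ℚ) :
    Continuous (fun F : HolAut R =>
      (MvPolynomial.aeval (fun M => jet ψ J z₀ F M b) Q : ℂ)) := by
  induction Q using MvPolynomial.induction_on with
  | C c => simp only [MvPolynomial.aeval_C]; exact continuous_const
  | add p q hp hq => simp only [map_add]; exact hp.add hq
  | mul_X p M hp =>
    simp only [map_mul, MvPolynomial.aeval_X]
    exact hp.mul (continuous_jet ψ z₀ _ b)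

theorem countable_mvPolynomial (σ : Type*) [Countable σ] : Countable (MvPolynomial σ ℚ) := by
  have h : Cardinal.mk (MvPolynomial σ ℚ) ≤ Cardinal.aleph0 := by
    have h1 := MvPolynomial.cardinalMk_le_max_lift (σ := σ) (R := ℚ)
    refine h1.trans ?_
    simp
  exact Cardinal.mk_le_aleph0_iff.1 h

theorem main (hx : Algebra.adjoin ℂ (Set.range x) = ⊤) (hX : AOSDP R) {p : Pt R}
    (hp : ∃ (Θ : LND R) (a : R), p (Θ.D a) ≠ 0) {𝒜 : Type*} [TopologicalSpace 𝒜]
    {κ : 𝒜 → HolAut R} (hκc : Continuous κ) (hκ : PathStable hx κ) :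
    IsMeagre {F : 𝒜 | κ F ∈ Gos R} := by
  classical
  obtain ⟨ψ, J, z₀, hgood, hJ, hmax⟩ := exists_maximal hx hp
  obtain ⟨i, hi⟩ : ∃ i, i ∉ J := by
    by_contra hcon
    push Not at hcon
    have h1 : J = Finset.univ := Finset.eq_univ_iff_forall.2 hcon
    have h2 := hgood.imm.card_le
    rw [h1, Finset.card_univ, Fintype.card_fin] at h2
    omega
  let Z : (Fin N → MvPolynomial (Multiset J) ℚ) → Set 𝒜 := fun Q =>
    {F | (∀ l, (MvPolynomial.aeval (fun M => jet ψ J z₀ (κ F) M (x l)) (Q l) : ℂ) = 0) ∧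
      ∃ (Θ : LND R) (a : R), (κ F : Pt R ≃ₜ Pt R) (ptOf ψ z₀) (Θ.D a) ≠ 0}
  rw [isMeagre_iff_countable_union_isNowhereDense]
  refine ⟨Z '' {Q | ∀ l, Q l ≠ 0}, ?_, ?_, ?_⟩
  · rintro _ ⟨Q, hQ, rfl⟩
    rw [IsNowhereDense]
    by_contra hne
    obtain ⟨F₁, hF₁⟩ := Set.nonempty_iff_ne_empty.2 hne
    have hclosed : IsClosed {F : 𝒜 | ∀ l,
        (MvPolynomial.aeval (fun M => jet ψ J z₀ (κ F) M (x l)) (Q l) : ℂ) = 0} := by
      rw [Set.ofPred_forall]
      refine isClosed_iInter fun l => ?_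
      exact isClosed_eq ((continuous_aeval_jet ψ J z₀ (x l) (Q l)).comp hκc)
        continuous_const
    have hsub : closure (Z Q) ⊆ {F : 𝒜 | ∀ l,
        (MvPolynomial.aeval (fun M => jet ψ J z₀ (κ F) M (x l)) (Q l) : ℂ) = 0} :=
      closure_minimal (fun F hF => hF.1) hclosed
    obtain ⟨F₀, hF₀U, hF₀Z⟩ := mem_closure_iff.1 (interior_subset hF₁) _ isOpen_interior hF₁
    obtain ⟨Θ, a, ha⟩ := hF₀Z.2
    obtain ⟨l, hl⟩ : ∃ l, (κ F₀ : Pt R ≃ₜ Pt R) (ptOf ψ z₀) (Θ.D (x l)) ≠ 0 := by
      by_contra hcon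
      push Not at hcon
      exact ha (eval_D_eq_zero hx Θ.D hcon a)
    let U : Set 𝒜 := interior (closure (Z Q)) ∩
      {F | (κ F : Pt R ≃ₜ Pt R) (ptOf ψ z₀) (Θ.D (x l)) ≠ 0}
    have hU : IsOpen U := by
      refine isOpen_interior.inter ?_
      exact isOpen_ne_fun ((continuous_evalPt (ptOf ψ z₀) (Θ.D (x l))).comp hκc)
        continuous_const
    have hUne : U.Nonempty := ⟨F₀, hF₀U, hl⟩
    have h0 := poly_zero hx hX hgood.dep hi hgood.imm hκ hU hUne Θ.D l (fun F hF => hF.2)
      ((MvPolynomial.map (algebraMap ℚ ℂ) (Q l)).totalDegree)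
      (MvPolynomial.map (algebraMap ℚ ℂ) (Q l)) le_rfl (fun F hF => by
        rw [MvPolynomial.aeval_map_algebraMap]
        exact hsub (interior_subset hF.1) l)
    apply hQ l
    apply MvPolynomial.map_injective (algebraMap ℚ ℂ) (algebraMap ℚ ℂ).injective
    rw [h0, map_zero]
  · have h1 : Countable (MvPolynomial (Multiset J) ℚ) := countable_mvPolynomial _
    exact (Set.to_countable _).image _
  · intro F hF
    have htame := tame_push hx hmax hF ψ hgood.tame hgood.dep ⟨z₀, hgood.imm⟩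
    choose Q hQ0 hQ using fun l => Tame.exists_polynomial hJ htame
      (Set.mem_range_self (f := fun l => push (κ F) ψ (x l)) l)
    refine ⟨Z Q, ⟨Q, hQ0, rfl⟩, ?_, lnd_push hx hF _ hgood.lnd⟩
    intro l
    have h1 := congrArg (fun f : Ent (N + 1) => (f : (Fin (N + 1) → ℂ) → ℂ) z₀) (hQ l)
    let e : Ent (N + 1) →ₐ[ℚ] ℂ := RingHom.toRatAlgHom (Ent.evalAt z₀ : Ent (N + 1) →ₐ[ℂ] ℂ)
    have h2 := MvPolynomial.comp_aeval_apply
      (fun M : Multiset J => (Ent.P (N + 1)).pd (M.map Subtype.val) (push (κ F) ψ (x l)))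
      e (Q l)
    have h3 : e (MvPolynomial.aeval (fun M : Multiset J =>
      (Ent.P (N + 1)).pd (M.map Subtype.val) (push (κ F) ψ (x l))) (Q l)) = 0 := h1
    rw [h2] at h3
    exact h3

/-- Nullstellensatz: a non-zero element of a reduced finitely generated algebra is non-zero at
some point -/
theorem exists_pt_ne_zero [Algebra.FiniteType ℂ R] [IsReduced R] {b : R} (hb : b ≠ 0) :
    ∃ p : Pt R, p b ≠ 0 := by
  have : IsJacobsonRing R := isJacobsonRing_of_finiteType (A := ℂ)
  have h1 : (⊥ : Ideal R).IsRadical := Ideal.isRadical_bot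
  have h2 : (⊥ : Ideal R).jacobson = ⊥ := IsJacobsonRing.out' _ h1
  have h3 : b ∉ (⊥ : Ideal R).jacobson := by rw [h2]; exact hb
  rw [Ideal.jacobson, Ideal.mem_sInf] at h3
  push Not at h3
  obtain ⟨m, ⟨_, hm⟩, hbm⟩ := h3
  have := hm
  let := Ideal.Quotient.field m
  have : Algebra.FiniteType ℂ (R ⧸ m) :=
    Algebra.FiniteType.of_surjective (Ideal.Quotient.mkₐ ℂ m) (Ideal.Quotient.mkₐ_surjective ℂ m)
  have : Module.Finite ℂ (R ⧸ m) := finite_of_finite_type_of_isJacobsonRing ℂ (R ⧸ m)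
  have hbij : Function.Bijective (algebraMap ℂ (R ⧸ m)) :=
    IsAlgClosed.algebraMap_bijective_of_isIntegral
  let e : ℂ ≃ₐ[ℂ] (R ⧸ m) := AlgEquiv.ofBijective (Algebra.ofId ℂ (R ⧸ m)) hbij
  refine ⟨(e.symm : (R ⧸ m) →ₐ[ℂ] ℂ).comp (Ideal.Quotient.mkₐ ℂ m), ?_⟩
  change e.symm (Ideal.Quotient.mk m b) ≠ 0
  rw [Ne, EmbeddingLike.map_eq_zero_iff, Ideal.Quotient.eq_zero_iff_mem]
  exact hbm

end Pool.Agent.Overshear
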