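import Pool.Agent.Helper23.Overshear.Embed
import Pool.Agent.Helper23.Overshear.Dim

/-!
# Infinite varieties have derivations; the final equivalence
-/

set_option autoImplicit false

noncomputable section

open Filter Topology Set

namespace Pool.Agent.Overshear

open Pool.Agent.OvershearGroup (ev)

universe u

variable {A : Type u} [CommRing A] [Algebra ℂ A]

/-- an infinite variety has a non-zero algebraic vector field -/
theorem exists_derivation_ne_zero [Algebra.FiniteType ℂ A] [IsReduced A] (hX : Infinite (Pts A)) :
    ∃ D : Derivation ℂ A A, D ≠ 0 := by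
  by_contra hcon
  push Not at hcon
  have hfin := finite_isMaximal hcon
  have h1 : Set.Finite (Set.univ : Set (Pt A)) := by
    refine Set.Finite.of_injOn (f := fun p : Pt A => RingHom.ker (p : A →ₐ[ℂ] ℂ))
      (t := {M : Ideal A | M.IsPrime}) ?_ ?_ hfin
    · intro p _
      exact RingHom.ker_isPrime _
    · intro p _ q _ hpq
      apply Pt.ext
      intro a
      have h2 : a - algebraMap ℂ A (p a) ∈ RingHom.ker (p : A →ₐ[ℂ] ℂ) := by
        rw [RingHom.mem_ker]
        change p (a - algebraMap ℂ A (p a)) = 0
        rw [map_sub, AlgHomClass.commutes p (p a)]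
        exact sub_self _
      have hpq' : RingHom.ker (p : A →ₐ[ℂ] ℂ) = RingHom.ker (q : A →ₐ[ℂ] ℂ) := hpq
      rw [hpq', RingHom.mem_ker] at h2
      have h3 : q (a - algebraMap ℂ A (p a)) = 0 := h2
      rw [map_sub, AlgHomClass.commutes q (p a)] at h3
      exact (sub_eq_zero.1 h3).symm
  have h2 : Finite (Pt A) := Set.finite_univ_iff.1 h1
  have h3 : Finite (Pts A) := Finite.of_equiv _ (ptEquiv A).symm.toEquiv
  exact not_finite (Pts A)

/-- for finite `X` the group is not meagre (everything is trivial) -/
theorem not_isMeagre_of_finite [Finite (Pts A)] :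
    ¬ IsMeagre (OvershearGroup.GosInAut1 A) := by
  have hfin : Finite C(Pts A, Pts A) := Finite.of_injective
    (fun F : C(Pts A, Pts A) => (F : Pts A → Pts A)) DFunLike.coe_injective
  have hinj : Function.Injective (fun (p : Pts A) (a : A) => ev a p) := fun p q h =>
    AlgHom.ext fun a => congrFun h a
  have hcont : Continuous (fun (p : Pts A) (a : A) => ev a p) := continuous_pi fun a =>
    continuous_ev a
  have hT2 : T2Space (Pts A) := T2Space.of_injective_continuous hinj hcont
  have hdisc : DiscreteTopology C(Pts A, Pts A) := inferInstance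
  have hid : ContinuousMap.id (Pts A) ∈ OvershearGroup.HolAut A := by
    have hh : ∀ a : A, OvershearGroup.IsHolo fun p : Pts A => ev a p := fun a p =>
      ⟨1, fun _ => a, fun z => z 0,
        (ContinuousLinearMap.proj (R := ℂ) (φ := fun _ : Fin 1 => ℂ) 0).analyticAt _,
        Eventually.of_forall fun q => rfl⟩
    exact ⟨Homeomorph.refl (Pts A), fun a => ⟨hh a, hh a⟩, fun p => rfl⟩
  have hmem : ContinuousMap.id (Pts A) ∈ OvershearGroup.Aut1 A := mem_connectedComponentIn hid
  have hcomp : (OvershearGroup.Aut1 A).Subsingleton :=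
    isPreconnected_connectedComponentIn.subsingleton
  have huniv : OvershearGroup.GosInAut1 A = Set.univ := by
    ext F
    simp only [Set.mem_univ, iff_true]
    exact ⟨1, one_mem _, fun p => (DFunLike.congr_fun (hcomp hmem F.2) p).symm⟩
  rw [huniv]
  have : Nonempty (OvershearGroup.Aut1 A) := ⟨⟨_, hmem⟩⟩
  exact not_isMeagre_of_isOpen isOpen_univ Set.univ_nonempty

/-- **Main theorem** -/
theorem isMeagre_iff (A : Type u) [CommRing A] [Algebra ℂ A] [Algebra.FiniteType ℂ A] [IsReduced A]
    (hos : OvershearGroup.AOSDP A) :
    IsMeagre (OvershearGroup.GosInAut1 A) ↔ Infinite (Pts A) := by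
  constructor
  · intro h
    by_contra hfin
    rw [not_infinite_iff_finite] at hfin
    exact not_isMeagre_of_finite h
  · intro h
    exact overshear_meagre (exists_derivation_ne_zero h) hos

end Pool.Agent.Overshear
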