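import Pool.Agent.Helper23.Overshear.Auts

/-!
# The Lie algebra argument
-/

set_option autoImplicit false

noncomputable section

open Filter Topology Set

namespace Pool.Agent.Overshear

universe u

variable {R : Type u} [CommRing R] [Algebra ℂ R] {N : ℕ} {x : Fin N → R} {d : ℕ}

/-- the jet coordinates `∂^M (a ∘ F ∘ ψ)(z₀)` -/
def jet (ψ : R →ₐ[ℂ] Ent d) (J : Finset (Fin d)) (z₀ : Fin d → ℂ) (F : HolAut R)
    (M : Multiset J) (a : R) : ℂ :=
  ((Ent.P d).pd (M.map Subtype.val) (push F ψ a) : (Fin d → ℂ) → ℂ) z₀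

section jets

variable (ψ : R →ₐ[ℂ] Ent d) (J : Finset (Fin d)) (z₀ : Fin d → ℂ)

theorem jet_add (F : HolAut R) (M : Multiset J) (a b : R) :
    jet ψ J z₀ F M (a + b) = jet ψ J z₀ F M a + jet ψ J z₀ F M b := by
  unfold jet
  rw [map_add, CommDer.pd_add]; rfl

theorem jet_sub (F : HolAut R) (M : Multiset J) (a b : R) :
    jet ψ J z₀ F M (a - b) = jet ψ J z₀ F M a - jet ψ J z₀ F M b := by
  unfold jet
  rw [map_sub, CommDer.pd_sub]; rfl

theorem jet_smul (F : HolAut R) (M : Multiset J) (c : ℂ) (a : R) :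
    jet ψ J z₀ F M (c • a) = c * jet ψ J z₀ F M a := by
  unfold jet
  rw [map_smul, Ent.pd_smul]; rfl

/-- evaluation of a polynomial in jet coordinates at an automorphism -/
def evJ (F : HolAut R) : MvPolynomial (Multiset J × R) ℂ →ₐ[ℂ] ℂ :=
  MvPolynomial.aeval (fun q => jet ψ J z₀ F q.1 q.2)

/-- the derivation of the polynomial ring in jet coordinates induced by a vector field -/
def hat (J : Finset (Fin d)) (V : Derivation ℂ R R) :
    Derivation ℂ (MvPolynomial (Multiset J × R) ℂ) (MvPolynomial (Multiset J × R) ℂ) :=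
  MvPolynomial.mkDerivation ℂ (fun q => MvPolynomial.X (q.1, V q.2))

theorem hat_X (V : Derivation ℂ R R) (q : Multiset J × R) :
    hat J V (MvPolynomial.X q) = MvPolynomial.X (q.1, V q.2) :=
  MvPolynomial.mkDerivation_X _ _ _

theorem evJ_X (F : HolAut R) (q : Multiset J × R) :
    evJ ψ J z₀ F (MvPolynomial.X q) = jet ψ J z₀ F q.1 q.2 :=
  MvPolynomial.aeval_X _ _

theorem evJ_hat_add (F : HolAut R) (V W : Derivation ℂ R R)
    (s : MvPolynomial (Multiset J × R) ℂ) :
    evJ ψ J z₀ F (hat J (V + W) s) = evJ ψ J z₀ F (hat J V s) + evJ ψ J z₀ F (hat J W s) := by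
  induction s using MvPolynomial.induction_on with
  | C c => simp [MvPolynomial.derivation_C]
  | add p q hp hq => simp only [map_add, hp, hq]; ring
  | mul_X p q hp =>
    simp only [Derivation.leibniz, hat_X, smul_eq_mul, map_add, map_mul, evJ_X, hp,
      Derivation.add_apply, jet_add]
    ring

theorem evJ_hat_smul (F : HolAut R) (c : ℂ) (V : Derivation ℂ R R)
    (s : MvPolynomial (Multiset J × R) ℂ) :
    evJ ψ J z₀ F (hat J (c • V) s) = c * evJ ψ J z₀ F (hat J V s) := by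
  induction s using MvPolynomial.induction_on with
  | C c => simp [MvPolynomial.derivation_C]
  | add p q hp hq => simp only [map_add, hp, hq]; ring
  | mul_X p q hp =>
    simp only [Derivation.leibniz, hat_X, smul_eq_mul, map_add, map_mul, evJ_X, hp,
      Derivation.smul_apply, jet_smul]
    ring

theorem evJ_hat_lie (F : HolAut R) (V W : Derivation ℂ R R)
    (s : MvPolynomial (Multiset J × R) ℂ) :
    evJ ψ J z₀ F (hat J ⁅V, W⁆ s)
      = evJ ψ J z₀ F (hat J V (hat J W s)) - evJ ψ J z₀ F (hat J W (hat J V s)) := by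
  induction s using MvPolynomial.induction_on with
  | C c => simp [MvPolynomial.derivation_C]
  | add p q hp hq => simp only [map_add, hp, hq]; ring
  | mul_X p q hp =>
    simp only [Derivation.leibniz, hat_X, smul_eq_mul, map_add, map_mul, evJ_X, hp,
      Derivation.commutator_apply, jet_sub]
    ring

variable {ψ J z₀}

/-- derivative of jets along the flow of an algebraic overshear field -/
theorem hasDerivAt_jet (hx : Algebra.adjoin ℂ (Set.range x) = ⊤) (hdep : DependsOn ψ J)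
    {i : Fin d} (hi : i ∉ J) (Θ : LND R) (f : R) (hf : Θ.D (Θ.D f) = 0) (F : HolAut R)
    (M : Multiset J) (a : R) :
    HasDerivAt (fun t : ℂ => jet ψ J z₀ (osAut hx Θ f hf t * F) M a)
      (jet ψ J z₀ F M (f * Θ.D a)) 0 := by
  set χ := push F ψ with hχ
  have hχdep : DependsOn χ J := hdep.push F
  have hiM : i ∉ M.map Subtype.val := by
    intro h
    obtain ⟨j, _, hj⟩ := Multiset.mem_map.1 h
    exact hi (hj ▸ j.2)
  -- the parameter
  let c : Ent d := Ent.coord i - cst (z₀ i)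
  let T : Ent d := c * χ f * Ent.comp1 Efun Efun_analytic (c * χ (Θ.D f))
  let χ' : R →ₐ[ℂ] Ent d := Θ.expHom χ T
  have hT : ∀ z : Fin d → ℂ, (T : (Fin d → ℂ) → ℂ) z
      = (z i - z₀ i) * ptOf χ z f * Efun ((z i - z₀ i) * ptOf χ z (Θ.D f)) := fun z => rfl
  -- on the slice `z_i = z₀_i + t`
  have hslice : ∀ (t : ℂ) (z : Fin d → ℂ), z i = z₀ i + t →
      (push (osAut hx Θ f hf t * F) ψ a : (Fin d → ℂ) → ℂ) z = (χ' a : (Fin d → ℂ) → ℂ) z := by
    intro t z hz
    have h1 : ptOf (push (osAut hx Θ f hf t * F) ψ) z = ptOf χ' z := by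
      rw [push_mul, ptOf_push, osAut_apply, expHom_evalAt, hT, hz, add_sub_cancel_left]
      rfl
    exact congrArg (fun p : Pt R => p a) h1
  have hjet : ∀ t : ℂ, jet ψ J z₀ (osAut hx Θ f hf t * F) M a
      = ((Ent.P d).pd (M.map Subtype.val) (χ' a) : (Fin d → ℂ) → ℂ)
        (z₀ + t • Pi.single i 1) := by
    intro t
    have h1 := Ent.pd_eq_on_slice (hslice t) hiM (z₀ + t • Pi.single i 1) (by simp)
    rw [← h1]
    have h2 : Ent.der i ((Ent.P d).pd (M.map Subtype.val) (push (osAut hx Θ f hf t * F) ψ a))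
        = 0 := by
      have h3 := (Ent.P d).pd_D (M.map Subtype.val) i (push (osAut hx Θ f hf t * F) ψ a)
      have h4 : (Ent.P d).D i (push (osAut hx Θ f hf t * F) ψ a) = 0 := hdep.push _ i hi a
      rw [h4, CommDer.pd_map_zero] at h3
      exact h3.symm
    exact (Ent.eq_of_der_eq_zero h2 z₀ t).symm
  have hfun : (fun t : ℂ => jet ψ J z₀ (osAut hx Θ f hf t * F) M a)
      = fun t : ℂ => ((Ent.P d).pd (M.map Subtype.val) (χ' a) : (Fin d → ℂ) → ℂ)
        (z₀ + t • Pi.single i 1) := funext hjet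
  rw [hfun]
  have h1 := Ent.hasDerivAt_coord ((Ent.P d).pd (M.map Subtype.val) (χ' a)) z₀ i 0
  convert! h1 using 1
  rw [zero_smul, add_zero]
  have h2 := (Ent.P d).pd_D (M.map Subtype.val) i (χ' a)
  rw [Ent.P_D, Ent.P_D] at h2
  rw [← h2]
  refine Ent.pd_eq_on_slice (i := i) (t := z₀ i) ?_ hiM z₀ rfl
  intro z hz
  -- derivative of `χ' a` in direction `i`
  have h3 := Ent.hasDerivAt_coord (χ' a) z i 0
  have hTz : ∀ s : ℂ, (T : (Fin d → ℂ) → ℂ) (z + s • Pi.single i 1)
      = ptOf χ z f * (s * Efun (ptOf χ z (Θ.D f) * s)) := by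
    intro s
    rw [hT, ptOf_eq_of_dependsOn hχdep hi]
    have : (z + s • Pi.single i 1 : Fin d → ℂ) i = z₀ i + s := by simp [hz]
    rw [this, add_sub_cancel_left, mul_comm s (ptOf χ z (Θ.D f))]
    ring
  have h4 : (fun s : ℂ => (χ' a : (Fin d → ℂ) → ℂ) (z + s • Pi.single i 1))
      = fun s : ℂ => Θ.flow (ptOf χ z f * (s * Efun (ptOf χ z (Θ.D f) * s))) (ptOf χ z) a := by
    ext s
    have h5 : ptOf χ' (z + s • Pi.single i 1)
        = Θ.flow (ptOf χ z f * (s * Efun (ptOf χ z (Θ.D f) * s))) (ptOf χ z) := by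
      rw [expHom_evalAt, hTz, ptOf_eq_of_dependsOn hχdep hi]
    exact congrArg (fun p : Pt R => p a) h5
  rw [h4] at h3
  have h5 := (hasDerivAt_mul_Efun (ptOf χ z (Θ.D f)) 0).const_mul (ptOf χ z f)
  have h6 := (Θ.hasDerivAt_flow (ptOf χ z) a
    (ptOf χ z f * (0 * Efun (ptOf χ z (Θ.D f) * 0)))).comp (0 : ℂ) h5
  have h7 := h3.unique h6
  rw [zero_smul, add_zero] at h7
  rw [h7]
  simp only [zero_mul, mul_zero, Θ.flow_zero, Complex.exp_zero, mul_one]
  change ptOf χ z (f * Θ.D a) = _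
  rw [map_mul, mul_comm]

/-- the derivative of a polynomial in jets along the flow of an algebraic overshear field -/
theorem hasDerivAt_evJ (hx : Algebra.adjoin ℂ (Set.range x) = ⊤) (hdep : DependsOn ψ J)
    {i : Fin d} (hi : i ∉ J) (Θ : LND R) (f : R) (hf : Θ.D (Θ.D f) = 0) (F : HolAut R)
    (s : MvPolynomial (Multiset J × R) ℂ) :
    HasDerivAt (fun t : ℂ => evJ ψ J z₀ (osAut hx Θ f hf t * F) s)
      (evJ ψ J z₀ F (hat J (f • Θ.D) s)) 0 := by
  induction s using MvPolynomial.induction_on with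
  | C c =>
    have h1 : (fun t : ℂ => evJ ψ J z₀ (osAut hx Θ f hf t * F) (MvPolynomial.C c))
        = fun _ => c := by
      ext t; exact MvPolynomial.aeval_C _ _
    rw [h1, MvPolynomial.derivation_C, map_zero]
    exact hasDerivAt_const _ _
  | add p q hp hq =>
    simp only [map_add]
    exact hp.fun_add hq
  | mul_X p q hp =>
    have h1 := hasDerivAt_jet (ψ := ψ) (J := J) (z₀ := z₀) hx hdep hi Θ f hf F q.1 q.2
    simp only [map_mul, evJ_X, Derivation.leibniz, hat_X, smul_eq_mul, map_add,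
      Derivation.smul_apply]
    have h2 := hp.fun_mul h1
    rw [osAut_zero, one_mul] at h2
    convert! h2 using 1
    ring

omit ψ J z₀ in
/-- a space of automorphisms which is stable under the flows of algebraic overshear fields -/
def PathStable (hx : Algebra.adjoin ℂ (Set.range x) = ⊤) {𝒜 : Type*} [TopologicalSpace 𝒜]
    (κ : 𝒜 → HolAut R) : Prop :=
  ∀ (F : 𝒜) (Θ : LND R) (f : R) (hf : Θ.D (Θ.D f) = 0), ∃ c : ℂ → 𝒜, Continuous c ∧ c 0 = F ∧
    ∀ t, κ (c t) = osAut hx Θ f hf t * κ F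

/-- Polynomial relations between jets which hold on an open set are stable under all algebraic
vector fields. -/
theorem hat_mem (hx : Algebra.adjoin ℂ (Set.range x) = ⊤) (hX : AOSDP R) (hdep : DependsOn ψ J)
    {i : Fin d} (hi : i ∉ J) {𝒜 : Type*} [TopologicalSpace 𝒜] {κ : 𝒜 → HolAut R}
    (hκ : PathStable hx κ) {U : Set 𝒜} (hU : IsOpen U)
    {s : MvPolynomial (Multiset J × R) ℂ}
    (hs : ∀ F ∈ U, evJ ψ J z₀ (κ F) s = 0) (V : Derivation ℂ R R) :
    ∀ F ∈ U, evJ ψ J z₀ (κ F) (hat J V s) = 0 := by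
  let 𝔤 : LieSubalgebra ℂ (Derivation ℂ R R) :=
    { carrier := {V | ∀ s : MvPolynomial (Multiset J × R) ℂ,
        (∀ F ∈ U, evJ ψ J z₀ (κ F) s = 0) →
        ∀ F ∈ U, evJ ψ J z₀ (κ F) (hat J V s) = 0}
      add_mem' := by
        intro V W hV hW s hs F hF
        rw [evJ_hat_add, hV s hs F hF, hW s hs F hF, add_zero]
      zero_mem' := by
        intro s hs F hF
        have : (0 : Derivation ℂ R R) = (0 : ℂ) • 0 := by rw [smul_zero]
        rw [this, evJ_hat_smul, zero_mul]
      smul_mem' := by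
        intro c V hV s hs F hF
        rw [evJ_hat_smul, hV s hs F hF, mul_zero]
      lie_mem' := by
        intro V W hV hW s hs F hF
        rw [evJ_hat_lie, hV _ (hW s hs) F hF, hW _ (hV s hs) F hF, sub_zero] }
  have hle : LieSubalgebra.lieSpan ℂ (Derivation ℂ R R)
      {V | ∃ (Θ : LND R) (f : R), Θ.D (Θ.D f) = 0 ∧ V = f • Θ.D} ≤ 𝔤 := by
    rw [LieSubalgebra.lieSpan_le]
    rintro _ ⟨Θ, f, hf, rfl⟩ s hs F hF
    obtain ⟨c, hc, hc0, hct⟩ := hκ F Θ f hf
    have hev : ∀ᶠ t in 𝓝 (0 : ℂ), c t ∈ U := by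
      apply hc.continuousAt.eventually
      rw [hc0]
      exact hU.mem_nhds hF
    have hd := hasDerivAt_evJ (ψ := ψ) (J := J) (z₀ := z₀) hx hdep hi Θ f hf (κ F) s
    have hd0 : HasDerivAt (fun t : ℂ => evJ ψ J z₀ (osAut hx Θ f hf t * κ F) s) 0 0 := by
      refine (hasDerivAt_const (0 : ℂ) (0 : ℂ)).congr_of_eventuallyEq ?_
      filter_upwards [hev] with t ht
      rw [← hct]
      exact hs _ ht
    exact hd.unique hd0
  have hV : V ∈ 𝔤 := by
    apply hle
    unfold AOSDP at hX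
    rw [hX]
    trivial
  exact hV s hs

end jets

end Pool.Agent.Overshear
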