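import Pool.Agent.Helper23.Overshear.Step

/-!
# Maximal tame immersions and the overshear group
-/

set_option autoImplicit false

noncomputable section

open Filter Topology Set

namespace Pool.Agent.Overshear

universe u

variable {R : Type u} [CommRing R] [Algebra ℂ R] {d : ℕ} {N : ℕ} {x : Fin N → R}

/-- the state of the construction -/
structure Good (x : Fin N → R) (χ : R →ₐ[ℂ] Ent d) (J : Finset (Fin d)) (z : Fin d → ℂ) :
    Prop where
  tame : TameMap x χ J.card
  dep : DependsOn χ J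
  imm : ImmAt x χ J z
  lnd : ∃ (Θ : LND R) (a : R), ptOf χ z (Θ.D a) ≠ 0

theorem ImmAt.card_le {χ : R →ₐ[ℂ] Ent d} {J : Finset (Fin d)} {z : Fin d → ℂ}
    (h : ImmAt x χ J z) : J.card ≤ N := by
  classical
  let L : (J → ℂ) →ₗ[ℂ] (Fin N → ℂ) :=
    { toFun := fun v => ∑ j : J, v j • dvec x χ z j
      map_add' := fun v w => by
        simp only [Pi.add_apply, add_smul, Finset.sum_add_distrib]
      map_smul' := fun c v => by
        simp only [Pi.smul_apply, smul_eq_mul, mul_smul, Finset.smul_sum, RingHom.id_apply] }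
  have hLinj : Function.Injective L := by
    rw [← LinearMap.ker_eq_bot, LinearMap.ker_eq_bot']
    intro v hv
    let v' : Fin d → ℂ := fun j => if h : j ∈ J then v ⟨j, h⟩ else 0
    have h1 : v' = 0 := by
      apply h
      · intro j hj; simp [v', hj]
      · rw [sum_eq_sum_subtype J _ (fun j hj => by simp [v', hj])]
        rw [← hv]
        refine Finset.sum_congr rfl fun j _ => ?_
        simp [v']
    ext j
    have := congrFun h1 j
    simpa [v'] using this
  have := LinearMap.finrank_le_finrank_of_injective hLinj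
  simpa using this

/-- if a locally nilpotent vector field is not tangent to a good map, we can enlarge the map -/
theorem extend (hx : Algebra.adjoin ℂ (Set.range x) = ⊤) {χ : R →ₐ[ℂ] Ent d}
    {J : Finset (Fin d)} {z : Fin d → ℂ} (htame : TameMap x χ J.card) (hdep : DependsOn χ J)
    (himm : ImmAt x χ J z) (Θ : LND R) (hnot : ¬ TangentAt x χ J Θ z) {i : Fin d} (hi : i ∉ J) :
    Good x (Θ.expHom χ (Ent.coord i)) (insert i J) (z + (-z i) • Pi.single i 1) := by
  classical
  set χ' := Θ.expHom χ (Ent.coord i) with hχ'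
  set z' : Fin d → ℂ := z + (-z i) • Pi.single i 1 with hz'
  have hz'i : z' i = 0 := by simp [hz']
  have hpt : ptOf χ z' = ptOf χ z := ptOf_eq_of_dependsOn hdep hi z _
  have hpt' : ptOf χ' z' = ptOf χ z := by
    rw [hχ', expHom_evalAt, Ent.coord_apply, hz'i, Θ.flow_zero, hpt]
  have hdvec : ∀ j ∈ J, dvec x χ' z' j = dvec x χ z j := by
    intro j hj
    have hji : j ≠ i := fun h => hi (h ▸ hj)
    ext l
    change (Ent.der j (χ' (x l)) : (Fin d → ℂ) → ℂ) z' = (Ent.der j (χ (x l)) : (Fin d → ℂ) → ℂ) z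
    have h1 : (Ent.der j (χ' (x l)) : (Fin d → ℂ) → ℂ) z'
        = (Ent.der j (χ (x l)) : (Fin d → ℂ) → ℂ) z' := by
      refine Ent.der_eq_on_slice (i := i) (t := 0) ?_ hji z' hz'i
      intro w hw
      have : ptOf χ' w = ptOf χ w := by
        rw [hχ', expHom_evalAt, Ent.coord_apply, hw, Θ.flow_zero]
      exact congrArg (fun p : Pt R => p (x l)) this
    rw [h1]
    have h2 : Ent.der i (Ent.der j (χ (x l))) = 0 := by
      rw [Ent.der_comm, hdep i hi, map_zero]
    exact Ent.eq_of_der_eq_zero h2 z _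
  have hdveci : dvec x χ' z' i = fun l => ptOf χ z (Θ.D (x l)) := by
    ext l
    change (Ent.der i (χ' (x l)) : (Fin d → ℂ) → ℂ) z' = _
    have h1 := Ent.hasDerivAt_coord (χ' (x l)) z' i 0
    have h2 : (fun s : ℂ => (χ' (x l) : (Fin d → ℂ) → ℂ) (z' + s • Pi.single i 1))
        = fun s : ℂ => Θ.flow s (ptOf χ z) (x l) := by
      ext s
      have h3 : ptOf χ' (z' + s • Pi.single i 1) = Θ.flow s (ptOf χ z) := by
        rw [hχ', expHom_evalAt, Ent.coord_apply, ptOf_eq_of_dependsOn hdep hi, hpt]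
        congr 1
        simp [hz'i]
      exact congrArg (fun p : Pt R => p (x l)) h3
    rw [h2] at h1
    have h3 := h1.unique (Θ.hasDerivAt_flow (ptOf χ z) (x l) 0)
    rw [Θ.flow_zero] at h3
    simpa using h3
  refine ⟨?_, ?_, ?_, ?_⟩
  · -- tame
    rw [Finset.card_insert_of_notMem hi]
    obtain ⟨K, hK⟩ := Θ.exists_consts hx
    obtain ⟨B', h1, h2, h3⟩ := tame_const htame K
    have h4 := (h1.union {Ent.coord i} (fun c hc j => by
      rw [Finset.mem_singleton.1 hc]
      have : (Ent.P d).D j (Ent.coord i) = if j = i then 1 else 0 := Ent.der_coord j i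
      rw [this]
      split_ifs
      · exact one_mem _
      · exact zero_mem _)).succ
    refine Tame.mono ?_ h4
    rintro _ ⟨l, rfl⟩
    have hle : Sat B' ≤ Sat (B' ∪ (({Ent.coord i} : Finset (Ent d)) : Set (Ent d))) :=
      Sat_mono subset_union_left
    refine (hK d χ _ (fun l => hle (h2 (Set.mem_range_self l))) (fun c hc => hle (h3 c hc))).2 _
      ?_ l
    exact subset_Sat _ (Set.mem_union_right _ (by simp))
  · -- depends
    apply dependsOn_of_ptOf
    intro j hj w s
    rw [Finset.mem_insert, not_or] at hj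
    rw [hχ', expHom_evalAt, expHom_evalAt, ptOf_eq_of_dependsOn hdep hj.2, Ent.coord_apply,
      Ent.coord_apply]
    congr 1
    simp [Pi.single_eq_of_ne (Ne.symm hj.1)]
  · -- immersion
    intro v hv hv0
    have hsum : v i • (fun l => ptOf χ z (Θ.D (x l))) + ∑ j ∈ J, v j • dvec x χ z j = 0 := by
      rw [← hv0, ← hdveci, ← Finset.sum_subset (Finset.subset_univ (insert i J)),
        Finset.sum_insert hi]
      · congr 1
        exact Finset.sum_congr rfl fun j hj => by rw [hdvec j hj]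
      · intro j _ hj
        rw [hv j hj, zero_smul]
    have hvi : v i = 0 := by
      by_contra hvi
      apply hnot
      refine ⟨fun j => if j ∈ J then -(v i)⁻¹ * v j else 0, fun j hj => by simp [hj], ?_⟩
      have h1 : ∑ j, (if j ∈ J then -(v i)⁻¹ * v j else 0) • dvec x χ z j
          = ∑ j ∈ J, (-(v i)⁻¹ * v j) • dvec x χ z j := by
        rw [← Finset.sum_subset (Finset.subset_univ J)]
        · exact Finset.sum_congr rfl fun j hj => by rw [if_pos hj]
        · intro j _ hj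
          rw [if_neg hj, zero_smul]
      rw [h1]
      simp only [mul_smul]
      rw [← Finset.smul_sum]
      have h2 : ∑ j ∈ J, v j • dvec x χ z j = -(v i • fun l => ptOf χ z (Θ.D (x l))) := by
        rw [eq_neg_iff_add_eq_zero, add_comm]; exact hsum
      rw [h2, smul_neg, neg_smul, neg_neg, smul_smul, inv_mul_cancel₀ hvi, one_smul]
    have hv' : v = 0 := by
      apply himm v
      · intro j hj
        by_cases hji : j = i
        · rw [hji]; exact hvi
        · apply hv
          rw [Finset.mem_insert, not_or]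
          exact ⟨hji, hj⟩
      · rw [hvi, zero_smul, zero_add] at hsum
        rw [← hsum, ← Finset.sum_subset (Finset.subset_univ J)]
        intro j _ hj
        by_cases hji : j = i
        · rw [hji, hvi, zero_smul]
        · rw [hv j (by rw [Finset.mem_insert, not_or]; exact ⟨hji, hj⟩), zero_smul]
    exact hv'
  · refine ⟨Θ, ?_⟩
    by_contra hcon
    push Not at hcon
    apply hnot
    refine ⟨0, fun _ _ => rfl, ?_⟩
    ext l
    have := hcon (x l)
    rw [hpt'] at this
    simp [this]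

/-- A maximal good state: every locally nilpotent vector field is tangent to every tame map of the
same rank. -/
theorem exists_maximal (hx : Algebra.adjoin ℂ (Set.range x) = ⊤) {p : Pt R}
    (hp : ∃ (Θ : LND R) (a : R), p (Θ.D a) ≠ 0) :
    ∃ (ψ : R →ₐ[ℂ] Ent (N + 1)) (J : Finset (Fin (N + 1))) (z : Fin (N + 1) → ℂ),
      Good x ψ J z ∧ J.Nonempty ∧ ∀ (χ : R →ₐ[ℂ] Ent (N + 1)), TameMap x χ J.card →
        DependsOn χ J → ∀ (Θ : LND R) (z : Fin (N + 1) → ℂ), ImmAt x χ J z →
          TangentAt x χ J Θ z := by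
  classical
  -- start
  let χ₀ : R →ₐ[ℂ] Ent (N + 1) := (Algebra.ofId ℂ (Ent (N + 1))).comp p
  have hχ₀ : ∀ z, ptOf χ₀ z = p := fun z => Pt.ext fun a => rfl
  have hgood0 : Good x χ₀ ∅ 0 := by
    refine ⟨?_, ?_, ?_, ?_⟩
    · have h0 : Tame (Ent.P (N + 1)) (∅ : Finset (Fin (N + 1))).card (∅ : Set (Ent (N + 1))) :=
        ⟨0, fun _ => ∅, by simp, by simp, by simp, by simp⟩
      obtain ⟨B', h1, _, h3⟩ := tame_const h0 (Finset.univ.image fun l => p (x l))
      refine Tame.mono ?_ h1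
      rintro _ ⟨l, rfl⟩
      exact h3 _ (Finset.mem_image_of_mem _ (Finset.mem_univ l))
    · apply dependsOn_of_ptOf
      intro j _ z s
      rw [hχ₀, hχ₀]
    · intro v hv _
      ext j
      exact hv j (by simp)
    · obtain ⟨Θ, a, ha⟩ := hp
      exact ⟨Θ, a, by rw [hχ₀]; exact ha⟩
  -- the set of possible ranks
  let S : Set ℕ := {n | ∃ (χ : R →ₐ[ℂ] Ent (N + 1)) (J : Finset (Fin (N + 1)))
    (z : Fin (N + 1) → ℂ), Good x χ J z ∧ J.card = n}
  have hS0 : S.Nonempty := ⟨0, χ₀, ∅, 0, hgood0, rfl⟩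
  have hSb : BddAbove S := ⟨N, by
    rintro n ⟨χ, J, z, h, rfl⟩
    exact h.imm.card_le⟩
  obtain ⟨ψ, J, z, hgood, hcard⟩ := Nat.sSup_mem hS0 hSb
  have hmax : ∀ (χ : R →ₐ[ℂ] Ent (N + 1)), TameMap x χ J.card →
      DependsOn χ J → ∀ (Θ : LND R) (z : Fin (N + 1) → ℂ), ImmAt x χ J z →
        TangentAt x χ J Θ z := by
    intro χ htame hdep Θ w himm
    by_contra hnot
    have hJ : J.card < Fintype.card (Fin (N + 1)) := by
      rw [Fintype.card_fin]
      exact Nat.lt_succ_of_le himm.card_le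
    obtain ⟨i, hi⟩ : ∃ i, i ∉ J := by
      by_contra hcon
      push Not at hcon
      have : J = Finset.univ := Finset.eq_univ_iff_forall.2 hcon
      rw [this, Finset.card_univ] at hJ
      exact lt_irrefl _ hJ
    have h1 := extend hx htame hdep himm Θ hnot hi
    have h2 : (insert i J).card ∈ S := ⟨_, _, _, h1, rfl⟩
    have h3 := le_csSup hSb h2
    rw [Finset.card_insert_of_notMem hi, ← hcard] at h3
    omega
  refine ⟨ψ, J, z, hgood, ?_, hmax⟩
  rw [Finset.nonempty_iff_ne_empty]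
  rintro rfl
  obtain ⟨Θ, a, ha⟩ := hgood.lnd
  obtain ⟨w, hw, hw1⟩ := hmax ψ hgood.tame hgood.dep Θ z hgood.imm
  apply ha
  apply eval_D_eq_zero hx
  intro l
  have h1 : w = 0 := funext fun j => hw j (by simp)
  rw [h1] at hw1
  have := congrFun hw1 l
  simpa using this.symm

/-! ### the overshear group -/

/-- the inverse of a time-`t` map is a time-`(-t)` map -/
theorem LND.IsTimeMap.symm {Θ : LND R} {f : Pt R → ℂ} {t : ℂ} {F : Pt R ≃ₜ Pt R}
    (h : Θ.IsTimeMap f t F) : Θ.IsTimeMap f (-t) F.symm := by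
  intro q
  obtain ⟨γ, h0, ht, hγ⟩ := h (F.symm q)
  refine ⟨fun s => γ (s + t), ?_, ?_, ?_⟩
  · simp only [zero_add]
    rw [ht, Homeomorph.apply_symm_apply]
  · simp only [neg_add_cancel]
    exact h0
  · intro a s
    exact (hγ a (s + t)).comp_add_const s t

theorem push_eq_expHom (hx : Algebra.adjoin ℂ (Set.range x) = ⊤) {Θ : LND R} {f : Pt R → ℂ}
    (hf : IsHolo f) (hf2 : ∀ p, Θ.act (Θ.act f) p = 0) {t : ℂ} {F : HolAut R}
    (hF : Θ.IsTimeMap f t (F : Pt R ≃ₜ Pt R)) (χ : R →ₐ[ℂ] Ent d) :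
    push F χ = Θ.expHom χ (pull χ (fun p => t * f p * Efun (t * Θ.act f p))
      (LND.act_tau hx hf hf2 t).1) := by
  refine algHom_ext_ptOf fun z => ?_
  rw [ptOf_push, expHom_evalAt, pull_apply]
  exact hF.eq_flow hx hf hf2 _

theorem gos_induction {P : HolAut R → Prop} (hone : P 1)
    (hmul : ∀ F G, P F → P G → P (F * G))
    (hgen : ∀ (F : HolAut R) (Θ : LND R) (f : Pt R → ℂ) (t : ℂ), IsHolo f →
      (∀ p, Θ.act (Θ.act f) p = 0) → Θ.IsTimeMap f t (F : Pt R ≃ₜ Pt R) → P F)
    {F : HolAut R} (hF : F ∈ Gos R) : P F := by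
  have key : P F ∧ P F⁻¹ := by
    unfold Gos at hF
    induction hF using Subgroup.closure_induction with
    | mem F hF =>
      obtain ⟨Θ, f, t, h1, h2, h3⟩ := hF
      exact ⟨hgen F Θ f t h1 h2 h3, hgen F⁻¹ Θ f (-t) h1 h2 h3.symm⟩
    | one => rw [inv_one]; exact ⟨hone, hone⟩
    | mul F G _ _ ihF ihG =>
      rw [mul_inv_rev]
      exact ⟨hmul _ _ ihF.1 ihG.1, hmul _ _ ihG.2 ihF.2⟩
    | inv F _ ih => rw [inv_inv]; exact ⟨ih.2, ih.1⟩
  exact key.1

/-- elements of the overshear group preserve tame maps of maximal rank -/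
theorem tame_push (hx : Algebra.adjoin ℂ (Set.range x) = ⊤) {J : Finset (Fin d)}
    (hmax : ∀ (χ : R →ₐ[ℂ] Ent d), TameMap x χ J.card → DependsOn χ J →
      ∀ (Θ : LND R) (z : Fin d → ℂ), ImmAt x χ J z → TangentAt x χ J Θ z)
    {F : HolAut R} (hF : F ∈ Gos R) :
    ∀ χ : R →ₐ[ℂ] Ent d, TameMap x χ J.card → DependsOn χ J → (∃ z, ImmAt x χ J z) →
      TameMap x (push F χ) J.card := by
  refine gos_induction (P := fun F => ∀ χ : R →ₐ[ℂ] Ent d, TameMap x χ J.card → DependsOn χ J →
    (∃ z, ImmAt x χ J z) → TameMap x (push F χ) J.card) ?_ ?_ ?_ hF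
  · intro χ h _ _
    rw [push_one]; exact h
  · intro F G ihF ihG χ h1 h2 h3
    rw [push_mul]
    refine ihF _ (ihG χ h1 h2 h3) (h2.push G) ?_
    obtain ⟨z, hz⟩ := h3
    exact ⟨z, ImmAt.push hx hz G⟩
  · intro F Θ f t hf hf2 hF χ h1 h2 h3
    rw [push_eq_expHom hx hf hf2 hF]
    obtain ⟨ha, hb, hc, hd⟩ := LND.act_tau hx hf hf2 t
    exact TameMap.expHom hx h1 h2 h3 Θ (fun z hz => hmax χ h1 h2 Θ z hz) ha hb hc hd

/-- a locally nilpotent vector field which is non-zero at a point can be moved by the overshear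
group -/
theorem lnd_push (hx : Algebra.adjoin ℂ (Set.range x) = ⊤) {F : HolAut R} (hF : F ∈ Gos R)
    (p : Pt R) (hp : ∃ (Θ : LND R) (a : R), p (Θ.D a) ≠ 0) :
    ∃ (Θ : LND R) (a : R), (F : Pt R ≃ₜ Pt R) p (Θ.D a) ≠ 0 := by
  revert p
  refine gos_induction (P := fun F => ∀ p : Pt R, (∃ (Θ : LND R) (a : R), p (Θ.D a) ≠ 0) →
    ∃ (Θ : LND R) (a : R), (F : Pt R ≃ₜ Pt R) p (Θ.D a) ≠ 0) ?_ ?_ ?_ hF
  · exact fun p hp => hp
  · exact fun F G ihF ihG p hp => ihF _ (ihG p hp)
  · intro F Θ f t hf hf2 hF p hp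
    rw [hF.eq_flow hx hf hf2 p]
    by_cases h : ∃ a, p (Θ.D a) ≠ 0
    · exact ⟨Θ, Θ.exists_ne_zero_flow h _⟩
    · push Not at h
      rw [Θ.flow_eq_self h]
      exact hp

end Pool.Agent.Overshear
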