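import Pool.Agent.Helper23.Overshear.Variety

/-!
# Entire maps `ℂ^d → X`
-/

set_option autoImplicit false

noncomputable section

open Filter Topology Set

namespace Pool.Agent.Overshear

universe u

variable {R : Type u} [CommRing R] [Algebra ℂ R] {d : ℕ}

/-- the point `χ(z)` of the entire map `χ : ℂ^d → X` given by an algebra homomorphism
`R → 𝒪(ℂ^d)`. -/
def ptOf (χ : R →ₐ[ℂ] Ent d) (z : Fin d → ℂ) : Pt R := (Ent.evalAt z).comp χ

theorem ptOf_apply (χ : R →ₐ[ℂ] Ent d) (z : Fin d → ℂ) (a : R) :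
    ptOf χ z a = (χ a : (Fin d → ℂ) → ℂ) z := rfl

theorem continuous_ptOf (χ : R →ₐ[ℂ] Ent d) : Continuous (ptOf χ) :=
  continuous_iff_eval.2 fun a => Ent.continuous (χ a)

theorem algHom_ext_ptOf {χ χ' : R →ₐ[ℂ] Ent d} (h : ∀ z, ptOf χ z = ptOf χ' z) : χ = χ' := by
  ext1 a
  refine Ent.ext fun z => ?_
  have := congrArg (fun p : Pt R => p a) (h z)
  exact this

theorem expHom_evalAt (Θ : LND R) (χ : R →ₐ[ℂ] Ent d) (b : Ent d) (z : Fin d → ℂ) :
    ptOf (Θ.expHom χ b) z = Θ.flow ((b : (Fin d → ℂ) → ℂ) z) (ptOf χ z) := by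
  refine Pt.ext fun a => ?_
  rw [Θ.flow_apply _ _ (Θ.ord_spec a), ptOf_apply, Θ.expHom_apply _ _ (Θ.ord_spec a)]
  rw [← Ent.evalAt_apply, map_sum]
  refine Finset.sum_congr rfl fun n _ => ?_
  rw [map_mul, map_pow]
  rfl

theorem hasDerivAt_ptOf (χ : R →ₐ[ℂ] Ent d) (z v : Fin d → ℂ) (s : ℂ) (a : R) :
    HasDerivAt (fun s : ℂ => ptOf χ (z + s • v) a)
      (∑ j, v j * (Ent.der j (χ a) : (Fin d → ℂ) → ℂ) (z + s • v)) s :=
  Ent.hasDerivAt_line (χ a) z v s

section gens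

variable {N : ℕ} {x : Fin N → R} (hx : Algebra.adjoin ℂ (Set.range x) = ⊤)

/-- pull-back of a holomorphic function by an entire map -/
def pull (χ : R →ₐ[ℂ] Ent d) (f : Pt R → ℂ) (hf : IsHolo f) : Ent d :=
  ⟨fun z => f (ptOf χ z), fun z _ => by
    obtain ⟨m, a, φ, hφ, h⟩ := hf (ptOf χ z)
    have h1 : AnalyticAt ℂ (fun z : Fin d → ℂ => fun i => ptOf χ z (a i)) z := by
      rw [analyticAt_pi_iff]
      exact fun i => Ent.analyticAt (χ (a i)) z
    have h2 : AnalyticAt ℂ (fun z : Fin d → ℂ => φ (fun i => ptOf χ z (a i))) z :=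
      AnalyticAt.fun_comp (g := φ) (f := fun z : Fin d → ℂ => fun i => ptOf χ z (a i)) hφ h1
    refine h2.congr ?_
    have h3 := (continuous_ptOf χ).continuousAt.eventually h
    filter_upwards [h3] with w hw
    exact hw.symm⟩

theorem pull_apply (χ : R →ₐ[ℂ] Ent d) (f : Pt R → ℂ) (hf : IsHolo f) (z : Fin d → ℂ) :
    (pull χ f hf : (Fin d → ℂ) → ℂ) z = f (ptOf χ z) := rfl

/-- composition of an entire map with a holomorphic automorphism -/
def push (F : HolAut R) (χ : R →ₐ[ℂ] Ent d) : R →ₐ[ℂ] Ent d where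
  toFun a := pull χ (fun p => (F : Pt R ≃ₜ Pt R) p a) (F.2.1 a)
  map_one' := Ent.ext fun z => map_one ((F : Pt R ≃ₜ Pt R) (ptOf χ z))
  map_mul' a b := Ent.ext fun z => map_mul ((F : Pt R ≃ₜ Pt R) (ptOf χ z)) a b
  map_zero' := Ent.ext fun z => map_zero ((F : Pt R ≃ₜ Pt R) (ptOf χ z))
  map_add' a b := Ent.ext fun z => map_add ((F : Pt R ≃ₜ Pt R) (ptOf χ z)) a b
  commutes' c := Ent.ext fun z => AlgHomClass.commutes ((F : Pt R ≃ₜ Pt R) (ptOf χ z)) c

theorem ptOf_push (F : HolAut R) (χ : R →ₐ[ℂ] Ent d) (z : Fin d → ℂ) :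
    ptOf (push F χ) z = (F : Pt R ≃ₜ Pt R) (ptOf χ z) := Pt.ext fun _ => rfl

theorem push_mul (F G : HolAut R) (χ : R →ₐ[ℂ] Ent d) : push (F * G) χ = push F (push G χ) :=
  algHom_ext_ptOf fun z => by rw [ptOf_push, ptOf_push, ptOf_push]; rfl

theorem push_one (χ : R →ₐ[ℂ] Ent d) : push (1 : HolAut R) χ = χ :=
  algHom_ext_ptOf fun z => by rw [ptOf_push]; rfl

/-- the vector `∂ⱼχ(z) ∈ ℂ^N` -/
def dvec (x : Fin N → R) (χ : R →ₐ[ℂ] Ent d) (z : Fin d → ℂ) (j : Fin d) : Fin N → ℂ :=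
  fun l => (Ent.der j (χ (x l)) : (Fin d → ℂ) → ℂ) z

/-- `χ` does not depend on the coordinates outside `J` -/
def DependsOn (χ : R →ₐ[ℂ] Ent d) (J : Finset (Fin d)) : Prop :=
  ∀ j, j ∉ J → ∀ a, Ent.der j (χ a) = 0

/-- `χ` is an immersion in the `J`-directions at `z` -/
def ImmAt (x : Fin N → R) (χ : R →ₐ[ℂ] Ent d) (J : Finset (Fin d)) (z : Fin d → ℂ) : Prop :=
  ∀ v : Fin d → ℂ, (∀ j, j ∉ J → v j = 0) → (∑ j, v j • dvec x χ z j = 0) → v = 0

theorem ptOf_eq_of_dependsOn {χ : R →ₐ[ℂ] Ent d} {J : Finset (Fin d)} (h : DependsOn χ J)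
    {j : Fin d} (hj : j ∉ J) (z : Fin d → ℂ) (s : ℂ) :
    ptOf χ (z + s • Pi.single j 1) = ptOf χ z :=
  Pt.ext fun a => Ent.eq_of_der_eq_zero (h j hj a) z s

theorem dependsOn_of_ptOf {χ : R →ₐ[ℂ] Ent d} {J : Finset (Fin d)}
    (h : ∀ j, j ∉ J → ∀ (z : Fin d → ℂ) (s : ℂ), ptOf χ (z + s • Pi.single j 1) = ptOf χ z) :
    DependsOn χ J := by
  intro j hj a
  refine Ent.ext fun z => ?_
  have h1 := Ent.hasDerivAt_coord (χ a) z j 0
  have h2 : (fun s : ℂ => (χ a : (Fin d → ℂ) → ℂ) (z + s • Pi.single j 1))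
      = fun _ => (χ a : (Fin d → ℂ) → ℂ) z := by
    ext s
    have := congrArg (fun p : Pt R => p a) (h j hj z s)
    exact this
  rw [h2] at h1
  have h3 := h1.unique (hasDerivAt_const _ _)
  simpa using h3

theorem DependsOn.push {χ : R →ₐ[ℂ] Ent d} {J : Finset (Fin d)} (h : DependsOn χ J)
    (F : HolAut R) : DependsOn (push F χ) J :=
  dependsOn_of_ptOf fun j hj z s => by
    rw [ptOf_push, ptOf_push, ptOf_eq_of_dependsOn h hj]

/-- chain rule: derivative of `f ∘ χ` -/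
theorem sum_der_pull (χ : R →ₐ[ℂ] Ent d) {f : Pt R → ℂ} (hf : IsHolo f) (z : Fin d → ℂ)
    {ℓ : (Fin N → ℂ) →L[ℂ] ℂ}
    (hℓ : ∀ (γ : ℂ → Pt R) (s₀ : ℂ) (v : Fin N → ℂ), γ s₀ = ptOf χ z →
      (∀ l, HasDerivAt (fun s => γ s (x l)) (v l) s₀) →
      HasDerivAt (fun s => f (γ s)) (ℓ v) s₀) (v : Fin d → ℂ) :
    ∑ j, v j * (Ent.der j (pull χ f hf) : (Fin d → ℂ) → ℂ) z = ℓ (∑ j, v j • dvec x χ z j) := by
  have h1 := Ent.hasDerivAt_line (pull χ f hf) z v 0
  have h2 := hℓ (fun s => ptOf χ (z + s • v)) 0 (∑ j, v j • dvec x χ z j) (by simp) (fun l => by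
    have := hasDerivAt_ptOf χ z v 0 (x l)
    convert! this using 1
    simp [dvec])
  have h3 := h1.unique h2
  simpa using h3

include hx

/-- holomorphic automorphisms preserve immersions -/
theorem ImmAt.push {χ : R →ₐ[ℂ] Ent d} {J : Finset (Fin d)} {z : Fin d → ℂ}
    (h : ImmAt x χ J z) (F : HolAut R) : ImmAt x (push F χ) J z := by
  intro v hv hv0
  apply h v hv
  ext l
  -- the function `x_l ∘ F⁻¹`
  have hf : IsHolo (fun p : Pt R => (F : Pt R ≃ₜ Pt R).symm p (x l)) := F.2.2 (x l)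
  obtain ⟨ℓ, hℓ⟩ := hf.exists_differential hx (ptOf (Overshear.push F χ) z)
  have h1 := sum_der_pull (Overshear.push F χ) hf z hℓ v
  rw [hv0, map_zero] at h1
  have h2 : pull (Overshear.push F χ) (fun p : Pt R => (F : Pt R ≃ₜ Pt R).symm p (x l)) hf
      = χ (x l) := by
    refine Ent.ext fun w => ?_
    rw [pull_apply, ptOf_push, Homeomorph.symm_apply_apply]
    rfl
  rw [h2] at h1
  rw [Finset.sum_apply]
  exact h1

/-- If `Θ(χ(z)) = ∑ wⱼ ∂ⱼχ(z) / Δ` then the same holds for all holomorphic functions. -/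
theorem sum_der_pull_eq_act (Θ : LND R) (χ : R →ₐ[ℂ] Ent d) {f : Pt R → ℂ} (hf : IsHolo f)
    {z : Fin d → ℂ} {w : Fin d → ℂ} {Δ : ℂ}
    (h : ∑ j, w j • dvec x χ z j = Δ • fun l => ptOf χ z (Θ.D (x l))) :
    ∑ j, w j * (Ent.der j (pull χ f hf) : (Fin d → ℂ) → ℂ) z = Δ * Θ.act f (ptOf χ z) := by
  obtain ⟨ℓ, hℓ, h2⟩ := Θ.exists_differential hx hf (ptOf χ z)
  rw [sum_der_pull χ hf z hℓ w, h, map_smul, smul_eq_mul, h2]

/-! ### time maps of overshear fields -/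

/-- the explicit form of the time-`t` map of an overshear field -/
theorem LND.IsTimeMap.eq_flow {Θ : LND R} {f : Pt R → ℂ} (hf : IsHolo f)
    (hf2 : ∀ p, Θ.act (Θ.act f) p = 0) {t : ℂ} {F : Pt R → Pt R} (hF : Θ.IsTimeMap f t F)
    (p : Pt R) : F p = Θ.flow (t * f p * Efun (t * Θ.act f p)) p := by
  obtain ⟨γ, h0, ht, hγ⟩ := hF p
  have hact := Θ.isHolo_act hx hf
  have hw : ∀ s, HasDerivAt (fun s => Θ.act f (γ s)) 0 s := by
    intro s
    have := Θ.hasDerivAt_curve hx hact (fun a => hγ a s)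
    rwa [hf2, mul_zero] at this
  have hw' : ∀ s, Θ.act f (γ s) = Θ.act f p := by
    intro s
    have := is_const_of_deriv_eq_zero (fun s => (hw s).differentiableAt)
      (fun s => (hw s).deriv) s 0
    rwa [h0] at this
  set w := Θ.act f p with hwdef
  have hu : ∀ s, HasDerivAt (fun s => f (γ s)) (f (γ s) * w) s := by
    intro s
    have := Θ.hasDerivAt_curve hx hf (fun a => hγ a s)
    rwa [hw'] at this
  have hexp : ∀ s, HasDerivAt (fun s : ℂ => Complex.exp (-(w * s))) (-w * Complex.exp (-(w * s))) s := by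
    intro s
    have h1 : HasDerivAt (fun s : ℂ => -(w * s)) (-w) s := by
      simpa using ((hasDerivAt_id s).const_mul w).fun_neg
    have := h1.cexp
    rwa [mul_comm] at this
  have hu' : ∀ s, f (γ s) = f p * Complex.exp (w * s) := by
    intro s
    have h1 : ∀ s, HasDerivAt (fun s => f (γ s) * Complex.exp (-(w * s))) 0 s := by
      intro s
      have := (hu s).fun_mul (hexp s)
      convert! this using 1
      ring
    have h2 := is_const_of_deriv_eq_zero (fun s => (h1 s).differentiableAt)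
      (fun s => (h1 s).deriv) s 0
    simp only [h0, mul_zero, neg_zero, Complex.exp_zero, mul_one] at h2
    rw [← h2, mul_assoc, ← Complex.exp_add, neg_add_cancel, Complex.exp_zero, mul_one]
  have hT : ∀ s, HasDerivAt (fun s : ℂ => f p * (s * Efun (w * s))) (f p * Complex.exp (w * s)) s :=
    fun s => (hasDerivAt_mul_Efun w s).const_mul (f p)
  have key := Θ.eq_flow_of_hasDerivAt (γ := γ) hT (by simp) (fun a s => by
    have := hγ a s
    rwa [hu' s] at this) t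
  rw [ht, h0] at key
  rw [key]
  congr 1
  rw [mul_comm w t]; ring

/-- The first integral properties of `τ = t f E(t Θf)`. -/
theorem LND.act_tau {Θ : LND R} {f : Pt R → ℂ} (hf : IsHolo f)
    (hf2 : ∀ p, Θ.act (Θ.act f) p = 0) (t : ℂ) :
    IsHolo (fun p => t * f p * Efun (t * Θ.act f p)) ∧
    IsHolo (fun p => t * Θ.act f p * Efun (t * Θ.act f p)) ∧
    (∀ p, Θ.act (fun p => t * f p * Efun (t * Θ.act f p)) p
      = t * Θ.act f p * Efun (t * Θ.act f p)) ∧
    (∀ p, Θ.act (fun p => t * Θ.act f p * Efun (t * Θ.act f p)) p = 0) := by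
  have hact := Θ.isHolo_act hx hf
  have hE : IsHolo (fun p => Efun (t * Θ.act f p)) :=
    (IsHolo.mul hx (isHolo_const t) hact).comp1 Efun_analytic
  have hEd : ∀ p, HasDerivAt (fun s : ℂ => Efun (t * Θ.act f (Θ.flow s p))) 0 0 := by
    intro p
    have h1 := Θ.hasDerivAt_act hx hact p
    rw [hf2] at h1
    have h2 := h1.const_mul t
    rw [mul_zero] at h2
    have h3 : DifferentiableAt ℂ Efun (t * Θ.act f (Θ.flow 0 p)) :=
      (Efun_analytic _ (mem_univ _)).differentiableAt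
    have := h3.hasDerivAt.comp (0 : ℂ) h2
    rwa [mul_zero] at this
  refine ⟨IsHolo.mul hx (IsHolo.mul hx (isHolo_const t) hf) hE,
    IsHolo.mul hx (IsHolo.mul hx (isHolo_const t) hact) hE, fun p => ?_, fun p => ?_⟩
  · have h1 := ((Θ.hasDerivAt_act hx hf p).const_mul t).fun_mul (hEd p)
    rw [LND.act, h1.deriv, LND.flow_zero]
    ring
  · have h0 := Θ.hasDerivAt_act hx hact p
    rw [hf2] at h0
    have h1 := (h0.const_mul t).fun_mul (hEd p)
    rw [LND.act, h1.deriv]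
    ring

end gens

end Pool.Agent.Overshear
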