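import Mathlib

/-!
# Relatively fraction-closed subalgebras and derivations
-/

set_option autoImplicit false

noncomputable section

namespace Pool.Agent.Overshear

variable {A : Type*} [CommRing A] [IsDomain A] [Algebra ℚ A]

/-- elements of the domain `A` which are quotients of elements of `ℚ[S]`. -/
def Sat (S : Set A) : Subalgebra ℚ A where
  carrier := {a | ∃ q ∈ Algebra.adjoin ℚ S, q ≠ 0 ∧ q * a ∈ Algebra.adjoin ℚ S}
  mul_mem' := by
    rintro a b ⟨q, hq, hq0, hqa⟩ ⟨r, hr, hr0, hrb⟩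
    refine ⟨q * r, mul_mem hq hr, mul_ne_zero hq0 hr0, ?_⟩
    have : q * r * (a * b) = (q * a) * (r * b) := by ring
    rw [this]; exact mul_mem hqa hrb
  one_mem' := ⟨1, one_mem _, one_ne_zero, by simp⟩
  add_mem' := by
    rintro a b ⟨q, hq, hq0, hqa⟩ ⟨r, hr, hr0, hrb⟩
    refine ⟨q * r, mul_mem hq hr, mul_ne_zero hq0 hr0, ?_⟩
    have : q * r * (a + b) = r * (q * a) + q * (r * b) := by ring
    rw [this]; exact add_mem (mul_mem hr hqa) (mul_mem hq hrb)
  zero_mem' := ⟨1, one_mem _, one_ne_zero, by simp⟩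
  algebraMap_mem' c := ⟨1, one_mem _, one_ne_zero, by
    rw [one_mul]; exact Subalgebra.algebraMap_mem _ c⟩

theorem mem_Sat {S : Set A} {a : A} :
    a ∈ Sat S ↔ ∃ q ∈ Algebra.adjoin ℚ S, q ≠ 0 ∧ q * a ∈ Algebra.adjoin ℚ S := Iff.rfl

theorem adjoin_le_Sat (S : Set A) : Algebra.adjoin ℚ S ≤ Sat S := fun a ha =>
  ⟨1, one_mem _, one_ne_zero, by rwa [one_mul]⟩

theorem subset_Sat (S : Set A) : S ⊆ Sat S := fun _ ha =>
  adjoin_le_Sat S (Algebra.subset_adjoin ha)

/-- `Sat S` is closed under division -/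
theorem mem_Sat_of_mul {S : Set A} {q a : A} (hq : q ∈ Sat S) (hq0 : q ≠ 0) (h : q * a ∈ Sat S) :
    a ∈ Sat S := by
  obtain ⟨r, hr, hr0, hrq⟩ := hq
  obtain ⟨t, ht, ht0, htqa⟩ := h
  refine ⟨r * t * q, ?_, mul_ne_zero (mul_ne_zero hr0 ht0) hq0, ?_⟩
  · have : r * t * q = t * (r * q) := by ring
    rw [this]; exact mul_mem ht hrq
  · have : r * t * q * a = r * (t * (q * a)) := by ring
    rw [this]; exact mul_mem hr htqa

theorem Sat_le {S T : Set A} (h : S ⊆ Sat T) : Sat S ≤ Sat T := by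
  have h1 : Algebra.adjoin ℚ S ≤ Sat T := Algebra.adjoin_le h
  rintro a ⟨q, hq, hq0, hqa⟩
  exact mem_Sat_of_mul (h1 hq) hq0 (h1 hqa)

theorem Sat_mono {S T : Set A} (h : S ⊆ T) : Sat S ≤ Sat T :=
  Sat_le (h.trans (subset_Sat T))

/-- a derivation maps `Sat S` to `Sat T` if it does so on the generators -/
theorem derivation_mem_Sat (D : Derivation ℚ A A) {S T : Set A} (hST : S ⊆ Sat T)
    (hD : ∀ s ∈ S, D s ∈ Sat T) {a : A} (ha : a ∈ Sat S) : D a ∈ Sat T := by
  have h1 : ∀ b ∈ Algebra.adjoin ℚ S, D b ∈ Sat T := by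
    intro b hb
    have hle : Algebra.adjoin ℚ S ≤ Sat T := Algebra.adjoin_le hST
    refine Algebra.adjoin_induction (p := fun b _ => D b ∈ Sat T) hD ?_ ?_ ?_ hb
    · intro r; rw [Derivation.map_algebraMap]; exact zero_mem _
    · intro x y _ _ hx hy; rw [map_add]; exact add_mem hx hy
    · intro x y hx' hy' hx hy
      rw [Derivation.leibniz]
      exact add_mem (mul_mem (hle hx') hy) (mul_mem (hle hy') hx)
  have haT : a ∈ Sat T := Sat_le hST ha
  obtain ⟨q, hq, hq0, hqa⟩ := ha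
  have h2 : q * D a = D (q * a) - a * D q := by rw [Derivation.leibniz]; simp
  have hqT : q ∈ Sat T := (Algebra.adjoin_le hST) hq
  refine mem_Sat_of_mul hqT hq0 ?_
  rw [h2]
  exact sub_mem (h1 _ hqa) (mul_mem haT (h1 _ hq))

/-- Algebraic dependence: more than `|S|` elements of `Sat S` are algebraically dependent. -/
theorem not_algebraicIndependent_of_card_lt {S : Finset A} {κ : Type*} [Fintype κ] (f : κ → A)
    (hf : ∀ i, f i ∈ Sat (S : Set A)) (hcard : S.card < Fintype.card κ) :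
    ¬ AlgebraicIndependent ℚ f := by
  intro hind
  -- work inside the domain `B = Sat S`
  let B := Sat (S : Set A)
  let f' : κ → B := fun i => ⟨f i, hf i⟩
  have hind' : AlgebraicIndependent ℚ f' := by
    have : f = B.val ∘ f' := rfl
    rw [this] at hind
    exact hind.of_comp B.val
  let S' : Set B := Subtype.val ⁻¹' (S : Set A)
  have hSS' : Subtype.val '' S' = (S : Set A) := by
    apply Set.Subset.antisymm
    · rintro _ ⟨x, hx, rfl⟩
      exact hx
    · intro x hx
      exact ⟨⟨x, subset_Sat _ hx⟩, hx, rfl⟩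
  have hadj : ∀ q ∈ Algebra.adjoin ℚ (S : Set A), ∀ hq : q ∈ B,
      (⟨q, hq⟩ : B) ∈ Algebra.adjoin ℚ S' := by
    intro q hq hqB
    have : Algebra.adjoin ℚ (S : Set A) = (Algebra.adjoin ℚ S').map B.val := by
      rw [AlgHom.map_adjoin]
      congr 1
      exact hSS'.symm
    rw [this] at hq
    obtain ⟨y, hy, hyq⟩ := hq
    have : (⟨q, hqB⟩ : B) = y := Subtype.ext hyq.symm
    rw [this]; exact hy
  have halg : Algebra.IsAlgebraic (Algebra.adjoin ℚ S') B := by
    refine ⟨fun b => ?_⟩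
    obtain ⟨q, hq, hq0, hqb⟩ := b.2
    have hqB : q ∈ B := adjoin_le_Sat _ hq
    have hqbB : q * b ∈ B := adjoin_le_Sat _ hqb
    let q' : Algebra.adjoin ℚ S' := ⟨⟨q, hqB⟩, hadj q hq hqB⟩
    let r' : Algebra.adjoin ℚ S' := ⟨⟨q * b, hqbB⟩, hadj _ hqb hqbB⟩
    refine ⟨Polynomial.C q' * Polynomial.X - Polynomial.C r', ?_, ?_⟩
    · intro h0
      have := congrArg (fun p => Polynomial.coeff p 1) h0
      simp [Polynomial.coeff_C] at this
      apply hq0
      have h3 := congrArg (fun x : Algebra.adjoin ℚ S' => ((x : B) : A)) this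
      simpa [q'] using h3
    · simp only [map_sub, map_mul, Polynomial.aeval_C, Polynomial.aeval_X]
      apply Subtype.ext
      simp [q', r']
  have h1 : Algebra.trdeg ℚ B ≤ Cardinal.mk S' :=
    Algebra.IsAlgebraic.trdeg_le_cardinalMk ℚ S'
  have h2 : Cardinal.lift.{_, _} (Cardinal.mk κ) ≤ Cardinal.lift.{_, _} (Algebra.trdeg ℚ B) :=
    hind'.lift_cardinalMk_le_trdeg
  have h3 : Cardinal.mk S' ≤ (S.card : Cardinal) := by
    have hinj : Function.Injective (fun x : S' => (⟨x.1.1, x.2⟩ : (S : Set A))) := by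
      intro x y hxy
      have := congrArg Subtype.val hxy
      exact Subtype.ext (Subtype.ext this)
    have := Cardinal.mk_le_of_injective hinj
    simpa using this
  have h4 := h2.trans (Cardinal.lift_le.2 (h1.trans h3))
  rw [Cardinal.mk_fintype] at h4
  simp only [Cardinal.lift_natCast, Nat.cast_le] at h4
  omega

end Pool.Agent.Overshear
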