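import Pool.Agent.Helper23.Overshear.Pull

/-!
# Composition with overshears keeps entire maps tame
-/

set_option autoImplicit false

noncomputable section

open Filter Topology Set

namespace Pool.Agent.Overshear

universe u

variable {R : Type u} [CommRing R] [Algebra ℂ R] {d : ℕ} {N : ℕ} {x : Fin N → R}

/-- constant functions -/
def cst (c : ℂ) : Ent d := algebraMap ℂ (Ent d) c

theorem der_cst (j : Fin d) (c : ℂ) : Ent.der j (cst c : Ent d) = 0 :=
  Derivation.map_algebraMap _ _

theorem cst_apply (c : ℂ) (z : Fin d → ℂ) : ((cst c : Ent d) : (Fin d → ℂ) → ℂ) z = c := rfl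

theorem aeval_mem_Sat {χ : R →ₐ[ℂ] Ent d} {T : Set (Ent d)} (hT : ∀ l, χ (x l) ∈ Sat T)
    {Q : MvPolynomial (Fin N) ℂ} (hQ : ∀ m ∈ Q.support, (cst (Q.coeff m) : Ent d) ∈ Sat T) :
    χ (MvPolynomial.aeval x Q) ∈ Sat T := by
  rw [MvPolynomial.aeval_def, MvPolynomial.eval₂_eq, map_sum]
  refine sum_mem fun m hm => ?_
  rw [map_mul, map_prod, AlgHom.commutes]
  refine mul_mem (hQ m hm) (prod_mem fun i _ => ?_)
  rw [map_pow]
  exact pow_mem (hT i) _

section

variable (hx : Algebra.adjoin ℂ (Set.range x) = ⊤)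

include hx

/-- finitely many elements of `R` are expressed through the generators with finitely many
constants -/
theorem exists_consts (S : Finset R) : ∃ K : Finset ℂ, ∀ (d : ℕ) (χ : R →ₐ[ℂ] Ent d)
    (T : Set (Ent d)), (∀ l, χ (x l) ∈ Sat T) → (∀ c ∈ K, (cst c : Ent d) ∈ Sat T) →
    ∀ a ∈ S, χ a ∈ Sat T := by
  classical
  choose P hP using fun a => exists_mvPolynomial hx a
  refine ⟨S.biUnion fun a => (P a).support.image fun m => (P a).coeff m, ?_⟩
  intro d χ T h1 h2 a ha
  rw [← hP a]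
  refine aeval_mem_Sat h1 fun m hm => h2 _ ?_
  rw [Finset.mem_biUnion]
  exact ⟨a, ha, Finset.mem_image_of_mem _ hm⟩

/-- for a locally nilpotent derivation `Θ` finitely many constants suffice to express the
coordinates of `exp(bΘ) χ`. -/
theorem LND.exists_consts (Θ : LND R) : ∃ K : Finset ℂ, ∀ (d : ℕ) (χ : R →ₐ[ℂ] Ent d)
    (T : Set (Ent d)), (∀ l, χ (x l) ∈ Sat T) → (∀ c ∈ K, (cst c : Ent d) ∈ Sat T) →
    (∀ l, χ (Θ.D (x l)) ∈ Sat T) ∧ ∀ b ∈ Sat T, ∀ l, Θ.expHom χ b (x l) ∈ Sat T := by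
  classical
  let S : Finset R := (Finset.univ.image fun l => Θ.D (x l)) ∪
    Finset.univ.biUnion fun l => (Finset.range (Θ.ord (x l))).image fun n => Θ.dp n (x l)
  obtain ⟨K, hK⟩ := Overshear.exists_consts hx S
  refine ⟨K, fun d χ T h1 h2 => ⟨fun l => hK d χ T h1 h2 _ ?_, fun b hb l => ?_⟩⟩
  · exact Finset.mem_union_left _ (Finset.mem_image_of_mem _ (Finset.mem_univ l))
  · rw [Θ.expHom_apply _ _ (Θ.ord_spec (x l))]
    refine sum_mem fun n hn => mul_mem (pow_mem hb _) (hK d χ T h1 h2 _ ?_)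
    refine Finset.mem_union_right _ (Finset.mem_biUnion.2 ⟨l, Finset.mem_univ l, ?_⟩)
    exact Finset.mem_image_of_mem _ hn

/-- a derivation which vanishes on the generators at a point vanishes at the point -/
theorem eval_D_eq_zero (D : Derivation ℂ R R) {p : Pt R} (h : ∀ l, p (D (x l)) = 0) (a : R) :
    p (D a) = 0 := by
  have ha : a ∈ Algebra.adjoin ℂ (Set.range x) := by rw [hx]; trivial
  induction ha using Algebra.adjoin_induction with
  | mem a ha => obtain ⟨l, rfl⟩ := ha; exact h l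
  | algebraMap c => rw [Derivation.map_algebraMap, map_zero]
  | add a b _ _ iha ihb => rw [map_add, map_add, iha, ihb, add_zero]
  | mul a b _ _ iha ihb =>
    rw [Derivation.leibniz, map_add, smul_eq_mul, smul_eq_mul, map_mul, map_mul, iha, ihb,
      mul_zero, mul_zero, add_zero]

end

theorem tame_const {d : ℕ} {m : ℕ} {B : Set (Ent d)} (h : Tame (Ent.P d) m B) (K : Finset ℂ) :
    ∃ B' : Set (Ent d), Tame (Ent.P d) m B' ∧ B ⊆ Sat B' ∧ ∀ c ∈ K, (cst c : Ent d) ∈ Sat B' := by
  classical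
  refine ⟨_, h.union (K.image cst) ?_, ?_, ?_⟩
  · intro c hc j
    obtain ⟨k, _, rfl⟩ := Finset.mem_image.1 hc
    have : (Ent.P d).D j (cst k) = 0 := der_cst j k
    rw [this]; exact zero_mem _
  · exact subset_union_left.trans (subset_Sat _)
  · intro c hc
    exact subset_Sat _ (Or.inr (Finset.mem_coe.2 (Finset.mem_image_of_mem _ hc)))

/-- entire maps whose coordinates generate a tame differential field -/
def TameMap (x : Fin N → R) (χ : R →ₐ[ℂ] Ent d) (m : ℕ) : Prop :=
  Tame (Ent.P d) m (Set.range fun l => χ (x l))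

/-- `Θ` is tangent to `χ` in the `J`-directions at `z` -/
def TangentAt (x : Fin N → R) (χ : R →ₐ[ℂ] Ent d) (J : Finset (Fin d)) (Θ : LND R)
    (z : Fin d → ℂ) : Prop :=
  ∃ w : Fin d → ℂ, (∀ j, j ∉ J → w j = 0) ∧
    ∑ j, w j • dvec x χ z j = fun l => ptOf χ z (Θ.D (x l))

theorem sum_eq_sum_subtype {M : Type*} [AddCommMonoid M] (J : Finset (Fin d)) (g : Fin d → M)
    (h : ∀ j, j ∉ J → g j = 0) : ∑ j, g j = ∑ j : J, g j := by
  rw [Finset.sum_coe_sort J g]
  symm
  apply Finset.sum_subset (Finset.subset_univ _)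
  intro j _ hj
  exact h j hj

/-- the main step: overshears with respect to tangent vector fields preserve tameness -/
theorem TameMap.expHom (hx : Algebra.adjoin ℂ (Set.range x) = ⊤) {χ : R →ₐ[ℂ] Ent d}
    {J : Finset (Fin d)}
    (htame : TameMap x χ J.card) (hdep : DependsOn χ J) (himm : ∃ z, ImmAt x χ J z) (Θ : LND R)
    (htan : ∀ z, ImmAt x χ J z → TangentAt x χ J Θ z)
    {τ ρ : Pt R → ℂ} (hτ : IsHolo τ) (hρ : IsHolo ρ) (hτρ : ∀ p, Θ.act τ p = ρ p)
    (hρ0 : ∀ p, Θ.act ρ p = 0) :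
    TameMap x (Θ.expHom χ (pull χ τ hτ)) J.card := by
  classical
  obtain ⟨z₀, hz₀⟩ := himm
  -- a left inverse of the differential at `z₀`
  let L : (J → ℂ) →ₗ[ℂ] (Fin N → ℂ) :=
    { toFun := fun v => ∑ j : J, v j • dvec x χ z₀ j
      map_add' := fun v w => by
        simp only [Pi.add_apply, add_smul, Finset.sum_add_distrib]
      map_smul' := fun c v => by
        simp only [Pi.smul_apply, smul_eq_mul, mul_smul, Finset.smul_sum, RingHom.id_apply] }
  have hLinj : LinearMap.ker L = ⊥ := by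
    rw [LinearMap.ker_eq_bot']
    intro v hv
    let v' : Fin d → ℂ := fun j => if h : j ∈ J then v ⟨j, h⟩ else 0
    have h1 : v' = 0 := by
      apply hz₀
      · intro j hj; simp [v', hj]
      · rw [sum_eq_sum_subtype J _ (fun j hj => by simp [v', hj])]
        rw [← hv]
        refine Finset.sum_congr rfl fun j _ => ?_
        simp [v']
    ext j
    have := congrFun h1 j
    simpa [v'] using this
  obtain ⟨C, hC⟩ := L.exists_leftInverse_of_injective hLinj
  let c : J → Fin N → ℂ := fun i l => C (Pi.single l 1) i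
  have hCapp : ∀ (u : Fin N → ℂ) (i : J), C u i = ∑ l, c i l * u l := by
    intro u i
    conv_lhs => rw [pi_eq_sum_univ' u]
    rw [map_sum, Finset.sum_apply]
    refine Finset.sum_congr rfl fun l _ => ?_
    rw [map_smul, Pi.smul_apply, smul_eq_mul, mul_comm]
  -- matrix
  let G : Matrix J J (Ent d) := Matrix.of fun i j => ∑ l, cst (c i l) * Ent.der j (χ (x l))
  let b : J → Ent d := fun i => ∑ l, cst (c i l) * χ (Θ.D (x l))
  let Δ : Ent d := G.det
  let W : J → Ent d := Matrix.cramer G b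
  have hGW : G.mulVec W = Δ • b := Matrix.mulVec_cramer G b
  -- evaluation at a point
  let ev : (Fin d → ℂ) → (Ent d →+* ℂ) := fun z => (Ent.evalAt z : Ent d →ₐ[ℂ] ℂ)
  let Gz : (Fin d → ℂ) → Matrix J J ℂ := fun z => (ev z).mapMatrix G
  have hGz : ∀ z i j, Gz z i j = C (dvec x χ z j) i := by
    intro z i j
    rw [hCapp]
    change ev z (∑ l, cst (c i l) * Ent.der j (χ (x l))) = _
    rw [map_sum]
    rfl
  have hbz : ∀ z i, ev z (b i) = C (fun l => ptOf χ z (Θ.D (x l))) i := by
    intro z i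
    rw [hCapp]
    change ev z (∑ l, cst (c i l) * χ (Θ.D (x l))) = _
    rw [map_sum]
    rfl
  have hdetz : ∀ z, ev z Δ = (Gz z).det := fun z => RingHom.map_det (ev z) G
  have hGW' : ∀ z (i : J), ∑ j : J, Gz z i j * ev z (W j) = ev z Δ * ev z (b i) := by
    intro z i
    have h1 := congrArg (ev z) (congrFun hGW i)
    rw [Matrix.mulVec, dotProduct, map_sum, Pi.smul_apply, smul_eq_mul, map_mul] at h1
    rw [← h1]
    refine Finset.sum_congr rfl fun j _ => ?_
    rw [map_mul]
    rfl
  -- `Δ(z₀) = 1`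
  have hG0 : Gz z₀ = 1 := by
    ext i j
    rw [hGz]
    have h1 : dvec x χ z₀ j = L (Pi.single j 1) := by
      change _ = ∑ k : J, (Pi.single j 1 : J → ℂ) k • dvec x χ z₀ k
      rw [Finset.sum_eq_single j]
      · simp
      · intro k _ hk; simp [Pi.single_eq_of_ne hk]
      · intro h; exact absurd (Finset.mem_univ _) h
    rw [h1]
    have h2 := congrArg (fun f : (J → ℂ) →ₗ[ℂ] (J → ℂ) => f (Pi.single j 1) i) hC
    simp only [LinearMap.comp_apply, LinearMap.id_apply] at h2
    rw [h2, Matrix.one_apply, Pi.single_apply]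
  have hΔ0 : Δ ≠ 0 := by
    intro h
    have h1 := hdetz z₀
    rw [hG0, Matrix.det_one, h, map_zero] at h1
    exact zero_ne_one h1
  -- at points with `Δ(z) ≠ 0`
  have hpt : ∀ z, ev z Δ ≠ 0 → ImmAt x χ J z ∧
      (∑ j : J, ev z (W j) • dvec x χ z j = ev z Δ • fun l => ptOf χ z (Θ.D (x l))) := by
    intro z hz
    have hdet : (Gz z).det ≠ 0 := by rw [← hdetz]; exact hz
    have hinj : ∀ v : J → ℂ, (∀ i, ∑ j : J, Gz z i j * v j = 0) → v = 0 := by
      intro v hv
      exact Matrix.eq_zero_of_mulVec_eq_zero hdet (funext fun i => hv i)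
    have himm : ImmAt x χ J z := by
      intro v hv hv0
      rw [sum_eq_sum_subtype J _ (fun j hj => by rw [hv j hj, zero_smul])] at hv0
      have h1 : (fun j : J => v j) = 0 := by
        apply hinj
        intro i
        have h2 := congrFun (congrArg C hv0) i
        rw [map_sum, map_zero, Finset.sum_apply] at h2
        refine Eq.trans ?_ h2
        refine Finset.sum_congr rfl fun j _ => ?_
        rw [map_smul, Pi.smul_apply, smul_eq_mul, hGz, mul_comm]
      ext j
      by_cases hj : j ∈ J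
      · exact congrFun h1 ⟨j, hj⟩
      · exact hv j hj
    refine ⟨himm, ?_⟩
    obtain ⟨w, hw, hw1⟩ := htan z himm
    rw [sum_eq_sum_subtype J _ (fun j hj => by rw [hw j hj, zero_smul])] at hw1
    have h3 : (fun j : J => ev z (W j) - ev z Δ * w j) = 0 := by
      apply hinj
      intro i
      have h4 : ∑ j : J, Gz z i j * w j = ev z (b i) := by
        rw [hbz, ← hw1, map_sum, Finset.sum_apply]
        refine Finset.sum_congr rfl fun j _ => ?_
        rw [map_smul, Pi.smul_apply, smul_eq_mul, hGz, mul_comm]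
      calc ∑ j : J, Gz z i j * (ev z (W j) - ev z Δ * w j)
          = ∑ j : J, Gz z i j * ev z (W j) - ev z Δ * ∑ j : J, Gz z i j * w j := by
            rw [Finset.mul_sum, ← Finset.sum_sub_distrib]
            refine Finset.sum_congr rfl fun j _ => ?_
            ring
        _ = 0 := by rw [hGW', h4, sub_self]
    rw [← hw1, Finset.smul_sum]
    refine Finset.sum_congr rfl fun j _ => ?_
    rw [smul_smul]
    congr 1
    have := congrFun h3 j
    exact sub_eq_zero.1 this
  -- extend `W` by zero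
  let W' : Fin d → Ent d := fun j => if h : j ∈ J then W ⟨j, h⟩ else 0
  have hW'J : ∀ j : J, W' j = W j := fun j => by simp [W']
  -- the identity for holomorphic functions
  have hholo : ∀ (f : Pt R → ℂ) (hf : IsHolo f) (g : Pt R → ℂ) (hg : IsHolo g),
      (∀ p, Θ.act f p = g p) →
      ∑ j ∈ J, W' j * Ent.der j (pull χ f hf) = Δ * pull χ g hg := by
    intro f hf g hg hfg
    have h1 : Δ * (∑ j ∈ J, W' j * Ent.der j (pull χ f hf) - Δ * pull χ g hg) = 0 := by
      refine Ent.ext fun z => ?_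
      change ev z (Δ * (∑ j ∈ J, W' j * Ent.der j (pull χ f hf) - Δ * pull χ g hg)) = 0
      rw [map_mul]
      by_cases hz : ev z Δ = 0
      · rw [hz, zero_mul]
      · obtain ⟨_, h2⟩ := hpt z hz
        have h3 := sum_der_pull_eq_act hx Θ χ hf (z := z) (w := fun j => ev z (W' j)) (Δ := ev z Δ)
          (by
            rw [sum_eq_sum_subtype J _ (fun j hj => by simp [W', hj]), ← h2]
            exact Finset.sum_congr rfl fun j _ => by rw [hW'J])
        rw [sum_eq_sum_subtype J _ (fun j hj => by simp [W', hj])] at h3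
        rw [map_sub, map_sum, map_mul, ← Finset.sum_coe_sort J]
        have h4 : ∑ j : J, ev z (W' j * Ent.der j (pull χ f hf)) = ev z Δ * Θ.act f (ptOf χ z) := by
          rw [← h3]
          exact Finset.sum_congr rfl fun j _ => by rw [map_mul]; rfl
        rw [h4, hfg]
        change _ * (_ - ev z Δ * g (ptOf χ z)) = 0
        rw [sub_self, mul_zero]
    have h2 := (mul_eq_zero.1 h1).resolve_left hΔ0
    exact sub_eq_zero.1 h2
  -- constants
  obtain ⟨K, hK⟩ := Θ.exists_consts hx
  let K' : Finset ℂ := K ∪ Finset.univ.biUnion fun i : J => Finset.univ.image fun l => c i l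
  obtain ⟨B', hB'tame, hB'sub, hB'c⟩ := tame_const htame K'
  have hχB' : ∀ l, χ (x l) ∈ Sat B' := fun l => hB'sub (Set.mem_range_self l)
  have hcB' : ∀ i l, (cst (c i l) : Ent d) ∈ Sat B' := fun i l => hB'c _
    (Finset.mem_union_right _ (Finset.mem_biUnion.2 ⟨i, Finset.mem_univ i,
      Finset.mem_image_of_mem _ (Finset.mem_univ l)⟩))
  have hKB' : ∀ c ∈ K, (cst c : Ent d) ∈ Sat B' := fun c hc => hB'c _ (Finset.mem_union_left _ hc)
  by_cases hW0 : ∀ j : J, W j = 0
  · -- `Θ` vanishes along `χ`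
    have h1 : ∀ l, χ (Θ.D (x l)) = 0 := by
      intro l
      have h2 : Δ * χ (Θ.D (x l)) = 0 := by
        refine Ent.ext fun z => ?_
        change ev z (Δ * χ (Θ.D (x l))) = 0
        rw [map_mul]
        by_cases hz : ev z Δ = 0
        · rw [hz, zero_mul]
        · obtain ⟨_, h2⟩ := hpt z hz
          rw [Finset.sum_eq_zero (fun j _ => by rw [hW0, map_zero, zero_smul])] at h2
          exact (congrFun h2 l).symm
      exact (mul_eq_zero.1 h2).resolve_left hΔ0
    have h3 : Θ.expHom χ (pull χ τ hτ) = χ := by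
      refine algHom_ext_ptOf fun z => ?_
      rw [expHom_evalAt]
      apply Θ.flow_eq_self
      apply eval_D_eq_zero hx
      intro l
      rw [ptOf_apply, h1]
      rfl
    rw [h3]
    exact htame
  · push Not at hW0
    obtain ⟨j0, hj0⟩ := hW0
    have hder : ∀ j l, Ent.der j (χ (x l)) ∈
        Sat (B' ∪ {a | ∃ i, ∃ b ∈ B', a = (Ent.P d).D i b}) := by
      intro j l
      refine derivation_mem_Sat ((Ent.P d).D j) (subset_union_left.trans (subset_Sat _))
        (fun s hs => ?_) (hχB' l)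
      exact subset_Sat _ (Set.mem_union_right _ ⟨j, s, hs, rfl⟩)
    have hle : Sat B' ≤ Sat (B' ∪ {a | ∃ i, ∃ b ∈ B', a = (Ent.P d).D i b}) :=
      Sat_mono subset_union_left
    have hGmem : ∀ i j, G i j ∈ Sat (B' ∪ {a | ∃ i, ∃ b ∈ B', a = (Ent.P d).D i b}) := by
      intro i j
      change (∑ l, cst (c i l) * Ent.der j (χ (x l))) ∈ _
      exact sum_mem fun l _ => mul_mem (hle (hcB' i l)) (hder j l)
    have hbmem : ∀ i, b i ∈ Sat (B' ∪ {a | ∃ i, ∃ b ∈ B', a = (Ent.P d).D i b}) := fun i =>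
      sum_mem fun l _ => mul_mem (hle (hcB' i l)) (hle ((hK d χ B' hχB' hKB').1 l))
    have hdetmem : ∀ M : Matrix J J (Ent d),
        (∀ i j, M i j ∈ Sat (B' ∪ {a | ∃ i, ∃ b ∈ B', a = (Ent.P d).D i b})) →
        M.det ∈ Sat (B' ∪ {a | ∃ i, ∃ b ∈ B', a = (Ent.P d).D i b}) := by
      intro M hM
      rw [Matrix.det_apply]
      refine sum_mem fun σ _ => ?_
      rw [Units.smul_def, zsmul_eq_mul]
      exact mul_mem (intCast_mem _ _) (prod_mem fun i _ => hM _ _)
    have hWmem : ∀ j : J, W j ∈ Sat (B' ∪ {a | ∃ i, ∃ b ∈ B', a = (Ent.P d).D i b}) := by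
      intro j
      change Matrix.cramer G b j ∈ _
      rw [Matrix.cramer_apply]
      apply hdetmem
      intro i k
      rw [Matrix.updateCol_apply]
      split_ifs
      · exact hbmem i
      · exact hGmem i k
    have hdep' : ∀ j, j ∉ J → ∀ (f : Pt R → ℂ) (hf : IsHolo f), Ent.der j (pull χ f hf) = 0 := by
      intro j hj f hf
      refine Ent.ext fun z => ?_
      have h1 := Ent.hasDerivAt_coord (pull χ f hf) z j 0
      have h2 : (fun s : ℂ => (pull χ f hf : (Fin d → ℂ) → ℂ) (z + s • Pi.single j 1))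
          = fun _ => f (ptOf χ z) := by
        ext s
        rw [pull_apply, ptOf_eq_of_dependsOn hdep hj]
      rw [h2] at h1
      have h3 := h1.unique (hasDerivAt_const _ _)
      simpa using h3
    have hfin := hB'tame.pde W' Δ (pull χ τ hτ) (pull χ ρ hρ) (j0 := (j0 : Fin d)) j0.2
      (by rw [hW'J]; exact hj0)
      (fun j hj => by
        have := hWmem ⟨j, hj⟩
        rwa [← hW'J] at this)
      (hdetmem G hGmem)
      (hholo τ hτ ρ hρ hτρ)
      (by
        have := hholo ρ hρ (fun _ => 0) (isHolo_const 0) hρ0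
        have h0 : pull χ (fun _ => 0) (isHolo_const 0) = 0 := Ent.ext fun z => rfl
        rw [h0, mul_zero] at this
        exact this)
      (fun j hj => ⟨hdep' j hj τ hτ, hdep' j hj ρ hρ⟩)
    refine Tame.mono ?_ hfin
    rintro _ ⟨l, rfl⟩
    have hle2 : Sat B' ≤ Sat (B' ∪ {pull χ τ hτ, pull χ ρ hρ}) := Sat_mono subset_union_left
    exact (hK d χ _ (fun l => hle2 (hχB' l)) (fun c hc => hle2 (hKB' c hc))).2 _
      (subset_Sat _ (Or.inr (Or.inl rfl))) l

end Pool.Agent.Overshear
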