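import Pool.Agent.Helper23.Overshear.Lie

/-!
# Differential operators at a point are determined by regular functions
-/

set_option autoImplicit false

noncomputable section

open Filter Topology Set

namespace Pool.Agent.Overshear

universe u

variable {d : ℕ}

/-- `f` vanishes to order `m` at `z₀` in the `J`-directions -/
def Van (J : Finset (Fin d)) (z₀ : Fin d → ℂ) : ℕ → Ent d → Prop
  | 0, _ => True
  | m + 1, f => (f : (Fin d → ℂ) → ℂ) z₀ = 0 ∧ ∀ j ∈ J, Van J z₀ m (Ent.der j f)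

section van

variable {J : Finset (Fin d)} {z₀ : Fin d → ℂ}

theorem Van.add {m : ℕ} : ∀ {f g : Ent d}, Van J z₀ m f → Van J z₀ m g → Van J z₀ m (f + g) := by
  induction m with
  | zero => intro f g _ _; trivial
  | succ m ih =>
    intro f g hf hg
    refine ⟨?_, fun j hj => ?_⟩
    · change (f : (Fin d → ℂ) → ℂ) z₀ + (g : (Fin d → ℂ) → ℂ) z₀ = 0
      rw [hf.1, hg.1, add_zero]
    · rw [map_add]; exact ih (hf.2 j hj) (hg.2 j hj)

theorem Van.smul {m : ℕ} (c : ℂ) : ∀ {f : Ent d}, Van J z₀ m f → Van J z₀ m (c • f) := by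
  induction m with
  | zero => intro f _; trivial
  | succ m ih =>
    intro f hf
    refine ⟨?_, fun j hj => ?_⟩
    · change c * (f : (Fin d → ℂ) → ℂ) z₀ = 0
      rw [hf.1, mul_zero]
    · rw [Derivation.map_smul]; exact ih (hf.2 j hj)

theorem Van.neg {m : ℕ} {f : Ent d} (h : Van J z₀ m f) : Van J z₀ m (-f) := by
  have := h.smul (-1)
  rwa [neg_one_smul] at this

theorem Van.sub {m : ℕ} {f g : Ent d} (hf : Van J z₀ m f) (hg : Van J z₀ m g) :
    Van J z₀ m (f - g) := by
  rw [sub_eq_add_neg]; exact hf.add hg.neg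

theorem Van.zero' {m : ℕ} : Van J z₀ m (0 : Ent d) := by
  induction m with
  | zero => trivial
  | succ m ih => exact ⟨rfl, fun j _ => by rw [map_zero]; exact ih⟩

theorem Van.sum {κ : Type*} (s : Finset κ) {m : ℕ} {f : κ → Ent d}
    (h : ∀ i ∈ s, Van J z₀ m (f i)) : Van J z₀ m (∑ i ∈ s, f i) := by
  classical
  induction s using Finset.induction_on with
  | empty => rw [Finset.sum_empty]; exact Van.zero'
  | insert i s hi ih =>
    rw [Finset.sum_insert hi]
    exact (h i (Finset.mem_insert_self i s)).add (ih fun j hj => h j (Finset.mem_insert_of_mem hj))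

theorem Van.pred {m : ℕ} : ∀ {f : Ent d}, Van J z₀ (m + 1) f → Van J z₀ m f := by
  induction m with
  | zero => intro f _; trivial
  | succ m ih => intro f hf; exact ⟨hf.1, fun j hj => ih (hf.2 j hj)⟩

theorem Van.mul_left {m : ℕ} : ∀ {f g : Ent d}, Van J z₀ m f → Van J z₀ m (g * f) := by
  induction m with
  | zero => intro f g _; trivial
  | succ m ih =>
    intro f g hf
    refine ⟨?_, fun j hj => ?_⟩
    · change (g : (Fin d → ℂ) → ℂ) z₀ * (f : (Fin d → ℂ) → ℂ) z₀ = 0
      rw [hf.1, mul_zero]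
    · rw [Derivation.leibniz, smul_eq_mul, smul_eq_mul, mul_comm f]
      exact (ih (hf.2 j hj)).add (ih hf.pred)

theorem Van.mul_one' {m : ℕ} : ∀ {f g : Ent d}, Van J z₀ 1 f → Van J z₀ m g →
    Van J z₀ (m + 1) (f * g) := by
  induction m with
  | zero => intro f g hf _; rw [mul_comm]; exact hf.mul_left
  | succ m ih =>
    intro f g hf hg
    refine ⟨?_, fun j hj => ?_⟩
    · change (f : (Fin d → ℂ) → ℂ) z₀ * (g : (Fin d → ℂ) → ℂ) z₀ = 0
      rw [hf.1, zero_mul]
    · rw [Derivation.leibniz, smul_eq_mul, smul_eq_mul, mul_comm g]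
      exact (ih hf (hg.2 j hj)).add hg.mul_left

/-- Euler's formula -/
theorem Van.euler {ℓ : Fin d → Ent d} (hℓ0 : ∀ j ∈ J, (ℓ j : (Fin d → ℂ) → ℂ) z₀ = 0)
    (hℓ1 : ∀ i ∈ J, ∀ j ∈ J, (Ent.der i (ℓ j) : (Fin d → ℂ) → ℂ) z₀ = if i = j then 1 else 0)
    {m : ℕ} : ∀ {f : Ent d}, Van J z₀ m f →
      Van J z₀ (m + 1) ((m : ℂ) • f - ∑ j ∈ J, ℓ j * Ent.der j f) := by
  have hval : ∀ (c : ℂ) (f : Ent d), c * (f : (Fin d → ℂ) → ℂ) z₀ = 0 →
      ((c • f - ∑ j ∈ J, ℓ j * Ent.der j f : Ent d) : (Fin d → ℂ) → ℂ) z₀ = 0 := by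
    intro c f hc
    change Ent.evalAt z₀ (c • f - ∑ j ∈ J, ℓ j * Ent.der j f) = 0
    rw [map_sub, map_sum, map_smul, Ent.evalAt_apply, smul_eq_mul, hc, zero_sub, neg_eq_zero]
    refine Finset.sum_eq_zero fun j hj => ?_
    rw [map_mul, Ent.evalAt_apply, hℓ0 j hj, zero_mul]
  induction m with
  | zero =>
    intro f _
    exact ⟨hval _ f (by simp), fun _ _ => trivial⟩
  | succ m ih =>
    intro f hf
    refine ⟨hval _ f (by rw [hf.1, mul_zero]), fun i hi => ?_⟩
    have h1 : Ent.der i (((m + 1 : ℕ) : ℂ) • f - ∑ j ∈ J, ℓ j * Ent.der j f)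
        = ((m : ℂ) • Ent.der i f - ∑ j ∈ J, ℓ j * Ent.der j (Ent.der i f))
          - ∑ j ∈ J, (Ent.der i (ℓ j) - cst (if i = j then 1 else 0)) * Ent.der j f := by
      have e1 : ∀ j ∈ J, Ent.der i (ℓ j * Ent.der j f)
          = ℓ j * Ent.der j (Ent.der i f) + Ent.der i (ℓ j) * Ent.der j f := by
        intro j _
        rw [Derivation.leibniz, smul_eq_mul, smul_eq_mul, Ent.der_comm i j, mul_comm (Ent.der j f)]
      have e2 : ∑ j ∈ J, cst (if i = j then 1 else 0) * Ent.der j f = Ent.der i f := by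
        rw [Finset.sum_eq_single i]
        · rw [if_pos rfl]
          have : (cst (1 : ℂ) : Ent d) = 1 := map_one _
          rw [this, one_mul]
        · intro j _ hj
          rw [if_neg (Ne.symm hj)]
          have : (cst (0 : ℂ) : Ent d) = 0 := map_zero _
          rw [this, zero_mul]
        · intro h; exact absurd hi h
      rw [map_sub, map_sum, Finset.sum_congr rfl e1, Derivation.map_smul]
      simp only [sub_mul, Finset.sum_sub_distrib, Finset.sum_add_distrib, e2]
      have e3 : (((m + 1 : ℕ) : ℂ)) • Ent.der i f = (m : ℂ) • Ent.der i f + Ent.der i f := by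
        push_cast
        rw [add_smul, one_smul]
      rw [e3]
      ring
    rw [h1]
    refine (ih (hf.2 i hi)).sub (Van.sum _ fun j hj => ?_)
    refine Van.mul_one' ⟨?_, fun _ _ => trivial⟩ (hf.2 j hj)
    change (Ent.der i (ℓ j) : (Fin d → ℂ) → ℂ) z₀ - (if i = j then 1 else 0) = 0
    rw [hℓ1 i hi j hj, sub_self]

theorem Van.pd_eq_zero {M : Multiset J} : ∀ {m : ℕ} {f : Ent d}, Van J z₀ m f → M.card < m →
    ((Ent.P d).pd (M.map Subtype.val) f : (Fin d → ℂ) → ℂ) z₀ = 0 := by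
  induction M using Multiset.induction_on with
  | empty =>
    intro m f hf hm
    obtain ⟨k, rfl⟩ := Nat.exists_eq_succ_of_ne_zero (show m ≠ 0 by rintro rfl; simp at hm)
    exact hf.1
  | cons j M ih =>
    intro m f hf hm
    rw [Multiset.card_cons] at hm
    obtain ⟨k, rfl⟩ := Nat.exists_eq_succ_of_ne_zero (show m ≠ 0 by omega)
    rw [Multiset.map_cons, CommDer.pd_cons, ← CommDer.pd_D]
    exact ih (hf.2 j j.2) (by omega)

end van

section surj

variable {R : Type u} [CommRing R] [Algebra ℂ R] {N : ℕ} {x : Fin N → R}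

/-- regular functions giving coordinates at a point where `χ` is an immersion -/
theorem ImmAt.exists_coords {χ : R →ₐ[ℂ] Ent d} {J : Finset (Fin d)} {z₀ : Fin d → ℂ}
    (h : ImmAt x χ J z₀) : ∃ y : Fin d → R, (∀ j ∈ J, (χ (y j) : (Fin d → ℂ) → ℂ) z₀ = 0) ∧
      (∀ i ∈ J, ∀ j ∈ J, (Ent.der i (χ (y j)) : (Fin d → ℂ) → ℂ) z₀ = if i = j then 1 else 0) := by
  classical
  let L : (J → ℂ) →ₗ[ℂ] (Fin N → ℂ) :=
    { toFun := fun v => ∑ j : J, v j • dvec x χ z₀ j
      map_add' := fun v w => by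
        simp only [Pi.add_apply, add_smul, Finset.sum_add_distrib]
      map_smul' := fun c v => by
        simp only [Pi.smul_apply, smul_eq_mul, mul_smul, Finset.smul_sum, RingHom.id_apply] }
  have hLinj : LinearMap.ker L = ⊥ := by
    rw [LinearMap.ker_eq_bot']
    intro v hv
    let v' : Fin d → ℂ := fun j => if h : j ∈ J then v ⟨j, h⟩ else 0
    have h1 : v' = 0 := by
      apply h
      · intro j hj; simp [v', hj]
      · rw [sum_eq_sum_subtype J _ (fun j hj => by simp [v', hj])]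
        rw [← hv]
        refine Finset.sum_congr rfl fun j _ => ?_
        simp [v']
    ext j
    have := congrFun h1 j
    simpa [v'] using this
  obtain ⟨C, hC⟩ := L.exists_leftInverse_of_injective hLinj
  let c : Fin d → Fin N → ℂ := fun i l => if h : i ∈ J then C (Pi.single l 1) ⟨i, h⟩ else 0
  have hCapp : ∀ (u : Fin N → ℂ) (i : J), C u i = ∑ l, c i l * u l := by
    intro u i
    conv_lhs => rw [pi_eq_sum_univ' u]
    rw [map_sum, Finset.sum_apply]
    refine Finset.sum_congr rfl fun l _ => ?_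
    rw [map_smul, Pi.smul_apply, smul_eq_mul, mul_comm]
    simp [c]
  let y : Fin d → R := fun j => ∑ l, c j l • (x l - algebraMap ℂ R (ptOf χ z₀ (x l)))
  refine ⟨y, fun j hj => ?_, fun i hi j hj => ?_⟩
  · change ptOf χ z₀ (y j) = 0
    simp only [y, map_sum, map_smul, map_sub]
    refine Finset.sum_eq_zero fun l _ => ?_
    have : ptOf χ z₀ (algebraMap ℂ R (ptOf χ z₀ (x l))) = ptOf χ z₀ (x l) :=
      AlgHomClass.commutes _ _
    rw [this, sub_self, smul_zero]
  · have h1 : Ent.der i (χ (y j)) = ∑ l, c j l • Ent.der i (χ (x l)) := by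
      simp only [y, map_sum, map_smul, map_sub, Derivation.map_smul]
      refine Finset.sum_congr rfl fun l _ => ?_
      rw [AlgHom.commutes, Derivation.map_algebraMap, sub_zero]
    rw [h1]
    change Ent.evalAt z₀ (∑ l, c j l • Ent.der i (χ (x l))) = _
    rw [map_sum]
    have h2 : ∑ l, Ent.evalAt z₀ (c j l • Ent.der i (χ (x l))) = C (dvec x χ z₀ i) ⟨j, hj⟩ := by
      rw [hCapp]
      rfl
    rw [h2]
    have h3 : dvec x χ z₀ i = L (Pi.single ⟨i, hi⟩ 1) := by
      change _ = ∑ k : J, (Pi.single ⟨i, hi⟩ 1 : J → ℂ) k • dvec x χ z₀ k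
      rw [Finset.sum_eq_single ⟨i, hi⟩]
      · simp
      · intro k _ hk; simp [Pi.single_eq_of_ne hk]
      · intro h; exact absurd (Finset.mem_univ _) h
    rw [h3]
    have h4 := congrArg (fun f : (J → ℂ) →ₗ[ℂ] (J → ℂ) => f (Pi.single ⟨i, hi⟩ 1) ⟨j, hj⟩) hC
    simp only [LinearMap.comp_apply, LinearMap.id_apply] at h4
    rw [h4, Pi.single_apply]
    by_cases hij : i = j
    · subst hij; simp
    · rw [if_neg hij, if_neg]
      intro h; exact hij (congrArg Subtype.val h).symm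

/-- every jet is the jet of `χ(h) g` with a regular function `h`, if `g(z₀) ≠ 0` -/
theorem exists_van_sub {χ : R →ₐ[ℂ] Ent d} {J : Finset (Fin d)} {z₀ : Fin d → ℂ}
    (h : ImmAt x χ J z₀) {g : Ent d} (hg : (g : (Fin d → ℂ) → ℂ) z₀ ≠ 0) (m : ℕ) :
    ∀ f : Ent d, ∃ a : R, Van J z₀ m (f - χ a * g) := by
  obtain ⟨y, hy0, hy1⟩ := h.exists_coords
  have step : ∀ (m : ℕ) (f : Ent d), Van J z₀ m f → ∃ a : R, Van J z₀ (m + 1) (f - χ a * g) := by
    intro m
    induction m with
    | zero =>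
      intro f _
      refine ⟨algebraMap ℂ R ((f : (Fin d → ℂ) → ℂ) z₀ / (g : (Fin d → ℂ) → ℂ) z₀), ?_,
        fun _ _ => trivial⟩
      rw [AlgHom.commutes]
      change (f : (Fin d → ℂ) → ℂ) z₀ - ((f : (Fin d → ℂ) → ℂ) z₀ / (g : (Fin d → ℂ) → ℂ) z₀)
        * (g : (Fin d → ℂ) → ℂ) z₀ = 0
      rw [div_mul_cancel₀ _ hg, sub_self]
    | succ m ih =>
      intro f hf
      choose! a ha using fun (j : Fin d) (hj : j ∈ J) => ih (Ent.der j f) (hf.2 j hj)
      have h1 := Van.euler (ℓ := fun j => χ (y j)) hy0 hy1 hf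
      have hm : ((m + 1 : ℕ) : ℂ) ≠ 0 := Nat.cast_ne_zero.2 (Nat.succ_ne_zero m)
      refine ⟨((m + 1 : ℕ) : ℂ)⁻¹ • ∑ j ∈ J, y j * a j, ?_⟩
      have h2 : Van J z₀ (m + 1 + 1) (∑ j ∈ J, χ (y j) * (Ent.der j f - χ (a j) * g)) :=
        Van.sum _ fun j hj => Van.mul_one' ⟨hy0 j hj, fun _ _ => trivial⟩ (ha j hj)
      have h3 := (h1.add h2).smul (((m + 1 : ℕ) : ℂ)⁻¹)
      convert! h3 using 1
      have h4 : ∑ j ∈ J, χ (y j) * (Ent.der j f - χ (a j) * g)
          = ∑ j ∈ J, χ (y j) * Ent.der j f - (∑ j ∈ J, χ (y j) * χ (a j)) * g := by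
        rw [Finset.sum_mul, ← Finset.sum_sub_distrib]
        exact Finset.sum_congr rfl fun j _ => by ring
      rw [h4, map_smul, map_sum, sub_add_sub_cancel, smul_sub, smul_smul, inv_mul_cancel₀ hm,
        one_smul, smul_mul_assoc]
      simp only [map_mul]
  induction m with
  | zero => intro f; exact ⟨0, trivial⟩
  | succ m ih =>
    intro f
    obtain ⟨a, ha⟩ := ih f
    obtain ⟨b, hb⟩ := step m _ ha
    refine ⟨a + b, ?_⟩
    have : f - χ (a + b) * g = f - χ a * g - χ b * g := by rw [map_add]; ring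
    rw [this]; exact hb

theorem prod_map_X {σ : Type*} [DecidableEq σ] (M : Multiset σ) :
    (M.map (MvPolynomial.X : σ → MvPolynomial σ ℂ)).prod
      = MvPolynomial.monomial (Multiset.toFinsupp M) 1 := by
  induction M using Multiset.induction_on with
  | empty => simp
  | cons j M ih =>
    rw [Multiset.map_cons, Multiset.prod_cons, ih, ← Multiset.singleton_add, map_add,
      Multiset.toFinsupp_singleton, MvPolynomial.X, MvPolynomial.monomial_mul, one_mul]

/-- linear independence of the functionals `∂^M|_{z₀}` on functions of the form `χ(h) g`. -/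
theorem coeff_eq_zero {χ : R →ₐ[ℂ] Ent d} {J : Finset (Fin d)} {z₀ : Fin d → ℂ}
    (h : ImmAt x χ J z₀) {g : Ent d} (hg : (g : (Fin d → ℂ) → ℂ) z₀ ≠ 0)
    (T : Finset (Multiset J)) (c : Multiset J → ℂ)
    (hc : ∀ a : R, ∑ M ∈ T, c M *
      ((Ent.P d).pd (M.map Subtype.val) (χ a * g) : (Fin d → ℂ) → ℂ) z₀ = 0) :
    ∀ M ∈ T, c M = 0 := by
  classical
  have h1 : ∀ f : Ent d, ∑ M ∈ T, c M *
      ((Ent.P d).pd (M.map Subtype.val) f : (Fin d → ℂ) → ℂ) z₀ = 0 := by
    intro f
    obtain ⟨a, ha⟩ := exists_van_sub h hg (T.sup Multiset.card + 1) f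
    have h2 : ∀ M ∈ T, c M * ((Ent.P d).pd (M.map Subtype.val) f : (Fin d → ℂ) → ℂ) z₀
        = c M * ((Ent.P d).pd (M.map Subtype.val) (χ a * g) : (Fin d → ℂ) → ℂ) z₀ := by
      intro M hM
      have h3 := ha.pd_eq_zero (M := M) (Nat.lt_succ_of_le (Finset.le_sup (f := Multiset.card) hM))
      rw [CommDer.pd_sub] at h3
      have h4 : ((Ent.P d).pd (M.map Subtype.val) f : (Fin d → ℂ) → ℂ) z₀
          - ((Ent.P d).pd (M.map Subtype.val) (χ a * g) : (Fin d → ℂ) → ℂ) z₀ = 0 := h3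
      rw [sub_eq_zero.1 h4]
    rw [Finset.sum_congr rfl h2]
    exact hc a
  -- exponentials
  let p : MvPolynomial J ℂ := ∑ M ∈ T, MvPolynomial.monomial (Multiset.toFinsupp M) (c M)
  have hp : p = 0 := by
    apply MvPolynomial.funext
    intro l
    let l' : Fin d → ℂ := fun j => if h : j ∈ J then l ⟨j, h⟩ else 0
    have h2 := h1 (Ent.expl l')
    have h3 : ∀ M : Multiset J, ((Ent.P d).pd (M.map Subtype.val) (Ent.expl l') :
        (Fin d → ℂ) → ℂ) z₀ = (M.map l).prod * (Ent.expl l' : (Fin d → ℂ) → ℂ) z₀ := by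
      intro M
      rw [Ent.pd_expl, Multiset.map_map]
      have : (l' ∘ Subtype.val : J → ℂ) = l := by
        ext j; simp [l']
      rw [this]
      rfl
    have h4 : (Ent.expl l' : (Fin d → ℂ) → ℂ) z₀ ≠ 0 := by
      rw [Ent.expl_apply]; exact Complex.exp_ne_zero _
    have h5 : ∀ M : Multiset J, MvPolynomial.eval l
        (MvPolynomial.monomial (Multiset.toFinsupp M) (c M)) = c M * (M.map l).prod := by
      intro M
      have : MvPolynomial.monomial (Multiset.toFinsupp M) (c M)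
          = MvPolynomial.C (c M) * (M.map (MvPolynomial.X : J → MvPolynomial J ℂ)).prod := by
        rw [prod_map_X, MvPolynomial.C_mul_monomial, mul_one]
      rw [this, map_mul, MvPolynomial.eval_C, map_multiset_prod, Multiset.map_map]
      congr 2
      ext1
      simp
    rw [map_zero, map_sum, Finset.sum_congr rfl fun M _ => h5 M]
    simp only [h3, ← mul_assoc] at h2
    rw [← Finset.sum_mul] at h2
    exact (mul_eq_zero.1 h2).resolve_right h4
  intro M hM
  have h6 := congrArg (MvPolynomial.coeff (Multiset.toFinsupp M)) hp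
  simp only [p, MvPolynomial.coeff_sum, MvPolynomial.coeff_monomial, MvPolynomial.coeff_zero] at h6
  rw [Finset.sum_eq_single M] at h6
  · simpa using h6
  · intro M' _ hM'
    rw [if_neg]
    intro h; exact hM' (Multiset.toFinsupp.injective h)
  · intro h; exact absurd hM h

end surj

end Pool.Agent.Overshear
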