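import Pool.Agent.Helper23.Overshear.Sat

/-!
# Iterated commuting derivations and tame families
-/

set_option autoImplicit false

noncomputable section

namespace Pool.Agent.Overshear

variable {ι : Type*} {A : Type*} [CommRing A] [Algebra ℚ A]

/-- A family of pairwise commuting derivations. -/
structure CommDer (ι : Type*) (A : Type*) [CommRing A] [Algebra ℚ A] where
  /-- the derivations -/
  D : ι → Derivation ℚ A A
  /-- they commute -/
  comm : ∀ i j a, D i (D j a) = D j (D i a)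

namespace CommDer

variable (P : CommDer ι A)

/-- the iterated derivation `∂^M`, where `M` is a finite multiset of indices -/
def pd (M : Multiset ι) (f : A) : A :=
  haveI : LeftCommutative (fun (j : ι) (g : A) => P.D j g) := ⟨fun i j a => P.comm i j a⟩
  M.foldr (fun j g => P.D j g) f

@[simp] theorem pd_zero (f : A) : P.pd 0 f = f := rfl

@[simp] theorem pd_cons (j : ι) (M : Multiset ι) (f : A) :
    P.pd (j ::ₘ M) f = P.D j (P.pd M f) := by
  have : LeftCommutative (fun (j : ι) (g : A) => P.D j g) := ⟨fun i j a => P.comm i j a⟩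
  exact Multiset.foldr_cons _ _ _ _

theorem pd_D (M : Multiset ι) (j : ι) (f : A) : P.pd M (P.D j f) = P.D j (P.pd M f) := by
  induction M using Multiset.induction_on with
  | empty => rfl
  | cons i M ih => rw [pd_cons, pd_cons, ih, P.comm]

theorem pd_map_zero (M : Multiset ι) : P.pd M (0 : A) = 0 := by
  induction M using Multiset.induction_on with
  | empty => rfl
  | cons i M ih => rw [pd_cons, ih, map_zero]

theorem pd_add (M : Multiset ι) (f g : A) : P.pd M (f + g) = P.pd M f + P.pd M g := by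
  induction M using Multiset.induction_on with
  | empty => rfl
  | cons i M ih => simp only [pd_cons, ih, map_add]

theorem pd_sub (M : Multiset ι) (f g : A) : P.pd M (f - g) = P.pd M f - P.pd M g := by
  induction M using Multiset.induction_on with
  | empty => rfl
  | cons i M ih => simp only [pd_cons, ih, map_sub]

end CommDer

variable [IsDomain A]

/-- the families of functions generating a differential field with slowly growing
number of generators -/
def Tame (P : CommDer ι A) (m : ℕ) (B : Set A) : Prop :=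
  ∃ (c : ℕ) (S : ℕ → Finset A), (∀ k, (S k : Set A) ⊆ Sat (S (k + 1) : Set A)) ∧
    (∀ k j, ∀ s ∈ S k, P.D j s ∈ Sat (S (k + 1) : Set A)) ∧
    B ⊆ Sat (S 0 : Set A) ∧ ∀ k, (S k).card ≤ c * (k + 1) ^ (m - 1)

theorem Tame.mono {P : CommDer ι A} {m : ℕ} {B B' : Set A} (hB : B ⊆ Sat B') (h : Tame P m B') :
    Tame P m B := by
  obtain ⟨c, S, h1, h2, h3, h4⟩ := h
  exact ⟨c, S, h1, h2, hB.trans (Sat_le h3), h4⟩

theorem Tame.succ {P : CommDer ι A} {m : ℕ} {B : Set A} (h : Tame P m B) :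
    Tame P (m + 1) B := by
  obtain ⟨c, S, h1, h2, h3, h4⟩ := h
  refine ⟨c, S, h1, h2, h3, fun k => (h4 k).trans ?_⟩
  exact Nat.mul_le_mul_left _ (Nat.pow_le_pow_right (Nat.succ_pos _) (by omega))

theorem Tame.union {P : CommDer ι A} {m : ℕ} {B : Set A} (h : Tame P m B) (C : Finset A)
    (hC : ∀ c ∈ C, ∀ j, P.D j c ∈ Sat (∅ : Set A)) : Tame P m (B ∪ (C : Set A)) := by
  classical
  obtain ⟨c, S, h1, h2, h3, h4⟩ := h
  refine ⟨c + C.card, fun k => S k ∪ C, ?_, ?_, ?_, ?_⟩
  · intro k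
    rw [Finset.coe_union, Finset.coe_union]
    apply Set.union_subset
    · exact (h1 k).trans (Sat_mono Set.subset_union_left)
    · exact Set.subset_union_right.trans (subset_Sat _)
  · intro k j s hs
    rw [Finset.coe_union]
    rcases Finset.mem_union.1 hs with hs | hs
    · exact Sat_mono Set.subset_union_left (h2 k j s hs)
    · exact Sat_mono (Set.empty_subset _) (hC s hs j)
  · rw [Finset.coe_union]
    apply Set.union_subset
    · exact h3.trans (Sat_mono Set.subset_union_left)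
    · exact Set.subset_union_right.trans (subset_Sat _)
  · intro k
    refine (Finset.card_union_le _ _).trans ?_
    rw [add_mul]
    refine add_le_add (h4 k) (Nat.le_mul_of_pos_right _ (pow_pos (Nat.succ_pos _) _))

section pde

theorem Sat_chain {S : ℕ → Finset A} (h : ∀ k, (S k : Set A) ⊆ Sat (S (k + 1) : Set A))
    {k l : ℕ} (hkl : k ≤ l) : Sat (S k : Set A) ≤ Sat (S l : Set A) := by
  induction l, hkl using Nat.le_induction with
  | base => exact le_rfl
  | succ l _ ih => exact ih.trans (Sat_le (h l))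

/-- multisets supported in `J` with all multiplicities `≤ k`. -/
def boxM [DecidableEq ι] (J : Finset ι) (k : ℕ) : Finset (Multiset ι) :=
  (Finset.univ : Finset (J → Fin (k + 1))).image
    (fun β => ∑ j : J, (β j : ℕ) • ({(j : ι)} : Multiset ι))

theorem card_boxM_le [DecidableEq ι] (J : Finset ι) (k : ℕ) :
    (boxM J k).card ≤ (k + 1) ^ J.card := by
  refine Finset.card_image_le.trans ?_
  simp

theorem mem_boxM [DecidableEq ι] {J : Finset ι} {k : ℕ} {M : Multiset ι} (hM : ∀ j ∈ M, j ∈ J)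
    (hk : M.card ≤ k) : M ∈ boxM J k := by
  rw [boxM, Finset.mem_image]
  refine ⟨fun j => ⟨M.count (j : ι), Nat.lt_succ_of_le ((Multiset.count_le_card _ _).trans hk)⟩,
    Finset.mem_univ _, ?_⟩
  ext i
  rw [Multiset.count_sum']
  simp only [Multiset.count_nsmul, Multiset.count_singleton]
  by_cases hi : i ∈ J
  · rw [Finset.sum_eq_single (⟨i, hi⟩ : J)]
    · simp
    · intro b _ hb
      rw [if_neg, mul_zero]
      intro h; apply hb; exact Subtype.ext h.symm
    · intro h; exact absurd (Finset.mem_univ _) h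
  · rw [Finset.sum_eq_zero]
    · symm
      rw [Multiset.count_eq_zero]
      exact fun h => hi (hM i h)
    · intro b _
      rw [if_neg, mul_zero]
      intro h; apply hi; rw [h]; exact b.2

/-- The key step: if a tame family determines a derivation `∑ Wⱼ ∂ⱼ / Δ`, which is not zero, and
`σ`, `ϱ` satisfy `(∑ Wⱼ ∂ⱼ) σ = Δ ϱ`, `(∑ Wⱼ ∂ⱼ) ϱ = 0`, then the family stays tame after adding
`σ` and `ϱ`. -/
theorem Tame.pde {P : CommDer ι A} {J : Finset ι} {B : Set A} (h : Tame P J.card B)
    (W : ι → A) (Δ σ ϱ : A) {j0 : ι} (hj0 : j0 ∈ J) (hW0 : W j0 ≠ 0)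
    (hW : ∀ j ∈ J, W j ∈ Sat (B ∪ {a | ∃ i, ∃ b ∈ B, a = P.D i b}))
    (hΔ : Δ ∈ Sat (B ∪ {a | ∃ i, ∃ b ∈ B, a = P.D i b}))
    (h1 : ∑ j ∈ J, W j * P.D j σ = Δ * ϱ) (h2 : ∑ j ∈ J, W j * P.D j ϱ = 0)
    (h3 : ∀ j, j ∉ J → P.D j σ = 0 ∧ P.D j ϱ = 0) :
    Tame P J.card (B ∪ {σ, ϱ}) := by
  classical
  obtain ⟨c, S, hS1, hS2, hS3, hS4⟩ := h
  -- generators
  let J' := J.erase j0
  have hJ' : J'.card = J.card - 1 := Finset.card_erase_of_mem hj0
  let T : ℕ → Finset (Multiset ι) := fun k =>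
    (boxM J' k).filter (fun M => M.card ≤ k ∧ ∀ j ∈ M, j ∈ J')
  have hT : ∀ k M, M ∈ T k ↔ M.card ≤ k ∧ ∀ j ∈ M, j ∈ J' := by
    intro k M
    simp only [T, Finset.mem_filter]
    exact ⟨fun h => h.2, fun h => ⟨mem_boxM h.2 h.1, h⟩⟩
  have hTcard : ∀ k, (T k).card ≤ (k + 1) ^ (J.card - 1) := fun k =>
    (Finset.card_filter_le _ _).trans (hJ' ▸ card_boxM_le J' k)
  let S' : ℕ → Finset A := fun k =>
    S k ∪ ((T k).image (fun M => P.pd M σ) ∪ (T k).image (fun M => P.pd M ϱ))
  have hSS' : ∀ k, Sat (S k : Set A) ≤ Sat (S' k : Set A) := fun k =>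
    Sat_mono (Finset.coe_subset.2 Finset.subset_union_left)
  have hσmem : ∀ k M, M ∈ T k → P.pd M σ ∈ Sat (S' k : Set A) := fun k M hM =>
    subset_Sat _ (Finset.mem_coe.2 (Finset.mem_union_right _ (Finset.mem_union_left _
      (Finset.mem_image_of_mem _ hM))))
  have hϱmem : ∀ k M, M ∈ T k → P.pd M ϱ ∈ Sat (S' k : Set A) := fun k M hM =>
    subset_Sat _ (Finset.mem_coe.2 (Finset.mem_union_right _ (Finset.mem_union_right _
      (Finset.mem_image_of_mem _ hM))))
  have hTmono : ∀ k M, M ∈ T k → M ∈ T (k + 1) := fun k M hM => by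
    rw [hT] at hM ⊢; exact ⟨hM.1.trans (Nat.le_succ _), hM.2⟩
  have hmem : ∀ k s, s ∈ S' k → s ∈ S k ∨ (∃ M ∈ T k, s = P.pd M σ) ∨
      (∃ M ∈ T k, s = P.pd M ϱ) := by
    intro k s hs
    simp only [S', Finset.mem_union, Finset.mem_image] at hs
    rcases hs with hs | ⟨M, hM, rfl⟩ | ⟨M, hM, rfl⟩
    · exact Or.inl hs
    · exact Or.inr (Or.inl ⟨M, hM, rfl⟩)
    · exact Or.inr (Or.inr ⟨M, hM, rfl⟩)
  -- (i)
  have hi : ∀ k, (S' k : Set A) ⊆ Sat (S' (k + 1) : Set A) := by
    intro k s hs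
    rcases hmem k s hs with hs | ⟨M, hM, rfl⟩ | ⟨M, hM, rfl⟩
    · exact hSS' _ (hS1 k hs)
    · exact hσmem _ _ (hTmono _ _ hM)
    · exact hϱmem _ _ (hTmono _ _ hM)
  -- the derivations `∂ⱼ`, `j ≠ j0`
  have hD1 : ∀ k j, j ≠ j0 → ∀ s ∈ S' k, P.D j s ∈ Sat (S' (k + 1) : Set A) := by
    intro k j hj s hs
    rcases hmem k s hs with hs | ⟨M, hM, rfl⟩ | ⟨M, hM, rfl⟩
    · exact hSS' _ (hS2 k j s hs)
    · by_cases hjJ : j ∈ J
      · rw [← P.pd_cons]
        apply hσmem
        rw [hT] at hM ⊢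
        refine ⟨by rw [Multiset.card_cons]; omega, fun i hi => ?_⟩
        rcases Multiset.mem_cons.1 hi with rfl | hi
        · exact Finset.mem_erase.2 ⟨hj, hjJ⟩
        · exact hM.2 i hi
      · rw [← P.pd_D, (h3 j hjJ).1, P.pd_map_zero]; exact zero_mem _
    · by_cases hjJ : j ∈ J
      · rw [← P.pd_cons]
        apply hϱmem
        rw [hT] at hM ⊢
        refine ⟨by rw [Multiset.card_cons]; omega, fun i hi => ?_⟩
        rcases Multiset.mem_cons.1 hi with rfl | hi
        · exact Finset.mem_erase.2 ⟨hj, hjJ⟩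
        · exact hM.2 i hi
      · rw [← P.pd_D, (h3 j hjJ).2, P.pd_map_zero]; exact zero_mem _
  have hD1' : ∀ k j, j ≠ j0 → ∀ a ∈ Sat (S' k : Set A), P.D j a ∈ Sat (S' (k + 1) : Set A) :=
    fun k j hj a ha => derivation_mem_Sat (P.D j) (hi k) (hD1 k j hj) ha
  have hpd : ∀ (M : Multiset ι), (∀ j ∈ M, j ∈ J') → ∀ k, ∀ a ∈ Sat (S' k : Set A),
      P.pd M a ∈ Sat (S' (k + M.card) : Set A) := by
    intro M
    induction M using Multiset.induction_on with
    | empty => intro _ k a ha; simpa using ha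
    | cons i M ih =>
      intro hM k a ha
      rw [P.pd_cons, Multiset.card_cons, ← add_assoc]
      exact hD1' _ i (Finset.ne_of_mem_erase (hM i (Multiset.mem_cons_self i M))) _
        (ih (fun j hj => hM j (Multiset.mem_cons_of_mem hj)) k a ha)
  -- the elements `W`, `Δ`
  have hB1 : Sat (B ∪ {a | ∃ i, ∃ b ∈ B, a = P.D i b}) ≤ Sat (S' 1 : Set A) := by
    apply Sat_le
    rintro a (ha | ⟨i, b, hb, rfl⟩)
    · exact hSS' 1 (Sat_chain hS1 (Nat.zero_le 1) (hS3 ha))
    · exact hSS' 1 (derivation_mem_Sat (P.D i) (hS1 0) (hS2 0 i) (hS3 hb))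
  have h0T : ∀ k, (0 : Multiset ι) ∈ T k := fun k => (hT k 0).2 ⟨by simp, by simp⟩
  have hσ0 : ∀ k, σ ∈ Sat (S' k : Set A) := fun k => by
    have := hσmem k 0 (h0T k); rwa [P.pd_zero] at this
  have hϱ0 : ∀ k, ϱ ∈ Sat (S' k : Set A) := fun k => by
    have := hϱmem k 0 (h0T k); rwa [P.pd_zero] at this
  have hWj0 : W j0 ∈ Sat (S' 1 : Set A) := hB1 (hW j0 hj0)
  have hDσ : P.D j0 σ ∈ Sat (S' 1 : Set A) := by
    refine mem_Sat_of_mul hWj0 hW0 ?_
    have : W j0 * P.D j0 σ = Δ * ϱ - ∑ j ∈ J', W j * P.D j σ := by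
      rw [← h1, ← Finset.add_sum_erase _ _ hj0]; ring
    rw [this]
    refine sub_mem (mul_mem (hB1 hΔ) (hϱ0 1)) (sum_mem fun j hj => ?_)
    have hj' := Finset.mem_erase.1 hj
    exact mul_mem (hB1 (hW j hj'.2)) (hD1' 0 j hj'.1 σ (hσ0 0))
  have hDϱ : P.D j0 ϱ ∈ Sat (S' 1 : Set A) := by
    refine mem_Sat_of_mul hWj0 hW0 ?_
    have : W j0 * P.D j0 ϱ = - ∑ j ∈ J', W j * P.D j ϱ := by
      rw [eq_neg_iff_add_eq_zero, ← h2, ← Finset.add_sum_erase _ _ hj0]
    rw [this]
    refine neg_mem (sum_mem fun j hj => ?_)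
    have hj' := Finset.mem_erase.1 hj
    exact mul_mem (hB1 (hW j hj'.2)) (hD1' 0 j hj'.1 ϱ (hϱ0 0))
  refine ⟨c + 2, S', hi, ?_, ?_, ?_⟩
  · intro k j s hs
    by_cases hj : j = j0
    · subst hj
      rcases hmem k s hs with hs | ⟨M, hM, rfl⟩ | ⟨M, hM, rfl⟩
      · exact hSS' _ (hS2 k _ s hs)
      · rw [← P.pd_D]
        rw [hT] at hM
        exact Sat_chain hi (show 1 + M.card ≤ k + 1 by omega) (hpd M hM.2 1 _ hDσ)
      · rw [← P.pd_D]
        rw [hT] at hM
        exact Sat_chain hi (show 1 + M.card ≤ k + 1 by omega) (hpd M hM.2 1 _ hDϱ)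
    · exact hD1 k j hj s hs
  · rintro a (ha | ha)
    · exact hSS' 0 (hS3 ha)
    · rcases ha with rfl | ha
      · exact hσ0 0
      · rw [Set.mem_singleton_iff.1 ha]; exact hϱ0 0
  · intro k
    have e1 := Finset.card_union_le (S k)
      ((T k).image (fun M => P.pd M σ) ∪ (T k).image (fun M => P.pd M ϱ))
    have e2 := Finset.card_union_le ((T k).image (fun M => P.pd M σ))
      ((T k).image (fun M => P.pd M ϱ))
    have e3 : ((T k).image (fun M => P.pd M σ)).card ≤ (T k).card := Finset.card_image_le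
    have e4 : ((T k).image (fun M => P.pd M ϱ)).card ≤ (T k).card := Finset.card_image_le
    have e5 := hTcard k
    have e6 := hS4 k
    have : (S' k).card ≤ c * (k + 1) ^ (J.card - 1) + 2 * (k + 1) ^ (J.card - 1) := by
      simp only [S']
      omega
    rw [add_mul]
    exact this

end pde

/-- In a tame family, every member satisfies an algebraic partial differential equation with
rational coefficients. -/
theorem Tame.exists_polynomial {P : CommDer ι A} {J : Finset ι} (hJ : J.Nonempty) {B : Set A}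
    (h : Tame P J.card B) {f : A} (hf : f ∈ B) :
    ∃ Q : MvPolynomial (Multiset J) ℚ, Q ≠ 0 ∧
      MvPolynomial.aeval (fun M : Multiset J => P.pd (M.map Subtype.val) f) Q = 0 := by
  classical
  obtain ⟨c, S, hS1, hS2, hS3, hS4⟩ := h
  set n := J.card with hn
  have hn0 : 0 < n := Finset.card_pos.2 hJ
  have hD : ∀ k j, ∀ a ∈ Sat (S k : Set A), P.D j a ∈ Sat (S (k + 1) : Set A) :=
    fun k j a ha => derivation_mem_Sat (P.D j) (hS1 k) (hS2 k j) ha
  have hpd : ∀ (M : Multiset ι), P.pd M f ∈ Sat (S M.card : Set A) := by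
    intro M
    induction M using Multiset.induction_on with
    | empty => simpa using hS3 hf
    | cons i M ih =>
      rw [P.pd_cons, Multiset.card_cons]
      exact hD _ i _ ih
  let q := c * n ^ (n - 1)
  let toM : (J → Fin (q + 1)) → Multiset J := fun β => ∑ j : J, (β j : ℕ) • ({j} : Multiset J)
  have htoM_count : ∀ β j, (toM β).count j = β j := by
    intro β j
    simp only [toM]
    rw [Multiset.count_sum']
    simp only [Multiset.count_nsmul, Multiset.count_singleton]
    rw [Finset.sum_eq_single j]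
    · simp
    · intro b _ hb
      rw [if_neg (Ne.symm hb), mul_zero]
    · intro h; exact absurd (Finset.mem_univ _) h
  have htoM_inj : Function.Injective toM := by
    intro β γ h
    ext j
    rw [← htoM_count β j, ← htoM_count γ j, h]
  have htoM_card : ∀ β, (toM β).card ≤ n * q := by
    intro β
    simp only [toM]
    rw [Multiset.card_sum]
    refine (Finset.sum_le_card_nsmul _ _ q fun j _ => ?_).trans ?_
    · rw [Multiset.card_nsmul, Multiset.card_singleton, mul_one]
      exact Nat.lt_succ_iff.1 (β j).2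
    · simp [hn]
  let F : (J → Fin (q + 1)) → A := fun β => P.pd ((toM β).map Subtype.val) f
  have hF : ∀ β, F β ∈ Sat (S (n * q) : Set A) := fun β =>
    Sat_chain hS1 (by rw [Multiset.card_map]; exact htoM_card β) (hpd _)
  have hcard : (S (n * q)).card < Fintype.card (J → Fin (q + 1)) := by
    have h1 : Fintype.card (J → Fin (q + 1)) = (q + 1) ^ n := by simp [hn]
    rw [h1]
    calc (S (n * q)).card ≤ c * (n * q + 1) ^ (n - 1) := hS4 _
      _ ≤ c * (n * (q + 1)) ^ (n - 1) :=
          Nat.mul_le_mul_left _ (Nat.pow_le_pow_left (by nlinarith) _)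
      _ = q * (q + 1) ^ (n - 1) := by rw [mul_pow, ← mul_assoc]
      _ < (q + 1) * (q + 1) ^ (n - 1) :=
          Nat.mul_lt_mul_of_pos_right (Nat.lt_succ_self q) (pow_pos (Nat.succ_pos _) _)
      _ = (q + 1) ^ n := by
          rw [mul_comm, ← pow_succ]
          congr 1; omega
  have hdep := not_algebraicIndependent_of_card_lt F hF hcard
  rw [algebraicIndependent_iff] at hdep
  push Not at hdep
  obtain ⟨Q, hQ, hQ0⟩ := hdep
  refine ⟨MvPolynomial.rename toM Q, ?_, ?_⟩
  · intro h0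
    apply hQ0
    exact MvPolynomial.rename_injective toM htoM_inj (by rw [h0, map_zero])
  · rw [MvPolynomial.aeval_rename]
    exact hQ

end Pool.Agent.Overshear
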