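import Pool.Agent.Helper23.Overshear.Defs
import Pool.Agent.Helper23.Overshear.Entire

/-!
# Holomorphic functions, flows, and entire curves on an affine variety
-/

set_option autoImplicit false

noncomputable section

open Filter Topology Set

namespace Pool.Agent.Overshear

universe u

variable {R : Type u} [CommRing R] [Algebra ℂ R]

/-! ### flows -/

namespace LND

theorem dp_succ (Θ : LND R) (n : ℕ) (a : R) :
    ((n : ℂ) + 1) • Θ.dp (n + 1) a = Θ.dp n (Θ.D a) := by
  unfold dp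
  rw [smul_smul, Function.iterate_succ_apply]
  congr 1
  rw [Nat.factorial_succ]
  push_cast
  have h1 : (n.factorial : ℂ) ≠ 0 := Nat.cast_ne_zero.2 (Nat.factorial_ne_zero _)
  have h2 : (n : ℂ) + 1 ≠ 0 := by exact_mod_cast Nat.succ_ne_zero n
  field_simp

theorem flow_apply (Θ : LND R) (s : ℂ) (p : Pt R) {a : R} {m : ℕ} (hm : (Θ.D^[m]) a = 0) :
    Θ.flow s p a = ∑ n ∈ Finset.range m, s ^ n * p (Θ.dp n a) :=
  Θ.expHom_apply (B := ℂ) p s hm

theorem flow_zero (Θ : LND R) (p : Pt R) : Θ.flow 0 p = p := by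
  refine Pt.ext fun a => ?_
  have h := iterate_eq_zero_of_le Θ.D (Nat.le_succ (Θ.ord a)) (Θ.ord_spec a)
  rw [Θ.flow_apply 0 p h, Finset.sum_range_succ']
  simp [dp_zero_left]

theorem hasDerivAt_flow (Θ : LND R) (p : Pt R) (a : R) (s : ℂ) :
    HasDerivAt (fun s : ℂ => Θ.flow s p a) (Θ.flow s p (Θ.D a)) s := by
  have hm := Θ.ord_spec a
  have hm1 := iterate_eq_zero_of_le Θ.D (Nat.le_succ (Θ.ord a)) hm
  have hm' : (Θ.D^[Θ.ord a]) (Θ.D a) = 0 := by
    rw [← Function.iterate_succ_apply]; exact hm1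
  have h1 : (fun s : ℂ => Θ.flow s p a)
      = fun s : ℂ => ∑ n ∈ Finset.range (Θ.ord a + 1), s ^ n * p (Θ.dp n a) := by
    ext s; exact Θ.flow_apply s p hm1
  rw [h1, Θ.flow_apply s p hm']
  have h2 : HasDerivAt (fun s : ℂ => ∑ n ∈ Finset.range (Θ.ord a + 1), s ^ n * p (Θ.dp n a))
      (∑ n ∈ Finset.range (Θ.ord a + 1), ((n : ℂ) * s ^ (n - 1)) * p (Θ.dp n a)) s :=
    HasDerivAt.fun_sum fun n _ => (hasDerivAt_pow n s).mul_const _
  convert! h2 using 1
  rw [Finset.sum_range_succ']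
  simp only [Nat.cast_zero, zero_mul, add_zero, Nat.add_sub_cancel]
  refine Finset.sum_congr rfl fun n _ => ?_
  rw [← dp_succ, map_smul]
  push_cast
  simp only [smul_eq_mul]
  ring

/-- uniqueness of integral curves of (a multiple of) a locally nilpotent vector field -/
theorem eq_flow_of_hasDerivAt (Θ : LND R) {γ : ℂ → Pt R} {u T : ℂ → ℂ}
    (hT : ∀ s, HasDerivAt T (u s) s) (hT0 : T 0 = 0)
    (hγ : ∀ (a : R) (s : ℂ), HasDerivAt (fun s : ℂ => γ s a) (u s * γ s (Θ.D a)) s) (s : ℂ) :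
    γ s = Θ.flow (T s) (γ 0) := by
  have key : ∀ (m : ℕ) (a : R), (Θ.D^[m]) a = 0 → ∀ s, γ s a = Θ.flow (T s) (γ 0) a := by
    intro m
    induction m with
    | zero =>
      intro a ha s
      have ha' : a = 0 := ha
      rw [ha', map_zero, map_zero]
    | succ m ih =>
      intro a ha s
      rw [Function.iterate_succ_apply] at ha
      have h1 : ∀ s, HasDerivAt (fun s : ℂ => γ s a - Θ.flow (T s) (γ 0) a) 0 s := by
        intro s
        have h2 := (hγ a s).fun_sub ((Θ.hasDerivAt_flow (γ 0) a (T s)).comp s (hT s))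
        rw [ih _ ha s] at h2
        convert! h2 using 1
        ring
      have h3 := is_const_of_deriv_eq_zero (fun s => (h1 s).differentiableAt)
        (fun s => (h1 s).deriv) s 0
      simp only [hT0, flow_zero, sub_self] at h3
      exact sub_eq_zero.1 h3
  exact Pt.ext fun a => key (Θ.ord a) a (Θ.ord_spec a) s

theorem flow_add (Θ : LND R) (s t : ℂ) (p : Pt R) : Θ.flow s (Θ.flow t p) = Θ.flow (s + t) p := by
  have h := Θ.eq_flow_of_hasDerivAt (γ := fun s => Θ.flow (s + t) p) (u := fun _ => 1) (T := id)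
    (fun s => hasDerivAt_id s) rfl (fun a s => by
      rw [one_mul]
      exact (Θ.hasDerivAt_flow p a (s + t)).comp_add_const s t) s
  simp only [id, zero_add] at h
  exact h.symm

theorem flow_neg_flow (Θ : LND R) (s : ℂ) (p : Pt R) : Θ.flow (-s) (Θ.flow s p) = p := by
  rw [flow_add, neg_add_cancel, flow_zero]

/-- a point where `Θ` vanishes is fixed by the flow -/
theorem flow_eq_self (Θ : LND R) {p : Pt R} (h : ∀ a, p (Θ.D a) = 0) (s : ℂ) :
    Θ.flow s p = p := by
  refine Pt.ext fun a => ?_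
  have hm := iterate_eq_zero_of_le Θ.D (Nat.le_succ (Θ.ord a)) (Θ.ord_spec a)
  rw [Θ.flow_apply s p hm, Finset.sum_range_succ', Finset.sum_eq_zero]
  · simp [dp_zero_left]
  · intro n _
    rw [dp, Function.iterate_succ_apply', map_smul, h, smul_zero, mul_zero]

/-- `Θ` does not vanish at `exp(sΘ)(p)` if it does not vanish at `p`. -/
theorem exists_ne_zero_flow (Θ : LND R) {p : Pt R} (h : ∃ a, p (Θ.D a) ≠ 0) (s : ℂ) :
    ∃ a, Θ.flow s p (Θ.D a) ≠ 0 := by
  by_contra hcon
  push Not at hcon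
  obtain ⟨a, ha⟩ := h
  have h1 := Θ.flow_eq_self hcon (-s)
  rw [flow_neg_flow] at h1
  rw [h1] at ha
  exact ha (hcon a)

end LND

/-! ### the entire function `E(w) = (exp w - 1) / w` -/

/-- `E(w) = (exp w - 1) / w`, `E(0) = 1` -/
def Efun : ℂ → ℂ := dslope Complex.exp 0

theorem Efun_mul (w : ℂ) : w * Efun w = Complex.exp w - 1 := by
  have := sub_smul_dslope Complex.exp 0 w
  simpa [Efun] using this

theorem Efun_zero : Efun 0 = 1 := by
  simp [Efun, dslope_same]

theorem Efun_analytic : AnalyticOnNhd ℂ Efun univ := by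
  have h : Differentiable ℂ Efun := by
    rw [← differentiableOn_univ]
    exact (Complex.differentiableOn_dslope univ_mem).2 Complex.differentiable_exp.differentiableOn
  exact fun z _ => h.analyticAt z

theorem hasDerivAt_mul_Efun (w s : ℂ) :
    HasDerivAt (fun s : ℂ => s * Efun (w * s)) (Complex.exp (w * s)) s := by
  by_cases hw : w = 0
  · subst hw
    simp only [zero_mul, Efun_zero, mul_one, Complex.exp_zero]
    exact hasDerivAt_id s
  · have h1 : (fun s : ℂ => s * Efun (w * s)) = fun s : ℂ => w⁻¹ * (Complex.exp (w * s) - 1) := by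
      ext s
      rw [← Efun_mul]
      field_simp
    rw [h1]
    have h2 : HasDerivAt (fun s : ℂ => w * s) w s := by
      simpa using (hasDerivAt_id s).const_mul w
    have h3 := (h2.cexp.sub_const 1).const_mul w⁻¹
    convert! h3 using 1
    field_simp

/-! ### generators -/

section gens

variable {N : ℕ} {x : Fin N → R} (hx : Algebra.adjoin ℂ (Set.range x) = ⊤)

include hx

theorem exists_mvPolynomial (a : R) : ∃ P : MvPolynomial (Fin N) ℂ, MvPolynomial.aeval x P = a := by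
  have : a ∈ Algebra.adjoin ℂ (Set.range x) := by rw [hx]; trivial
  rw [Algebra.adjoin_range_eq_range_aeval] at this
  exact this

theorem hasDerivAt_path {γ : ℂ → Pt R} {s₀ : ℂ} {v : Fin N → ℂ}
    (h : ∀ l, HasDerivAt (fun s => γ s (x l)) (v l) s₀) (a : R) :
    DifferentiableAt ℂ (fun s => γ s a) s₀ := by
  have ha : a ∈ Algebra.adjoin ℂ (Set.range x) := by rw [hx]; trivial
  induction ha using Algebra.adjoin_induction with
  | mem a ha => obtain ⟨l, rfl⟩ := ha; exact (h l).differentiableAt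
  | algebraMap c =>
    have : (fun s => γ s (algebraMap ℂ R c)) = fun _ => c := by
      ext s; exact AlgHomClass.commutes (γ s) c
    rw [this]; exact differentiableAt_const _
  | add a b _ _ iha ihb => simp only [map_add]; exact iha.fun_add ihb
  | mul a b _ _ iha ihb => simp only [map_mul]; exact iha.fun_mul ihb

theorem continuousAt_path {γ : ℂ → Pt R} {s₀ : ℂ} {v : Fin N → ℂ}
    (h : ∀ l, HasDerivAt (fun s => γ s (x l)) (v l) s₀) : ContinuousAt γ s₀ := by
  have h1 : ContinuousAt (fun s => fun a : R => γ s a) s₀ := by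
    rw [continuousAt_pi]
    exact fun a => (hasDerivAt_path hx h a).continuousAt
  rw [ContinuousAt, nhds_induced, tendsto_comap_iff]
  exact h1

theorem IsHolo.exists_gen {f : Pt R → ℂ} (hf : IsHolo f) (p : Pt R) :
    ∃ φ : (Fin N → ℂ) → ℂ, AnalyticAt ℂ φ (fun l => p (x l)) ∧
      ∀ᶠ q in 𝓝 p, f q = φ (fun l => q (x l)) := by
  obtain ⟨m, a, φ, hφ, h⟩ := hf p
  choose P hP using fun i => exists_mvPolynomial hx (a i)
  have hq : ∀ (q : Pt R) i, q (a i) = MvPolynomial.eval (fun l => q (x l)) (P i) := by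
    intro q i
    have h1 : q (MvPolynomial.aeval x (P i)) = MvPolynomial.aeval (fun l => q (x l)) (P i) :=
      MvPolynomial.comp_aeval_apply x (q : R →ₐ[ℂ] ℂ) (P i)
    rw [← hP i, h1]
    rfl
  refine ⟨fun w => φ (fun i => MvPolynomial.eval w (P i)), ?_, ?_⟩
  · refine AnalyticAt.fun_comp (g := φ) (f := fun w i => MvPolynomial.eval w (P i)) ?_ ?_
    · have : (fun i => MvPolynomial.eval (fun l => p (x l)) (P i)) = fun i => p (a i) := by
        ext i; rw [hq]
      rw [this]; exact hφ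
    · rw [analyticAt_pi_iff]
      exact fun i => AnalyticOnNhd.eval_mvPolynomial (P i) _ (mem_univ _)
  · filter_upwards [h] with q h1
    rw [h1]
    congr 1
    ext i
    exact hq q i

end gens

theorem IsHolo.of_gen {N : ℕ} (x : Fin N → R) {f : Pt R → ℂ}
    (h : ∀ p : Pt R, ∃ φ : (Fin N → ℂ) → ℂ, AnalyticAt ℂ φ (fun l => p (x l)) ∧
      ∀ᶠ q in 𝓝 p, f q = φ (fun l => q (x l))) : IsHolo f :=
  fun p => ⟨N, x, h p⟩

section gens2

variable {N : ℕ} {x : Fin N → R} (hx : Algebra.adjoin ℂ (Set.range x) = ⊤)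

include hx

theorem IsHolo.mul {f g : Pt R → ℂ} (hf : IsHolo f) (hg : IsHolo g) :
    IsHolo (fun p => f p * g p) := by
  refine IsHolo.of_gen x fun p => ?_
  obtain ⟨φ, hφ, h1⟩ := hf.exists_gen hx p
  obtain ⟨ψ, hψ, h2⟩ := hg.exists_gen hx p
  refine ⟨fun w => φ w * ψ w, hφ.fun_mul hψ, ?_⟩
  filter_upwards [h1, h2] with q h3 h4
  rw [h3, h4]

theorem IsHolo.add {f g : Pt R → ℂ} (hf : IsHolo f) (hg : IsHolo g) :
    IsHolo (fun p => f p + g p) := by
  refine IsHolo.of_gen x fun p => ?_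
  obtain ⟨φ, hφ, h1⟩ := hf.exists_gen hx p
  obtain ⟨ψ, hψ, h2⟩ := hg.exists_gen hx p
  refine ⟨fun w => φ w + ψ w, hφ.fun_add hψ, ?_⟩
  filter_upwards [h1, h2] with q h3 h4
  rw [h3, h4]

omit hx in
theorem isHolo_const (c : ℂ) : IsHolo (fun _ : Pt R => c) := by
  have h := isHolo_eval (R := R) (algebraMap ℂ R c)
  have : (fun p : Pt R => p (algebraMap ℂ R c)) = fun _ => c := by
    ext p; exact AlgHomClass.commutes p c
  rwa [this] at h

omit hx in
theorem IsHolo.comp1 {f : Pt R → ℂ} (hf : IsHolo f) {E : ℂ → ℂ} (hE : AnalyticOnNhd ℂ E univ) :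
    IsHolo (fun p => E (f p)) := by
  intro p
  obtain ⟨m, a, φ, hφ, h1⟩ := hf p
  refine ⟨m, a, fun w => E (φ w), AnalyticAt.fun_comp (hE _ (mem_univ _)) hφ, ?_⟩
  filter_upwards [h1] with q h3
  rw [h3]

theorem IsHolo.pow {f : Pt R → ℂ} (hf : IsHolo f) (n : ℕ) : IsHolo (fun p => f p ^ n) := by
  induction n with
  | zero => simpa using isHolo_const (R := R) 1
  | succ n ih => simpa [pow_succ] using IsHolo.mul hx ih hf

theorem IsHolo.sum {κ : Type*} (s : Finset κ) {f : κ → Pt R → ℂ} (hf : ∀ i ∈ s, IsHolo (f i)) :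
    IsHolo (fun p => ∑ i ∈ s, f i p) := by
  classical
  induction s using Finset.induction_on with
  | empty => simpa using isHolo_const (R := R) 0
  | insert i s hi ih =>
    simp only [Finset.sum_insert hi]
    exact IsHolo.add hx (hf i (Finset.mem_insert_self i s))
      (ih fun j hj => hf j (Finset.mem_insert_of_mem hj))

/-- The differential of a holomorphic function at a point computes derivatives along paths. -/
theorem IsHolo.exists_differential {f : Pt R → ℂ} (hf : IsHolo f) (p : Pt R) :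
    ∃ ℓ : (Fin N → ℂ) →L[ℂ] ℂ, ∀ (γ : ℂ → Pt R) (s₀ : ℂ) (v : Fin N → ℂ), γ s₀ = p →
      (∀ l, HasDerivAt (fun s => γ s (x l)) (v l) s₀) →
      HasDerivAt (fun s => f (γ s)) (ℓ v) s₀ := by
  obtain ⟨φ, hφ, h⟩ := hf.exists_gen hx p
  refine ⟨fderiv ℂ φ (fun l => p (x l)), fun γ s₀ v hγ hv => ?_⟩
  have h1 : HasDerivAt (fun s => fun l => γ s (x l)) v s₀ := hasDerivAt_pi.2 hv
  have h2 : HasFDerivAt φ (fderiv ℂ φ (fun l => p (x l))) (fun l => γ s₀ (x l)) := by
    rw [hγ]; exact hφ.differentiableAt.hasFDerivAt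
  have h3 := h2.comp_hasDerivAt s₀ h1
  refine h3.congr_of_eventuallyEq ?_
  have hc := continuousAt_path hx hv
  rw [ContinuousAt, hγ] at hc
  exact hc.eventually h

/-- the derivative of a holomorphic function along the flow -/
theorem LND.hasDerivAt_act (Θ : LND R) {f : Pt R → ℂ} (hf : IsHolo f) (p : Pt R) :
    HasDerivAt (fun s : ℂ => f (Θ.flow s p)) (Θ.act f p) 0 := by
  obtain ⟨ℓ, hℓ⟩ := hf.exists_differential hx p
  have h := hℓ (fun s => Θ.flow s p) 0 (fun l => p (Θ.D (x l))) (Θ.flow_zero p) (fun l => by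
    have := Θ.hasDerivAt_flow p (x l) 0
    rwa [Θ.flow_zero] at this)
  rw [LND.act, h.deriv]
  exact h

theorem LND.exists_differential (Θ : LND R) {f : Pt R → ℂ} (hf : IsHolo f) (p : Pt R) :
    ∃ ℓ : (Fin N → ℂ) →L[ℂ] ℂ, (∀ (γ : ℂ → Pt R) (s₀ : ℂ) (v : Fin N → ℂ), γ s₀ = p →
      (∀ l, HasDerivAt (fun s => γ s (x l)) (v l) s₀) →
      HasDerivAt (fun s => f (γ s)) (ℓ v) s₀) ∧ Θ.act f p = ℓ (fun l => p (Θ.D (x l))) := by
  obtain ⟨ℓ, hℓ⟩ := hf.exists_differential hx p
  refine ⟨ℓ, hℓ, ?_⟩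
  have h := hℓ (fun s => Θ.flow s p) 0 (fun l => p (Θ.D (x l))) (Θ.flow_zero p) (fun l => by
    have := Θ.hasDerivAt_flow p (x l) 0
    rwa [Θ.flow_zero] at this)
  exact (Θ.hasDerivAt_act hx hf p).unique h

/-- derivative of `f` along an integral curve of `u·Θ` -/
theorem LND.hasDerivAt_curve (Θ : LND R) {f : Pt R → ℂ} (hf : IsHolo f) {γ : ℂ → Pt R} {c s : ℂ}
    (hγ : ∀ a : R, HasDerivAt (fun s : ℂ => γ s a) (c * γ s (Θ.D a)) s) :
    HasDerivAt (fun s : ℂ => f (γ s)) (c * Θ.act f (γ s)) s := by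
  obtain ⟨ℓ, hℓ, h2⟩ := Θ.exists_differential hx hf (γ s)
  have h := hℓ γ s (fun l => c * γ s (Θ.D (x l))) rfl (fun l => hγ (x l))
  rw [h2]
  convert! h using 1
  have : (fun l => c * (γ s) (Θ.D (x l))) = c • (fun l => (γ s) (Θ.D (x l))) := rfl
  rw [this, map_smul, smul_eq_mul]

theorem LND.isHolo_act (Θ : LND R) {f : Pt R → ℂ} (hf : IsHolo f) : IsHolo (Θ.act f) := by
  refine IsHolo.of_gen x fun p => ?_
  obtain ⟨φ, hφ, h⟩ := hf.exists_gen hx p
  choose P hP using fun l => exists_mvPolynomial hx (Θ.D (x l))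
  have hq : ∀ (q : Pt R) l, q (Θ.D (x l)) = MvPolynomial.eval (fun l => q (x l)) (P l) := by
    intro q i
    have h1 : q (MvPolynomial.aeval x (P i)) = MvPolynomial.aeval (fun l => q (x l)) (P i) :=
      MvPolynomial.comp_aeval_apply x (q : R →ₐ[ℂ] ℂ) (P i)
    rw [← hP i, h1]
    rfl
  refine ⟨fun w => fderiv ℂ φ w (fun l => MvPolynomial.eval w (P l)), ?_, ?_⟩
  · have h1 : AnalyticAt ℂ (fderiv ℂ φ) (fun l => p (x l)) := AnalyticAt.fderiv hφ
    have h2 : AnalyticAt ℂ (fun w : Fin N → ℂ => fun l => MvPolynomial.eval w (P l))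
        (fun l => p (x l)) := by
      rw [analyticAt_pi_iff]
      exact fun i => AnalyticOnNhd.eval_mvPolynomial (P i) _ (mem_univ _)
    exact AnalyticAt.fun_comp
      (g := fun q : (Fin N → ℂ) × ((Fin N → ℂ) →L[ℂ] ℂ) =>
        (ContinuousLinearMap.apply ℂ ℂ : (Fin N → ℂ) →L[ℂ] ((Fin N → ℂ) →L[ℂ] ℂ) →L[ℂ] ℂ) q.1 q.2)
      (f := fun w : Fin N → ℂ => ((fun l => MvPolynomial.eval w (P l)), fderiv ℂ φ w))
      ((ContinuousLinearMap.apply ℂ ℂ : (Fin N → ℂ) →L[ℂ] ((Fin N → ℂ) →L[ℂ] ℂ) →L[ℂ] ℂ).analyticAt_bilinear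
        _)
      (h2.prod h1)
  · have h1 : ∀ᶠ q in 𝓝 p, ∀ᶠ q' in 𝓝 q, f q' = φ (fun l => q' (x l)) :=
      eventually_eventually_nhds.2 h
    have hc : Continuous (fun q : Pt R => fun l => q (x l)) :=
      continuous_pi fun l => continuous_eval (x l)
    have h2 : ∀ᶠ q in 𝓝 p, AnalyticAt ℂ φ (fun l => q (x l)) :=
      hc.continuousAt.eventually hφ.eventually_analyticAt
    filter_upwards [h1, h2] with q h3 h4
    have h5 : HasDerivAt (fun s : ℂ => f (Θ.flow s q))
        (fderiv ℂ φ (fun l => q (x l)) (fun l => q (Θ.D (x l)))) 0 := by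
      have hv : ∀ l, HasDerivAt (fun s => Θ.flow s q (x l)) (q (Θ.D (x l))) 0 := fun l => by
        have := Θ.hasDerivAt_flow q (x l) 0
        rwa [Θ.flow_zero] at this
      have e1 : HasDerivAt (fun s => fun l => Θ.flow s q (x l)) (fun l => q (Θ.D (x l))) 0 :=
        hasDerivAt_pi.2 hv
      have e2 : HasFDerivAt φ (fderiv ℂ φ (fun l => q (x l))) (fun l => Θ.flow 0 q (x l)) := by
        rw [Θ.flow_zero]; exact h4.differentiableAt.hasFDerivAt
      have e3 := e2.comp_hasDerivAt (0 : ℂ) e1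
      refine e3.congr_of_eventuallyEq ?_
      have hc := continuousAt_path hx hv
      rw [ContinuousAt, Θ.flow_zero] at hc
      exact hc.eventually h3
    have h6 := (Θ.hasDerivAt_act hx hf q).unique h5
    rw [h6]
    congr 1
    ext l
    exact hq q l

end gens2

end Pool.Agent.Overshear
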